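import Pool.Agent.WS.Sound
import Mathlib.Data.Fin.VecNotation
import Mathlib.Data.Fintype.Basic

/-!
# WS/Input: the input clauses

For a mask `m` the set `X e m` consists of the elements `e x`, `x` a bit of `m`. Variables: `m` says
that `X e m` is independent, `32768 + m` that it has the colour, `65536 + m` that it is a block.
The literals are `2 * v` and `2 * v + 1` (negation). The clauses use other numbers for the variables;
the tree `vt` translates them. Descriptors `d` (`r = d / 8`), types `d % 8`:
* 0: subsets of independent sets are independent;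
* 1: the augmentation axiom for `m + a` and `m + b + c`;
* 2: if `a`, `b` and the rest are independent then the colour of `a` is the colour of `b`;
* 3: the given units;
* 4: augmentation of `m` from a row or column;
* 5: partitions which have a known position to the rows or columns;
* 6: if `a`, `b` and the rest are independent then `a` is a block;
* 7: blocks with a large intersection have the same colour.
-/

set_option autoImplicit false

namespace Pool.Agent.WS

/-- The number of bits below `n`. -/
def pc (n m : ℕ) : ℕ :=
  Nat.rec 0 (fun x ih => Nat.add ih (Nat.land (Nat.shiftRight m x) 1)) n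

/-- The permutations of `Fin 3`. -/
def perms : List (Fin 3 → Fin 3) :=
  [![0, 1, 2], ![0, 2, 1], ![1, 0, 2], ![1, 2, 0], ![2, 0, 1], ![2, 1, 0]]

/-- The data of a pattern. -/
structure Data where
  /-- number of elements -/
  n : ℕ
  /-- bound for large intersections -/
  t : ℕ
  /-- known intersection matrices -/
  K : List (Fin 3 → Fin 3 → ℕ)
  /-- the rows -/
  row : Fin 3 → ℕ
  /-- the columns -/
  col : Fin 3 → ℕ

/-- The set of all elements. -/
def Data.full (D : Data) : ℕ := 2 ^ D.n - 1

/-- The unit clauses. -/
def Data.units (D : Data) : List ℕ :=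
  [2 * D.row 0, 2 * D.row 1, 2 * D.row 2, 2 * D.col 0, 2 * D.col 1, 2 * D.col 2,
    2 * (32768 + D.row 0) + 1, 2 * (32768 + D.row 1) + 1, 2 * (32768 + D.row 2) + 1,
    2 * (32768 + D.col 0), 2 * (32768 + D.col 1), 2 * (32768 + D.col 2)]

/-- Rows and columns. -/
def Data.block (D : Data) (j : ℕ) : ℕ :=
  [D.row 0, D.row 1, D.row 2, D.col 0, D.col 1, D.col 2].getD j 0

/-- The clause of a descriptor (`none` if the descriptor is not valid). -/
def clause (D : Data) (d : ℕ) : Option (List ℕ) :=
  let r := d / 8
  match d % 8 with
  | 0 =>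
    let x := r % 16
    let m := r / 16
    let m' := m ||| (1 <<< x)
    if m < 32768 ∧ m' < 32768 then some [2 * m' + 1, 2 * m] else none
  | 1 =>
    let a := r % 16
    let b := r / 16 % 16
    let c := r / 256 % 16
    let m := r / 4096
    let ma := m ||| (1 <<< a)
    let mbc := (m ||| (1 <<< b)) ||| (1 <<< c)
    let mab := ma ||| (1 <<< b)
    let mac := ma ||| (1 <<< c)
    if ma < 32768 ∧ mbc < 32768 ∧ mab < 32768 ∧ mac < 32768 ∧ a < D.n ∧ b < D.n ∧ c < D.n ∧
        b ≠ c ∧ m.testBit a = false ∧ m.testBit b = false ∧ m.testBit c = false then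
      some [2 * ma + 1, 2 * mbc + 1, 2 * mab, 2 * mac] else none
  | 2 =>
    let a := r % 32768
    let b := r / 32768
    let c := D.full ^^^ (a ||| b)
    if a &&& b = 0 ∧ b < 32768 ∧ c < 32768 then
      some [2 * a + 1, 2 * b + 1, 2 * c + 1, 2 * (32768 + a) + 1, 2 * (32768 + b)] else none
  | 3 => if D.units.elem r then some [r] else none
  | 4 =>
    let b := D.block (r % 8)
    let m := r / 8
    if pc D.n m < pc D.n b ∧ m < 32768 ∧ D.full < 32768 then
      some ((2 * m + 1) :: ((List.range D.n).filterMap fun y =>
        if b.testBit y = true ∧ m.testBit y = false then some (2 * (m ||| (1 <<< y))) else none))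
    else none
  | 5 =>
    let x := r % 32768
    let y := r / 32768 % 32768
    let q := r / 1073741824
    let z := D.full ^^^ (x ||| y)
    let side := q % 2
    let s := perms.getD (q / 2 % 8) id
    let t := perms.getD (q / 16 % 8) id
    let B : Fin 3 → ℕ := if side = 0 then D.row else D.col
    let A : Fin 3 → ℕ := ![x, y, z]
    match D.K[q / 128]? with
    | none => none
    | some M =>
      if q / 2 % 8 < 6 ∧ q / 16 % 8 < 6 ∧ x &&& y = 0 ∧ z < 32768 ∧
          ∀ i j, pc D.n (A (s i) &&& B (t j)) = M i j then
        some [2 * x + 1, 2 * y + 1, 2 * z + 1, 2 * (32768 + x) + 1 - side] else none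
  | 6 =>
    let a := r % 32768
    let b := r / 32768
    let c := D.full ^^^ (a ||| b)
    if a &&& b = 0 ∧ b < 32768 ∧ c < 32768 then
      some [2 * a + 1, 2 * b + 1, 2 * c + 1, 2 * (65536 + a)] else none
  | _ =>
    let a := r % 32768
    let b := r / 32768
    if D.t ≤ pc D.n (a &&& b) ∧ b < 32768 then
      some [2 * (65536 + a) + 1, 2 * (65536 + b) + 1, 2 * (32768 + a) + 1, 2 * (32768 + b)]
    else none

/-- Compare a list of literals with a clause. -/
noncomputable def matchC (vt : Tree) : List ℕ → ℕ → Bool :=
  List.rec (fun c => Nat.beq c 0)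
    (fun l _ ih c =>
      force (Nat.land c 32767) fun d =>
        Bool.rec false
          (Bool.rec false (ih (Nat.shiftRight c 15))
            (Nat.beq (Nat.add (Nat.mul 2 (vt.get (Nat.shiftRight (Nat.sub d 64) 1)))
              (Nat.land (Nat.sub d 64) 1)) l))
          (Nat.ble 64 d))

/-- Check the input clauses. -/
noncomputable def checkInp (D : Data) (vt t : Tree) : List ℕ → ℕ → Bool
  | [], _ => true
  | d :: ds, j =>
    match clause D d with
    | some c => Nat.ble c.length 64 && (matchC vt c (t.get j) && checkInp D vt t ds (j + 1))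
    | none => false

/-- The truth values of the literals, given the truth values `V` of the variables. -/
def TT (V : ℕ → Prop) (l : ℕ) : Prop := if l % 2 = 0 then V (l / 2) else ¬ V (l / 2)

theorem tt_xor {V : ℕ → Prop} (l : ℕ) : TT V (l ^^^ 1) ↔ ¬ TT V l := by
  have h1 : (l ^^^ 1) / 2 = l / 2 := by
    rw [Nat.xor_div_two]
    simp
  have h2 : (l ^^^ 1) % 2 = (l + 1) % 2 := by
    rw [Nat.xor_mod_two_eq]
  unfold TT
  rw [h1, h2]
  rcases Nat.mod_two_eq_zero_or_one l with h | h
  · have h3 : (l + 1) % 2 ≠ 0 := by omega
    rw [if_neg h3, if_pos h]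
  · have h3 : (l + 1) % 2 = 0 := by omega
    have h4 : l % 2 ≠ 0 := by omega
    rw [if_pos h3, if_neg h4, not_not]

theorem matchC_cons (vt : Tree) (l : ℕ) (ls : List ℕ) (c : ℕ) :
    matchC vt (l :: ls) c =
      if 64 ≤ Nat.land c 32767 then
        if 2 * vt.get ((Nat.land c 32767 - 64) / 2) + (Nat.land c 32767 - 64) % 2 = l then
          matchC vt ls (Nat.shiftRight c 15)
        else false
      else false := by
  have h0 : matchC vt (l :: ls) c =
      force (Nat.land c 32767) fun d =>
        @Bool.rec (fun _ => Bool) false
          (@Bool.rec (fun _ => Bool) false (matchC vt ls (Nat.shiftRight c 15))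
            (Nat.beq (Nat.add (Nat.mul 2 (vt.get (Nat.shiftRight (Nat.sub d 64) 1)))
              (Nat.land (Nat.sub d 64) 1)) l))
          (Nat.ble 64 d) := rfl
  rw [h0, force_eq]
  generalize Nat.land c 32767 = d
  have e1 : Nat.shiftRight (Nat.sub d 64) 1 = (d - 64) / 2 := by
    change (d - 64) >>> 1 = (d - 64) / 2
    rw [Nat.shiftRight_eq_div_pow]
  have e2 : Nat.land (Nat.sub d 64) 1 = (d - 64) % 2 := by
    change (d - 64) &&& 1 = (d - 64) % 2
    rw [Nat.and_one_is_mod]
  rw [e1, e2]
  by_cases hj : 64 ≤ d
  · rw [if_pos hj, Nat.ble_eq_true_of_le hj]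
    change @Bool.rec (fun _ => Bool) false (matchC vt ls (Nat.shiftRight c 15))
      (Nat.beq (2 * vt.get ((d - 64) / 2) + (d - 64) % 2) l) = _
    by_cases hb : 2 * vt.get ((d - 64) / 2) + (d - 64) % 2 = l
    · rw [if_pos hb, hb, Nat.beq_refl l]
    · rw [if_neg hb, beq_false hb]
  · rw [if_neg hj]
    rcases h' : Nat.ble 64 d with _ | _
    · rfl
    · exact absurd (Nat.le_of_ble_eq_true h') hj

theorem matchC_sound {vt : Tree} {V : ℕ → Prop} : ∀ (n : ℕ) (ls : List ℕ) (c : ℕ),
    ls.length ≤ n → matchC vt ls c = true → (∃ l ∈ ls, TT V l) →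
      Holds (Val (TT fun v => V (vt.get v))) n c := by
  intro n
  induction n with
  | zero =>
    intro ls c hl _ h
    obtain ⟨l, hl', _⟩ := h
    rw [List.length_eq_zero_iff.1 (Nat.le_zero.1 hl)] at hl'
    exact absurd hl' (by simp)
  | succ n ih =>
    intro ls c hl hm h
    cases ls with
    | nil =>
      obtain ⟨l, hl', _⟩ := h
      exact absurd hl' (by simp)
    | cons l ls =>
      rw [matchC_cons] at hm
      by_cases h1 : 64 ≤ Nat.land c 32767
      · rw [if_pos h1] at hm
        by_cases h2 : 2 * vt.get ((Nat.land c 32767 - 64) / 2) +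
            (Nat.land c 32767 - 64) % 2 = l
        · rw [if_pos h2] at hm
          refine ⟨?_, ?_⟩
          · rintro rfl
            have h3 : Nat.land 0 32767 = 0 := by decide
            rw [h3] at h1
            exact absurd h1 (by decide)
          · obtain ⟨l', hl', hT⟩ := h
            rcases List.mem_cons.1 hl' with rfl | hl'
            · left
              refine ⟨h1, ?_⟩
              generalize Nat.land c 32767 = d at h1 h2
              unfold TT at hT ⊢
              have e1 : l' % 2 = (d - 64) % 2 := by omega
              have e2 : l' / 2 = vt.get ((d - 64) / 2) := by omega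
              rw [e1, e2] at hT
              exact hT
            · right
              refine ih ls _ ?_ hm ⟨l', hl', hT⟩
              rw [List.length_cons] at hl
              omega
        · rw [if_neg h2] at hm
          exact absurd hm (by simp)
      · rw [if_neg h1] at hm
        exact absurd hm (by simp)

end Pool.Agent.WS
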