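import Pool.Agent.WS.Enum
import Pool.Agent.WS.C45
import Pool.Agent.WS.C43
import Pool.Agent.WS.C44
import Pool.Agent.WS.C40
import Pool.Agent.WS.C41
import Pool.Agent.WS.C42

/-!
# WS/Rank4: three bases in rank 4
-/

set_option autoImplicit false
set_option maxRecDepth 100000

namespace Pool.Agent.WS.Rank4

open Set Pool.Agent.WD

universe u

abbrev M0 : Fin 3 → Fin 3 → ℕ := ![![2, 1, 1], ![1, 2, 1], ![1, 1, 2]]

abbrev M1 : Fin 3 → Fin 3 → ℕ := ![![2, 2, 0], ![1, 1, 2], ![1, 1, 2]]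

abbrev M2 : Fin 3 → Fin 3 → ℕ := ![![2, 2, 0], ![2, 0, 2], ![0, 2, 2]]

abbrev M3 : Fin 3 → Fin 3 → ℕ := ![![3, 1, 0], ![1, 0, 3], ![0, 3, 1]]

abbrev M4 : Fin 3 → Fin 3 → ℕ := ![![3, 1, 0], ![1, 1, 2], ![0, 2, 2]]

abbrev M5 : Fin 3 → Fin 3 → ℕ := ![![3, 1, 0], ![1, 2, 1], ![0, 1, 3]]

def cell5 : Fin 12 → Fin 3 × Fin 3 :=
  ![(0, 0), (0, 0), (0, 0), (0, 1), (1, 0), (1, 1), (1, 1), (1, 2), (2, 1), (2, 2), (2, 2),
    (2, 2)]

theorem cp5 : ConnPat.{u} 4 M5 :=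
  connPat_of_refuted (D := C45.D) C45.refuted (cell := cell5) (by decide +kernel)
    (List.forall_mem_nil _)
    (connMax_self 4)

def cell3 : Fin 12 → Fin 3 × Fin 3 :=
  ![(0, 0), (0, 0), (0, 0), (0, 1), (1, 0), (1, 2), (1, 2), (1, 2), (2, 1), (2, 1), (2, 1),
    (2, 2)]

theorem cp3 : ConnPat.{u} 4 M3 :=
  connPat_of_refuted (D := C43.D) C43.refuted (cell := cell3) (by decide +kernel)
    (List.forall_mem_cons.2 ⟨cp5, List.forall_mem_nil _⟩)
    (connMax_self 4)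

def cell4 : Fin 12 → Fin 3 × Fin 3 :=
  ![(0, 0), (0, 0), (0, 0), (0, 1), (1, 0), (1, 1), (1, 2), (1, 2), (2, 1), (2, 1), (2, 2),
    (2, 2)]

theorem cp4 : ConnPat.{u} 4 M4 :=
  connPat_of_refuted (D := C44.D) C44.refuted (cell := cell4) (by decide +kernel)
    (List.forall_mem_cons.2 ⟨cp5, List.forall_mem_cons.2 ⟨cp3, List.forall_mem_nil _⟩⟩)
    (connMax_self 4)

theorem complete3 : Complete 4 3 [M3, M4, M5] := by decide +kernel

theorem cm3 : ConnMax.{u} 4 3 :=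
  connMax_step (connMax_self 4) complete3
    (List.forall_mem_cons.2 ⟨cp3, List.forall_mem_cons.2 ⟨cp4, List.forall_mem_cons.2 ⟨cp5, List.forall_mem_nil _⟩⟩⟩)

def cell0 : Fin 12 → Fin 3 × Fin 3 :=
  ![(0, 0), (0, 0), (0, 1), (0, 2), (1, 0), (1, 1), (1, 1), (1, 2), (2, 0), (2, 1), (2, 2),
    (2, 2)]

theorem cp0 : ConnPat.{u} 4 M0 :=
  connPat_of_refuted (D := C40.D) C40.refuted (cell := cell0) (by decide +kernel)
    (List.forall_mem_nil _)
    cm3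

def cell1 : Fin 12 → Fin 3 × Fin 3 :=
  ![(0, 0), (0, 0), (0, 1), (0, 1), (1, 0), (1, 1), (1, 2), (1, 2), (2, 0), (2, 1), (2, 2),
    (2, 2)]

theorem cp1 : ConnPat.{u} 4 M1 :=
  connPat_of_refuted (D := C41.D) C41.refuted (cell := cell1) (by decide +kernel)
    (List.forall_mem_nil _)
    cm3

def cell2 : Fin 12 → Fin 3 × Fin 3 :=
  ![(0, 0), (0, 0), (0, 1), (0, 1), (1, 0), (1, 0), (1, 2), (1, 2), (2, 1), (2, 1), (2, 2),
    (2, 2)]

theorem cp2 : ConnPat.{u} 4 M2 :=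
  connPat_of_refuted (D := C42.D) C42.refuted (cell := cell2) (by decide +kernel)
    (List.forall_mem_nil _)
    cm3

theorem complete2 : Complete 4 2 [M0, M1, M2] := by decide +kernel

theorem cm2 : ConnMax.{u} 4 2 :=
  connMax_step cm3 complete2
    (List.forall_mem_cons.2 ⟨cp0, List.forall_mem_cons.2 ⟨cp1, List.forall_mem_cons.2 ⟨cp2, List.forall_mem_nil _⟩⟩⟩)

theorem conn {β : Type u} {N : Matroid β} {S : Set β} (hf : N.eRank = (4 : ℕ))
    {P Q : Fin 3 → Set β} (hP : IsPartn N S P) (hQ : IsPartn N S Q) :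
    Relation.ReflTransGen (Share N S) P Q :=
  conn_all (t := 1) cm2 (by decide) hf hP hQ

end Pool.Agent.WS.Rank4
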