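import Pool.Agent.WS.C59_I0
import Pool.Agent.WS.C59_I1
import Pool.Agent.WS.C59_H0
import Pool.Agent.WS.C59_H1
import Pool.Agent.WS.C59_H2

/-!
# WS/C59: rank 5, pattern ((4, 1, 0), (1, 3, 1), (0, 1, 4))
-/

set_option autoImplicit false
set_option maxRecDepth 100000

namespace Pool.Agent.WS.C59

theorem refuted : Refuted D :=
  refuted_of_learn (vt := v) (t := t) (m := 18446) (k := 41532) (by decide +kernel)
    (((inp0.trans inp1).trans inp2).trans inp3)
    (((((((((lrn0.trans lrn1).trans lrn2).trans lrn3).trans lrn4).trans lrn5).trans lrn6).trans lrn7).trans lrn8).trans lrn9) (by decide +kernel)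

end Pool.Agent.WS.C59
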