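import Pool.Agent.WS.Enum
import Pool.Agent.WS.C59
import Pool.Agent.WS.C56
import Pool.Agent.WS.C57
import Pool.Agent.WS.C58
import Pool.Agent.WS.C51
import Pool.Agent.WS.C52
import Pool.Agent.WS.C53
import Pool.Agent.WS.C54
import Pool.Agent.WS.C55
import Pool.Agent.WS.C50

/-!
# WS/Rank5: three bases in rank 5
-/

set_option autoImplicit false
set_option maxRecDepth 100000

namespace Pool.Agent.WS.Rank5

open Set Pool.Agent.WD

universe u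

abbrev M0 : Fin 3 → Fin 3 → ℕ := ![![2, 2, 1], ![2, 1, 2], ![1, 2, 2]]

abbrev M1 : Fin 3 → Fin 3 → ℕ := ![![3, 1, 1], ![1, 2, 2], ![1, 2, 2]]

abbrev M2 : Fin 3 → Fin 3 → ℕ := ![![3, 1, 1], ![1, 3, 1], ![1, 1, 3]]

abbrev M3 : Fin 3 → Fin 3 → ℕ := ![![3, 2, 0], ![1, 2, 2], ![1, 1, 3]]

abbrev M4 : Fin 3 → Fin 3 → ℕ := ![![3, 2, 0], ![2, 0, 3], ![0, 3, 2]]

abbrev M5 : Fin 3 → Fin 3 → ℕ := ![![3, 2, 0], ![2, 1, 2], ![0, 2, 3]]

abbrev M6 : Fin 3 → Fin 3 → ℕ := ![![4, 1, 0], ![1, 0, 4], ![0, 4, 1]]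

abbrev M7 : Fin 3 → Fin 3 → ℕ := ![![4, 1, 0], ![1, 1, 3], ![0, 3, 2]]

abbrev M8 : Fin 3 → Fin 3 → ℕ := ![![4, 1, 0], ![1, 2, 2], ![0, 2, 3]]

abbrev M9 : Fin 3 → Fin 3 → ℕ := ![![4, 1, 0], ![1, 3, 1], ![0, 1, 4]]

def cell9 : Fin 15 → Fin 3 × Fin 3 :=
  ![(0, 0), (0, 0), (0, 0), (0, 0), (0, 1), (1, 0), (1, 1), (1, 1), (1, 1), (1, 2), (2, 1),
    (2, 2), (2, 2), (2, 2), (2, 2)]

theorem cp9 : ConnPat.{u} 5 M9 :=
  connPat_of_refuted (D := C59.D) C59.refuted (cell := cell9) (by decide +kernel)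
    (List.forall_mem_nil _)
    (connMax_self 5)

def cell6 : Fin 15 → Fin 3 × Fin 3 :=
  ![(0, 0), (0, 0), (0, 0), (0, 0), (0, 1), (1, 0), (1, 2), (1, 2), (1, 2), (1, 2), (2, 1),
    (2, 1), (2, 1), (2, 1), (2, 2)]

theorem cp6 : ConnPat.{u} 5 M6 :=
  connPat_of_refuted (D := C56.D) C56.refuted (cell := cell6) (by decide +kernel)
    (List.forall_mem_cons.2 ⟨cp9, List.forall_mem_nil _⟩)
    (connMax_self 5)

def cell7 : Fin 15 → Fin 3 × Fin 3 :=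
  ![(0, 0), (0, 0), (0, 0), (0, 0), (0, 1), (1, 0), (1, 1), (1, 2), (1, 2), (1, 2), (2, 1),
    (2, 1), (2, 1), (2, 2), (2, 2)]

theorem cp7 : ConnPat.{u} 5 M7 :=
  connPat_of_refuted (D := C57.D) C57.refuted (cell := cell7) (by decide +kernel)
    (List.forall_mem_cons.2 ⟨cp9, List.forall_mem_cons.2 ⟨cp6, List.forall_mem_nil _⟩⟩)
    (connMax_self 5)

def cell8 : Fin 15 → Fin 3 × Fin 3 :=
  ![(0, 0), (0, 0), (0, 0), (0, 0), (0, 1), (1, 0), (1, 1), (1, 1), (1, 2), (1, 2), (2, 1),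
    (2, 1), (2, 2), (2, 2), (2, 2)]

theorem cp8 : ConnPat.{u} 5 M8 :=
  connPat_of_refuted (D := C58.D) C58.refuted (cell := cell8) (by decide +kernel)
    (List.forall_mem_cons.2 ⟨cp9, List.forall_mem_cons.2 ⟨cp6, List.forall_mem_nil _⟩⟩)
    (connMax_self 5)

theorem complete4 : Complete 5 4 [M6, M7, M8, M9] := by decide +kernel

theorem cm4 : ConnMax.{u} 5 4 :=
  connMax_step (connMax_self 5) complete4
    (List.forall_mem_cons.2 ⟨cp6, List.forall_mem_cons.2 ⟨cp7, List.forall_mem_cons.2 ⟨cp8, List.forall_mem_cons.2 ⟨cp9, List.forall_mem_nil _⟩⟩⟩⟩)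

def cell1 : Fin 15 → Fin 3 × Fin 3 :=
  ![(0, 0), (0, 0), (0, 0), (0, 1), (0, 2), (1, 0), (1, 1), (1, 1), (1, 2), (1, 2), (2, 0),
    (2, 1), (2, 1), (2, 2), (2, 2)]

theorem cp1 : ConnPat.{u} 5 M1 :=
  connPat_of_refuted (D := C51.D) C51.refuted (cell := cell1) (by decide +kernel)
    (List.forall_mem_nil _)
    cm4

def cell2 : Fin 15 → Fin 3 × Fin 3 :=
  ![(0, 0), (0, 0), (0, 0), (0, 1), (0, 2), (1, 0), (1, 1), (1, 1), (1, 1), (1, 2), (2, 0),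
    (2, 1), (2, 2), (2, 2), (2, 2)]

theorem cp2 : ConnPat.{u} 5 M2 :=
  connPat_of_refuted (D := C52.D) C52.refuted (cell := cell2) (by decide +kernel)
    (List.forall_mem_nil _)
    cm4

def cell3 : Fin 15 → Fin 3 × Fin 3 :=
  ![(0, 0), (0, 0), (0, 0), (0, 1), (0, 1), (1, 0), (1, 1), (1, 1), (1, 2), (1, 2), (2, 0),
    (2, 1), (2, 2), (2, 2), (2, 2)]

theorem cp3 : ConnPat.{u} 5 M3 :=
  connPat_of_refuted (D := C53.D) C53.refuted (cell := cell3) (by decide +kernel)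
    (List.forall_mem_nil _)
    cm4

def cell4 : Fin 15 → Fin 3 × Fin 3 :=
  ![(0, 0), (0, 0), (0, 0), (0, 1), (0, 1), (1, 0), (1, 0), (1, 2), (1, 2), (1, 2), (2, 1),
    (2, 1), (2, 1), (2, 2), (2, 2)]

theorem cp4 : ConnPat.{u} 5 M4 :=
  connPat_of_refuted (D := C54.D) C54.refuted (cell := cell4) (by decide +kernel)
    (List.forall_mem_nil _)
    cm4

def cell5 : Fin 15 → Fin 3 × Fin 3 :=
  ![(0, 0), (0, 0), (0, 0), (0, 1), (0, 1), (1, 0), (1, 0), (1, 1), (1, 2), (1, 2), (2, 1),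
    (2, 1), (2, 2), (2, 2), (2, 2)]

theorem cp5 : ConnPat.{u} 5 M5 :=
  connPat_of_refuted (D := C55.D) C55.refuted (cell := cell5) (by decide +kernel)
    (List.forall_mem_nil _)
    cm4

theorem complete3 : Complete 5 3 [M1, M2, M3, M4, M5] := by decide +kernel

theorem cm3 : ConnMax.{u} 5 3 :=
  connMax_step cm4 complete3
    (List.forall_mem_cons.2 ⟨cp1, List.forall_mem_cons.2 ⟨cp2, List.forall_mem_cons.2 ⟨cp3, List.forall_mem_cons.2 ⟨cp4, List.forall_mem_cons.2 ⟨cp5, List.forall_mem_nil _⟩⟩⟩⟩⟩)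

def cell0 : Fin 15 → Fin 3 × Fin 3 :=
  ![(0, 0), (0, 0), (0, 1), (0, 1), (0, 2), (1, 0), (1, 0), (1, 1), (1, 2), (1, 2), (2, 0),
    (2, 1), (2, 1), (2, 2), (2, 2)]

theorem cp0 : ConnPat.{u} 5 M0 :=
  connPat_of_refuted (D := C50.D) C50.refuted (cell := cell0) (by decide +kernel)
    (List.forall_mem_nil _)
    cm3

theorem complete2 : Complete 5 2 [M0] := by decide +kernel

theorem cm2 : ConnMax.{u} 5 2 :=
  connMax_step cm3 complete2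
    (List.forall_mem_cons.2 ⟨cp0, List.forall_mem_nil _⟩)

theorem conn {β : Type u} {N : Matroid β} {S : Set β} (hf : N.eRank = (5 : ℕ))
    {P Q : Fin 3 → Set β} (hP : IsPartn N S P) (hQ : IsPartn N S Q) :
    Relation.ReflTransGen (Share N S) P Q :=
  conn_all (t := 1) cm2 (by decide) hf hP hQ

end Pool.Agent.WS.Rank5
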