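import Pool.Agent.WS.Rank3
import Pool.Agent.WS.Rank4
import Pool.Agent.WS.Rank5
import Pool.Agent.WS.Lift
import Pool.Agent.DT3.Link
import Pool.Agent.WL.Lucas
import Pool.Agent.WD.Main

/-!
# WS/Main: the toric ideal of a matroid of small rank is generated by quadrics
-/

set_option autoImplicit false

namespace Pool.Agent.WS

open Pool.Agent.H94 Pool.Agent.WD

universe u

/-- Three bases, rank at most five. -/
theorem core3 {β : Type u} {N : Matroid β} (hN : N.eRank ≤ ((5 : ℕ) : ℕ∞)) {S : Set β}
    {P Q : Fin 3 → Set β} (hP : IsPartn N S P) (hQ : IsPartn N S Q) :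
    Relation.ReflTransGen (Share N S) P Q := by
  obtain ⟨r, hr⟩ : ∃ r : ℕ, N.eRank = r :=
    ENat.ne_top_iff_exists.1 (lt_of_le_of_lt hN (ENat.natCast_lt_top _)).ne |>.imp
      fun _ h => h.symm
  have hr5 : r ≤ 5 := by
    rw [hr] at hN
    exact_mod_cast hN
  have hRF : N.RankFinite := Matroid.eRank_lt_top_iff.mp
    (by rw [hr]; exact ENat.natCast_lt_top _)
  rcases Nat.lt_or_ge r 3 with h | h
  · have h2 : N.eRank ≤ ((2 : ℕ) : ℕ∞) := by
      rw [hr]
      exact_mod_cast (by omega : r ≤ 2)
    exact WL.core (q := 2) (m := 2) (by norm_num)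
      (WL.S1_lucas_all (d := 2) (m := 2) (by norm_num) (by decide) 2 le_rfl) h2 P Q hP hQ
  · have h3 : r = 3 ∨ r = 4 ∨ r = 5 := by omega
    rcases h3 with rfl | rfl | rfl
    · exact Rank3.conn hr hP hQ
    · exact Rank4.conn hr hP hQ
    · exact Rank5.conn hr hP hQ

theorem shareConn_five {α : Type*} [DecidableEq α] {M : Matroid α}
    (hM : M.eRank ≤ ((5 : ℕ) : ℕ∞)) :
    ShareConn (fun B : Finset α => M.IsBase (B : Set α)) 2 := by
  refine shareConn_of_core (m := 5) (by norm_num) ?_ hM
  intro q hq N hN S P Q hP hQ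
  have hRF : N.RankFinite := Matroid.eRank_lt_top_iff.mp
    (lt_of_le_of_lt hN (ENat.natCast_lt_top _))
  rcases eq_or_lt_of_le hq with h | h
  · subst h
    exact core3 hN hP hQ
  · obtain ⟨p, rfl⟩ : ∃ p, q = p + 1 := ⟨q - 1, by omega⟩
    exact WL.core (by omega) (DT3.s1_all (α × ℕ) (by omega) 5) hN P Q hP hQ

/-- For a finite matroid `M` of positive rank such that the rank of `M` or of its dual is at most
five, and a field `K`, the toric ideal of `M` is generated by its homogeneous elements of degree
at most two. -/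
theorem main {α : Type*} (K : Type*) [Field K] (M : Matroid α) [M.Finite] [M.RankPos]
    (hr : min M.eRank M✶.eRank ≤ 5) :
    toricIdeal K M =
      Ideal.span {f | f ∈ toricIdeal K M ∧ ∃ n ≤ 2, f.IsHomogeneous n} := by
  classical
  rcases min_le_iff.mp hr with h | h
  · exact toric_of_shareConn M (shareConn_five (by exact_mod_cast h))
  · exact toric_of_shareConn M (shareConn_of_dual M (shareConn_five (by exact_mod_cast h)))

end Pool.Agent.WS
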