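import Pool.Agent.WS.Pattern

/-!
# WS/C30: rank 3, pattern ((1, 1, 1), (1, 1, 1), (1, 1, 1))
-/

set_option autoImplicit false
set_option maxRecDepth 100000

namespace Pool.Agent.WS.C30

abbrev l := Tree.leaf
abbrev n := Tree.node

/-- The pattern. -/
def D : Data :=
  ⟨9, 2, [],
    ![7, 56, 448], ![73, 146, 292]⟩

def v : Tree :=
 n (n (n (n (n (n (l 448) (l 65580)) (n (l 22) (l 0))) (n (n (l 18) (l 0)) (n (l 3) (l 0)))) (n (n (n (l 26) (l 65562)) (n (l 50) (l 0))) (n (n (l 37) (l 0)) (n (l 32775) (l 0))))) (n (n (n (n (l 11) (l 65586)) (n (l 65682) (l 0))) (n (n (l 36) (l 0)) (n (l 56) (l 0)))) (n (n (n (l 73) (l 65558)) (n (l 65828) (l 0))) (n (n (l 52) (l 0)) (n (l 65588) (l 0)))))) (n (n (n (n (n (l 19) (l 32818)) (n (l 32914) (l 0))) (n (n (l 292) (l 0)) (n (l 25) (l 0)))) (n (n (n (l 17) (l 32790)) (n (l 33060) (l 0))) (n (n (l 44) (l 0)) (n (l 32820) (l 0))))) (n (n (n (n (l 33216) (l 32794)) (n (l 9) (l 0))) (n (n (l 13) (l 0)) (n (l 21) (l 0)))) (n (n (n (l 146) (l 0)) (n (l 7) (l 0))) (n (n (l 41) (l 0)) (n (l 32812) (l 0))))))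

def t : Tree :=
 n (n (n (n (n (n (l 3670127) (l 103081377873)) (n (l 80709114568640594025) (l 106))) (n (n (l 3166687980126293) (l 78)) (n (l 3799997013721171) (l 2457669)))) (n (n (n (l 2621519) (l 121)) (n (l 80709396052207239265) (l 2916425))) (n (n (l 80708833074336530525) (l 71)) (n (l 4433345777795181) (l 115))))) (n (n (n (n (l 2424947) (l 111671509073)) (n (l 80709255308276432969) (l 108))) (n (n (l 3237058872770645) (l 82)) (n (l 4714812164833381) (l 75)))) (n (n (n (l 2322241574699121) (l 64)) (n (l 122213162823843414095) (l 2195547))) (n (n (l 80708973809677402203) (l 80)) (n (l 92344025191) (l 94)))))) (n (n (n (n (n (l 2424899) (l 100935467111)) (n (l 4644430533394537) (l 100))) (n (n (l 3237056725352533) (l 98)) (n (l 4855549653319781) (l 68)))) (n (n (n (l 2752595) (l 116)) (n (l 4925914100039777) (l 2850921))) (n (n (l 4362936229331037) (l 102)) (n (l 4292608289308781) (l 96))))) (n (n (n (n (l 3342413) (l 110)) (n (l 4785170169233481) (l 3113057))) (n (n (l 138353078768871374913) (l 112)) (n (l 4574074676346981) (l 67)))) (n (n (n (l 2533345659617361) (l 76)) (n (l 3518519889723471)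 (l 2261085))) (n (n (l 4503671570202715) (l 84)) (n (l 126703697995) (l 0))))))

def hs : List ℕ :=
 [ 14417955, 3744362574822582848369483264569697632294, 12894863399, 17190092840, 21485584426, 7487229765693462278660043611578340474922, 1822436330993852194115121578026, 1901664493508116531708665528362, 156954170523925840877229025813321537252153955821392077520937, 163230506008618907015331677247781249635559005455227570880553, 169507033056716038425041846965655819105428370546954489561129, 175783368541409104563144498400115531488833424684393906307120, 182059704026102170701247149834575243872238474318229399666736, 25862143879214693810118124591484763132635557853952053476703893901620749611356345434898469, 17093828162987172216757413606151141941449636839221957683805662904202894102843778401970698060562477, 240527081529, 4304797754, 8599765050, 590340846552556634171, 608799975520952778812, 940836865321109291069]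

def ds : List ℕ :=
 [ 400, 2184, 2200, 1200, 2360, 4672, 74113, 71713, 137257, 139305, 1057169, 1838594, 117440930, 117440934, 117440866, 117440870, 117440914, 117440918, 117440722, 117440726, 117440690, 117440694, 76547218, 76547222, 19138854, 5768343, 6816919, 13108375, 11536679, 13633831, 580, 1092, 1156, 588, 1164, 115, 524411, 899, 7171, 1171, 2339, 526627, 4675]

theorem chk1 : checkInp D v t ds 0 = true := by decide +kernel

theorem chk2 : checkAll t hs 43 = true := by decide +kernel

theorem refuted : Refuted D :=
  refuted_of_learn (vt := v) (t := t) (m := 43) (k := 63) (by decide +kernel)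
    (inp_of_check chk1 (l := 43) (by decide +kernel) (by decide))
    (learn_of_check chk2 (l := 21) (by decide +kernel) (by decide)) (by decide +kernel)

end Pool.Agent.WS.C30
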