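import Pool.Agent.WS.Pattern

/-!
# WS/C31: rank 3, pattern ((2, 1, 0), (1, 0, 2), (0, 2, 1))
-/

set_option autoImplicit false
set_option maxRecDepth 100000

namespace Pool.Agent.WS.C31

abbrev l := Tree.leaf
abbrev n := Tree.node

/-- The pattern. -/
def D : Data :=
  ⟨9, 3, [![![2, 1, 0], ![1, 1, 1], ![0, 1, 2]]],
    ![7, 56, 448], ![11, 196, 304]⟩

def v : Tree :=
 n (n (n (n (n (n (l 352) (l 96)) (n (l 20) (l 0))) (n (n (l 148) (l 0)) (n (l 448) (l 0)))) (n (n (n (l 7) (l 0)) (n (l 152) (l 0))) (n (n (l 292) (l 0)) (n (l 196) (l 0))))) (n (n (n (n (l 11) (l 0)) (n (l 24) (l 0))) (n (n (l 104) (l 0)) (n (l 112) (l 0)))) (n (n (n (l 32779) (l 0)) (n (l 40) (l 0))) (n (n (l 320) (l 0)) (n (l 304) (l 0)))))) (n (n (n (n (n (l 416) (l 0)) (n (l 400) (l 0))) (n (n (l 384) (l 0)) (n (l 392) (l 0)))) (n (n (n (l 32775) (l 0)) (n (l 56) (l 0))) (n (n (l 208) (l 0)) (n (l 80) (l 0))))) (n (n (n (n (l 84) (l 0)) (n (l 28) (l 0))) (n (n (l 88) (l 0)) (n (l 296) (l 0)))) (n (n (n (l 288) (l 0)) (n (l 68) (l 0))) (n (n (l 336) (l 0)) (n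 (l 324) (l 0))))))

def t : Tree :=
 n (n (n (n (n (n (l 2603715478126665) (l 2603749837799497)) (n (l 2251894307127375) (l 64))) (n (n (l 2709266446712901) (l 100)) (n (l 2556029) (l 0)))) (n (n (n (l 2603769166135369) (l 69795872837)) (n (l 4433306048233583) (l 102))) (n (n (l 120) (l 92)) (n (l 3539051) (l 0))))) (n (n (n (n (l 70869057615) (l 3014769)) (n (l 2709268593868869) (l 105))) (n (n (l 3659267042377829) (l 3244117)) (n (l 3276907) (l 0)))) (n (n (n (l 85901639777) (l 110)) (n (l 3604601) (l 0))) (n (n (l 106) (l 71)) (n (l 124556804225) (l 0)))))) (n (n (n (n (n (l 76) (l 112)) (n (l 4151846102925421) (l 81))) (n (n (l 2322290968330323) (l 108)) (n (l 2687089) (l 0)))) (n (n (n (l 68722557021) (l 71943028805)) (n (l 4194369) (l 0))) (n (n (l 96639058043) (l 66)) (n (l 75) (l 0))))) (n (n (n (n (l 2709294364262469) (l 97713422405)) (n (l 3997791) (l 97))) (n (n (l 3145831) (l 82)) (n (l 2603713331232841) (l 0)))) (n (n (n (l 70870171731) (l 78)) (n (l 68) (l 0))) (n (n (l 124) (l 87)) (n (l 72) (l 0))))))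

def hs : List ℕ :=
 [ 12894863361, 34369699841, 77319372801, 94505009164, 103095468047, 111683043342, 120272977934, 590338031729775738911, 107388862497, 146043568161, 354756337991553050338077101419830949172147469678048565426811298959258636052341657259559398305454672964007452001173543, 682567811422878957613, 181339407938305043581894701, 74765282558499748519771866555316725039596318071165246001916341127195124911941970503332531881377836, 664121067349169143856, 2139341727293075420069268291632, 110720434086529335345, 792491979102309588043341889586, 202968791175343636532]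

def ds : List ℕ :=
 [ 8613003325, 524467, 18452, 76546141, 8692695101, 20524, 1316, 24620, 38797405, 8399289, 1572, 2584, 3139, 5156, 899, 4867, 8401193, 1065753, 22020189, 10304, 2114065, 12352, 8760, 179, 36896, 49200, 3112, 8629780541, 5152, 524411, 6156, 115, 8617197629, 7171, 41016]

theorem chk1 : checkInp D v t ds 0 = true := by decide +kernel

theorem chk2 : checkAll t hs 35 = true := by decide +kernel

theorem refuted : Refuted D :=
  refuted_of_learn (vt := v) (t := t) (m := 35) (k := 53) (by decide +kernel)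
    (inp_of_check chk1 (l := 35) (by decide +kernel) (by decide))
    (learn_of_check chk2 (l := 19) (by decide +kernel) (by decide)) (by decide +kernel)

end Pool.Agent.WS.C31
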