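import Pool.Agent.WS.C59_T0
import Pool.Agent.WS.C59_T1
import Pool.Agent.WS.C59_T2
import Pool.Agent.WS.C59_T3

/-!
# WS/C59_T: rank 5, pattern ((4, 1, 0), (1, 3, 1), (0, 1, 4))
-/

set_option autoImplicit false
set_option maxRecDepth 100000

namespace Pool.Agent.WS.C59

def t : Tree :=
 n (n (n (n (n (n (n tx0 tx1) (n tx2 tx3)) (n (n tx4 tx5) (n tx6 tx7))) (n (n (n tx8 tx9) (n tx10 tx11)) (n (n tx12 tx13) (n tx14 tx15)))) (n (n (n (n tx16 tx17) (n tx18 tx19)) (n (n tx20 tx21) (n tx22 tx23))) (n (n (n tx24 tx25) (n tx26 tx27)) (n (n tx28 tx29) (n tx30 tx31))))) (n (n (n (n (n tx32 tx33) (n tx34 tx35)) (n (n tx36 tx37) (n tx38 tx39))) (n (n (n tx40 tx41) (n tx42 tx43)) (n (n tx44 tx45) (n tx46 tx47)))) (n (n (n (n tx48 tx49) (n tx50 tx51)) (n (n tx52 tx53) (n tx54 tx55))) (n (n (n tx56 tx57) (n tx58 tx59)) (n (n tx60 tx61) (n tx62 tx63)))))) (n (n (n (n (n (n tx64 tx65) (n tx66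 tx67)) (n (n tx68 tx69) (n tx70 tx71))) (n (n (n tx72 tx73) (n tx74 tx75)) (n (n tx76 tx77) (n tx78 tx79)))) (n (n (n (n tx80 tx81) (n tx82 tx83)) (n (n tx84 tx85) (n tx86 tx87))) (n (n (n tx88 tx89) (n tx90 tx91)) (n (n tx92 tx93) (n tx94 tx95))))) (n (n (n (n (n tx96 tx97) (n tx98 tx99)) (n (n tx100 tx101) (n tx102 tx103))) (n (n (n tx104 tx105) (n tx106 tx107)) (n (n tx108 tx109) (n tx110 tx111)))) (n (n (n (n tx112 tx113) (n tx114 tx115)) (n (n tx116 tx117) (n tx118 tx119))) (n (n (n tx120 tx121) (n tx122 tx123)) (n (n tx124 tx125) (n tx126 tx127))))))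

end Pool.Agent.WS.C59
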