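import Pool.Agent.WS.Pattern

/-!
# WS/C59_V: rank 5, pattern ((4, 1, 0), (1, 3, 1), (0, 1, 4))
-/

set_option autoImplicit false
set_option maxRecDepth 100000

namespace Pool.Agent.WS.C59

abbrev l := Tree.leaf
abbrev n := Tree.node

/-- The pattern. -/
def D : Data :=
  ⟨15, 5, [],
    ![31, 992, 31744], ![47, 1488, 31232]⟩

def vx0 : Tree :=
 n (n (n (n (n (n (n (n (n (l 720) (l 9504)) (n (l 32862) (l 0))) (n (n (l 569) (l 24992)) (n (l 33159) (l 0)))) (n (n (n (l 1220) (l 8288)) (n (l 2178) (l 0))) (n (n (l 1300) (l 0)) (n (l 18754) (l 0))))) (n (n (n (n (l 519) (l 19586)) (n (l 1044) (l 0))) (n (n (l 816) (l 0)) (n (l 34392) (l 0)))) (n (n (n (l 712) (l 10848)) (n (l 33484) (l 0))) (n (n (l 6225) (l 0)) (n (l 18464) (l 0)))))) (n (n (n (n (n (l 213) (l 18433)) (n (l 6248) (l 0))) (n (n (l 548) (l 13072)) (n (l 16480) (l 0)))) (n (n (n (l 696) (l 34315)) (n (l 33869) (l 0)))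 (n (n (l 137) (l 0)) (n (l 29696) (l 0))))) (n (n (n (n (l 1425) (l 33870)) (n (l 26660) (l 0))) (n (n (l 1045) (l 0)) (n (l 1794) (l 0)))) (n (n (n (l 632) (l 11024)) (n (l 26672) (l 0))) (n (n (l 14468) (l 0)) (n (l 34578) (l 0))))))) (n (n (n (n (n (n (l 673) (l 21568)) (n (l 22529) (l 0))) (n (n (l 1420) (l 25736)) (n (l 10432) (l 0)))) (n (n (n (l 1380) (l 9226)) (n (l 33845) (l 0))) (n (n (l 28690) (l 0)) (n (l 20832) (l 0))))) (n (n (n (n (l 142) (l 13312)) (n (l 14402) (l 0))) (n (n (l 688) (l 0)) (n (l 33606) (l 0)))) (n (n (n (l 1294) (l 17414)) (n (l 33338) (l 0))) (n (n (l 6149) (l 0)) (n (l 33132) (l 0)))))) (n (n (n (n (n (l 1409) (l 34148)) (n (l 8206) (l 0))) (n (n (l 1648) (l 0)) (n (l 34244) (l 0)))) (n (n (n (l 312) (l 10816)) (n (l 20998) (l 0))) (n (n (l 32829) (l 0)) (n (l 2384) (l 0))))) (n (n (n (n (l 309) (l 33962)) (n (l 1608) (l 0))) (n (n (l 1066)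 (l 0)) (n (l 33177) (l 0)))) (n (n (n (l 1113) (l 2120)) (n (l 20483) (l 0))) (n (n (l 522) (l 0)) (n (l 24776) (l 0)))))))) (n (n (n (n (n (n (n (l 30752) (l 17665)) (n (l 10280) (l 0))) (n (n (l 611) (l 11332)) (n (l 21764) (l 0)))) (n (n (n (l 835) (l 2436)) (n (l 2092) (l 0))) (n (n (l 27008) (l 0)) (n (l 34122) (l 0))))) (n (n (n (n (l 226) (l 11521)) (n (l 10632) (l 0))) (n (n (l 193) (l 0)) (n (l 14353) (l 0)))) (n (n (n (l 944) (l 3268)) (n (l 26640) (l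
 0))) (n (n (l 24602) (l 0)) (n (l 10562) (l 0)))))) (n (n (n (n (n (l 355) (l 33363)) (n (l 22660) (l 0))) (n (n (l 609) (l 28800)) (n (l 33492) (l 0)))) (n (n (n (l 1318) (l 8217)) (n (l 26644) (l 0))) (n (n (l 9281) (l 0)) (n (l 33236) (l 0))))) (n (n (n (n (l 230) (l 16406)) (n (l 22564) (l 0))) (n (n (l 23) (l 0)) (n (l 2560) (l 0)))) (n (n (n (l 385) (l 3209)) (n (l 3472) (l 0))) (n (n (l 6272) (l 0)) (n (l 3) (l 0))))))) (n (n (n (n (n (n (l 60) (l 2896)) (n (l 6409) (l 0))) (n (n (l 1193) (l 6728)) (n (l 33388) (l 0)))) (n (n (n (l 738) (l 17489)) (n (l 10536) (l 0))) (n (n (l 864) (l 0)) (n (l 34185) (l 0))))) (n (n (n (n (l 852) (l 17730)) (n (l 136) (l 0))) (n (n (l 27) (l 0)) (n (l 2132) (l 0)))) (n (n (n (l 1221) (l 21633)) (n (l 22672) (l 0))) (n (n (l 3408) (l 0)) (n (l 17672) (l 0)))))) (n (n (n (n (n (l 913) (l 18977)) (n (l 26629) (l 0))) (n (n (l 1321) (l 0))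 (n (l 8193) (l 0)))) (n (n (n (l 905) (l 16409)) (n (l 7426) (l 0))) (n (n (l 776) (l 0)) (n (l 33113) (l 0))))) (n (n (n (n (l 1218) (l 10912)) (n (l 22784) (l 0))) (n (n (l 1064) (l 0)) (n (l 33234) (l 0)))) (n (n (n (l 1712) (l 27680)) (n (l 24968) (l 0))) (n (n (l 13) (l 0)) (n (l 33878) (l 0))))))))) (n (n (n (n (n (n (n (n (l 30976) (l 8212)) (n (l 1633) (l 0))) (n (n (l 1122) (l 19016)) (n (l 33123) (l 0)))) (n (n (n (l 898) (l 21516)) (n (l 32847) (l 0))) (n (n (l 562) (l 0)) (n (l 3392) (l 0))))) (n (n (n (n (l 181) (l 4613)) (n (l 20560) (l 0))) (n (n (l 808) (l 0)) (n (l 2241) (l 0)))) (n (n (n (l 1428) (l 12672)) (n (l 12352) (l 0))) (n (n (l 6276) (l 0)) (n (l 33460) (l 0)))))) (n (n (n (n (n (l 527) (l 33)) (n (l 6432) (l 0))) (n (n (l 1204) (l 19080)) (n (l 33955) (l 0)))) (n (n (n (l 713) (l 25094)) (n (l 34625) (l 0))) (n (n (l 24656) (l 0)) (n (l 16640) (l 0)))))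 (n (n (n (n (l 403) (l 10752)) (n (l 33326) (l 0))) (n (n (l 976) (l 0)) (n (l 17416) (l 0)))) (n (n (n (l 163) (l
 8385)) (n (l 33993) (l 0))) (n (n (l 1032) (l 0)) (n (l 33549) (l 0))))))) (n (n (n (n (n (n (l 30724) (l 9544)) (n (l 26720) (l 0))) (n (n (l 1075) (l 10884)) (n (l 6144) (l 0)))) (n (n (n (l 364) (l 2864)) (n (l 3329) (l 0))) (n (n (l 577) (l 0)) (n (l 14356) (l 0))))) (n (n (n (n (l 286) (l 10244)) (n (l 3336) (l 0))) (n (n (l 29) (l 0)) (n (l 4176) (l 0)))) (n (n (n (l 628) (l 10788)) (n (l 20672) (l 0))) (n (n (l 14376) (l 0)) (n (l 29440) (l 0)))))) (n (n (n (n (n (l 263) (l 1796)) (n (l 208) (l 0))) (n (n (l 274) (l 0)) (n (l 12803) (l 0)))) (n (n (n (l 147) (l 48)) (n (l 18564) (l 0))) (n (n (l 2432) (l 0)) (n (l 33372) (l 0))))) (n (n (n (n (l 361) (l 6165)) (n (l 14369) (l 0))) (n (n (l 56) (l 0)) (n (l 33196) (l 0)))) (n (n (n (l 714) (l 8209)) (n (l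 33449) (l 0))) (n (n (l 9088) (l 0)) (n (l 33252) (l 0)))))))) (n (n (n (n (n (n (n (l 55) (l 34577)) (n (l 22533) (l 0))) (n (n (l 779) (l 21761)) (n (l 6436) (l 0)))) (n (n (n (l 1185) (l 21504)) (n (l 22546) (l 0))) (n (n (l 261) (l 0)) (n (l 33221) (l 0))))) (n (n (n (n (l 1377) (l 17608)) (n (l 28740) (l 0))) (n (n (l 1304) (l 0)) (n (l 33110) (l 0)))) (n (n (n (l 1336) (l 4448)) (n (l 160) (l 0))) (n (n (l 22848) (l 0)) (n (l 32799) (l 0)))))) (n (n (n (n (n (l 173) (l 4225)) (n (l 16704) (l 0))) (n (n (l 82) (l 19714)) (n (l 1698) (l 0)))) (n (n (n (l 664) (l 21696)) (n (l 20506) (l 0))) (n (n (l 14345) (l 0)) (n (l 33250) (l 0))))) (n (n (n (n (l 391) (l 6724)) (n (l 8220) (l 0))) (n (n (l 46) (l 0)) (n (l 33605) (l 0)))) (n (n (n (l 170) (l 16976)) (n (l 12480) (l 0))) (n (n (l 24580) (l 0)) (n (l 17824) (l 0))))))) (n (n (n (n (n (n (l 242) (l 3154)) (n (l 1640) (l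 0))) (n (n (l 1317) (l 10762)) (n (l 33987) (l 0)))) (n (n (n (l 539) (l 4614)) (n (l 80) (l 0))) (n (n (l 368) (l 0)) (n (l 34450) (l 0))))) (n (n (n (n (l 139) (l 25857)) (n (l 6153) (l 0))) (n (n (l 67) (l 0)) (n (l 34076) (l 0)))) (n (n
 (n (l 291) (l 8386)) (n (l 32967) (l 0))) (n (n (l 26633) (l 0)) (n (l 23680) (l 0)))))) (n (n (n (n (n (l 93) (l 17434)) (n (l 6176) (l 0))) (n (n (l 1062) (l 0)) (n (l 3206) (l 0)))) (n (n (n (l 936) (l 34329)) (n (l 11648) (l 0))) (n (n (l 1617) (l 0)) (n (l 17600) (l 0))))) (n (n (n (n (l 409) (l 11522)) (n (l 24588) (l 0))) (n (n (l 84) (l 0)) (n (l 16969) (l 0)))) (n (n (n (l 788) (l 8514)) (n (l 18624) (l 0))) (n (n (l 24960) (l 0)) (n (l 13318) (l 0)))))))))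

def vx1 : Tree :=
 n (n (n (n (n (n (n (n (n (l 472) (l 33912)) (n (l 10628) (l 0))) (n (n (l 1050) (l 29697)) (n (l 10434) (l 0)))) (n (n (n (l 1349) (l 9664)) (n (l 16390) (l 0))) (n (n (l 24582) (l 0)) (n (l 1584) (l 0))))) (n (n (n (n (l 178) (l 8720)) (n (l 1810) (l 0))) (n (n (l 806) (l 0)) (n (l 6592) (l 0)))) (n (n (n (l 1356) (l 6920)) (n (l 22594) (l 0))) (n (n (l 1028) (l 0)) (n (l 17312) (l 0)))))) (n (n (n (n (n (l 1442) (l 3086)) (n (l 26760) (l 0))) (n (n (l 164) (l 7456)) (n (l 26882) (l 0)))) (n (n (n (l 1219) (l 10498)) (n (l 22562) (l 0))) (n (n (l 276) (l 0)) (n (l 33174) (l 0))))) (n (n (n (n (l 225) (l 9242)) (n (l 18817) (l 0))) (n (n (l 22592) (l 0)) (n (l 6147) (l 0)))) (n (n (n (l 1112) (l 28704)) (n (l 12512) (l 0))) (n (n (l 1809) (l 0)) (n (l 21510) (l 0))))))) (n (n (n (n (n (n (l 1184) (l 15376)) (n (l 22) (l 0))) (n (n (l 1140) (l 6792)) (n (l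 17418) (l 0)))) (n (n (n (l 1031) (l 14849)) (n (l 33863) (l 0))) (n (n (l 1090) (l 0)) (n (l 32997) (l 0))))) (n (n (n (n (l 117) (l 33369)) (n (l 14360) (l 0))) (n (n (l 289) (l 0)) (n (l 33334) (l 0)))) (n (n (n (l 1473) (l 19520)) (n (l 33340) (l 0))) (n (n (l 258) (l 0)) (n (l 25888) (l 0)))))) (n (n (n (n (n (l 525) (l 19521)) (n (l 28864) (l 0))) (n (n (l 1158) (l 0)) (n (l 12616) (l 0)))) (n (n (n (l 428) (l 16)) (n (l 33051) (l 0))) (n (n (l 1025) (l 0)) (n (l 33957) (l 0))))) (n (n (n (n (l 216) (l 20484)) (n (l 32871) (l 0))) (n (n (l 1096) (l 0)) (n (l 1600) (l 0)))) (n (n (n (l 277) (l 3280)) (n (l 25344) (l 0))) (n (n (l 2144) (l 0)) (n (l 3200) (l 0)))))))) (n (n (n (n (n (n (n (l 848) (l 29248)) (n (l 18446) (l 0))) (n (n (l 962) (l 17760)) (n (l 33852) (l 0)))) (n (n (n (l 1412) (l 10312)) (n (l 33166) (l 0))) (n (n (l 582) (l 0)) (n (l 33264) (l 0))))) (n (n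 (n (n (l 113) (l 20704)) (n (l 20485) (l 0))) (n (n (l 1110) (l 0)) (n (l 33684) (l 0)))) (n (n (n (l 165) (l 1669)) (n (l 10336) (l 0))) (n
 (n (l 26880) (l 0)) (n (l 33905) (l 0)))))) (n (n (n (n (n (l 705) (l 384)) (n (l 28696) (l 0))) (n (n (l 643) (l 19024)) (n (l 40) (l 0)))) (n (n (n (l 236) (l 8352)) (n (l 14338) (l 0))) (n (n (l 26784) (l 0)) (n (l 18476) (l 0))))) (n (n (n (n (l 279) (l 9296)) (n (l 1636) (l 0))) (n (n (l 39) (l 0)) (n (l 10384) (l 0)))) (n (n (n (l 332) (l 11296)) (n (l 3137) (l 0))) (n (n (l 1030) (l 0)) (n (l 25624) (l 0))))))) (n (n (n (n (n (n (l 177) (l 2568)) (n (l 22568) (l 0))) (n (n (l 545) (l 25616)) (n (l 32953) (l 0)))) (n (n (n (l 551) (l 34435)) (n (l 33047) (l 0))) (n (n (l 240) (l 0)) (n (l 34136) (l 0))))) (n (n (n (n (l 661) (l 8400)) (n (l 2116) (l 0))) (n (n (l 1057) (l 0)) (n (l 4224) (l 0)))) (n (n (n (l 92) (l 18456)) (n (l 32942)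 (l 0))) (n (n (l 14432) (l 0)) (n (l 18560) (l 0)))))) (n (n (n (n (n (l 1054) (l 33443)) (n (l 2594) (l 0))) (n (n (l 534) (l 0)) (n (l 33222) (l 0)))) (n (n (n (l 865) (l 12805)) (n (l 33310) (l 0))) (n (n (l 14368) (l 0)) (n (l 33450) (l 0))))) (n (n (n (n (l 709) (l 1674)) (n (l 18437) (l 0))) (n (n (l 536) (l 0)) (n (l 27776) (l 0)))) (n (n (n (l 3456) (l 24624)) (n (l 33674) (l 0))) (n (n (l 10505) (l 0)) (n (l 3140) (l 0))))))))) (n (n (n (n (n (n (n (n (l 143) (l 33906)) (n (l 1632) (l 0))) (n (n (l 554) (l 19076)) (n (l 34059) (l 0)))) (n (n (n (l 360) (l 2051)) (n (l 3264) (l 0))) (n (n (l 15) (l 0)) (n (l 34118) (l 0))))) (n (n (n (n (l 114) (l 28720)) (n (l 14341) (l 0))) (n (n (l 617) (l 0)) (n (l 34069) (l 0)))) (n (n (n (l 1744) (l 18956)) (n (l 20498) (l 0))) (n (n (l 12304) (l 0)) (n (l 5056) (l 0)))))) (n (n (n (n (n (l 657) (l 1562)) (n (l 10309) (l 0))) (n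 (n (l 1124) (l 11270)) (n (l 33636) (l 0)))) (n (n (n (l 1047) (l 4096)) (n (l 10272) (l 0))) (n (n (l 63489) (l 0)) (n (l 10369) (l 0))))) (n (n (n (n (l 307) (l 19585)) (n (l 26627) (l 0))) (n (n (l 43) (l 0)) (n (l 10756) (l 0)))) (n (n (n (l 1417) (l
 21056)) (n (l 34008) (l 0))) (n (n (l 26636) (l 0)) (n (l 17) (l 0))))))) (n (n (n (n (n (n (l 1039) (l 33256)) (n (l 14340) (l 0))) (n (n (l 196) (l 18984)) (n (l 33078) (l 0)))) (n (n (n (l 1314) (l 20752)) (n (l 28932) (l 0))) (n (n (l 1424) (l 0)) (n (l 1667) (l 0))))) (n (n (n (n (l 179) (l 19457)) (n (l 1104) (l 0))) (n (n (l 682) (l 0)) (n (l 33101) (l 0)))) (n (n (n (l 278) (l 7297)) (n (l 17732) (l 0))) (n (n (l 1680) (l 0)) (n (l 18628) (l 0)))))) (n (n (n (n (n (l 244) (l 4560)) (n (l 34512) (l 0))) (n (n (l 2600) (l 0)) (n (l 16513) (l 0)))) (n (n (n (l 660) (l 8194)) (n (l 10448) (l 0))) (n (n (l 496) (l 0)) (n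 (l 9552) (l 0))))) (n (n (n (n (l 595) (l 8192)) (n (l 4118) (l 0))) (n (n (l 810) (l 0)) (n (l 34070) (l 0)))) (n (n (n (l 153) (l 9244)) (n (l 33436) (l 0))) (n (n (l 24578) (l 0)) (n (l 34594) (l 0)))))))) (n (n (n (n (n (n (n (l 63744) (l 32979)) (n (l 31) (l 0))) (n (n (l 587) (l 19528)) (n (l 18435) (l 0)))) (n (n (n (l 593) (l 18600)) (n (l 2049) (l 0))) (n (n (l 773) (l 0)) (n (l 5216) (l 0))))) (n (n (n (n (l 210) (l 3217)) (n (l 14593) (l 0))) (n (n (l 1200) (l 0)) (n (l 33130) (l 0)))) (n (n (n (l 282) (l 17664)) (n (l 34500) (l 0))) (n (n (l 24600) (l 0)) (n (l 32985) (l 0)))))) (n (n (n (n (n (l 199) (l 1588)) (n (l 1825) (l 0))) (n (n (l 1297) (l 19216)) (n (l 1665) (l 0)))) (n (n (n (l 340) (l 6916)) (n (l 20505) (l 0))) (n (n (l 26888) (l 0)) (n (l 20552) (l 0))))) (n (n (n (n (l 625) (l 21514)) (n (l 8208) (l 0))) (n (n (l 618) (l 0)) (n (l 19840) (l 0)))) (n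 (n (n (l 583) (l 7328)) (n (l 33807) (l 0))) (n (n (l 28680) (l 0)) (n (l 18832) (l 0))))))) (n (n (n (n (n (n (l 457) (l 12314)) (n (l 10324) (l 0))) (n (n (l 616) (l 18980)) (n (l 1586) (l 0)))) (n (n (n (l 212) (l 21312)) (n (l 18848) (l 0))) (n (n (l 580) (l 0)) (n (l 20494) (l 0))))) (n (n (n (n (l 395) (l 7552)) (n (l 24904) (l 0))) (n (n (l 675) (l 0)) (n (l 27664) (l
 0)))) (n (n (n (l 752) (l 12306)) (n (l 33506) (l 0))) (n (n (l 6352) (l 0)) (n (l 29200) (l 0)))))) (n (n (n (n (n (l 295) (l 9217)) (n (l 4304) (l 0))) (n (n (l 1858) (l 0)) (n (l 18454) (l 0)))) (n (n (n (l 1109) (l 18953)) (n (l 34061) (l 0))) (n (n (l 1036) (l 0)) (n (l 12293) (l 0))))) (n (n (n (n (l 1350) (l 260)) (n (l 25620) (l 0))) (n (n (l 1153) (l 0)) (n (l 32982) (l 0)))) (n (n (n (l 1264) (l 21264)) (n (l 34181) (l 0))) (n (n (l 20561) (l 0)) (n (l 33588) (l 0)))))))))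

def vx2 : Tree :=
 n (n (n (n (n (n (n (n (n (l 62) (l 34182)) (n (l 2208) (l 0))) (n (n (l 596) (l 16393)) (n (l 34242) (l 0)))) (n (n (n (l 356) (l 2090)) (n (l 28681) (l 0))) (n (n (l 1043) (l 0)) (n (l 12448) (l 0))))) (n (n (n (n (l 440) (l 16544)) (n (l 10497) (l 0))) (n (n (l 1178) (l 0)) (n (l 34696) (l 0)))) (n (n (n (l 793) (l 17481)) (n (l 33698) (l 0))) (n (n (l 22656) (l 0)) (n (l 16387) (l 0)))))) (n (n (n (n (n (l 422) (l 10284)) (n (l 7298) (l 0))) (n (n (l 1107) (l 18498)) (n (l 14594) (l 0)))) (n (n (n (l 1252) (l 2368)) (n (l 34241) (l 0))) (n (n (l 736) (l 0)) (n (l 26628) (l 0))))) (n (n (n (n (l 305) (l 6416)) (n (l 24590) (l 0))) (n (n (l 14720) (l 0)) (n (l 8256) (l 0)))) (n (n (n (l 1194) (l 21522)) (n (l 33843) (l 0))) (n (n (l 72) (l 0)) (n (l 17729) (l 0))))))) (n (n (n (n (n (n (l 1120) (l 5440)) (n (l 18442) (l 0))) (n (n (l 297) (l 7233)) (n (l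 20995) (l 0)))) (n (n (n (l 166) (l 8416)) (n (l 28672) (l 0))) (n (n (l 8202) (l 0)) (n (l 1573) (l 0))))) (n (n (n (n (l 31744) (l 25680)) (n (l 6273) (l 0))) (n (n (l 1301) (l 0)) (n (l 34067) (l 0)))) (n (n (n (l 1921) (l 20490)) (n (l 2448) (l 0))) (n (n (l 18592) (l 0)) (n (l 18080) (l 0)))))) (n (n (n (n (n (l 354) (l 2306)) (n (l 18470) (l 0))) (n (n (l 138) (l 0)) (n (l 24645) (l 0)))) (n (n (n (l 1121) (l 10344)) (n (l 17420) (l 0))) (n (n (l 1172) (l 0)) (n (l 33355) (l 0))))) (n (n (n (n (l 233) (l 13408)) (n (l 33067) (l 0))) (n (n (l 1928) (l 0)) (n (l 33138) (l 0)))) (n (n (n (l 517) (l 17601)) (n (l 8222) (l 0))) (n (n (l 1344) (l 0)) (n (l 34465) (l 0)))))))) (n (n (n (n (n (n (n (l 1248) (l 16488)) (n (l 10528) (l 0))) (n (n (l 552) (l 11360)) (n (l 2664) (l 0)))) (n (n (n (l 402) (l 12354)) (n (l 28738) (l 0))) (n (n (l 560) (l 0)) (n (l 8709) (l 0))))) (n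 (n (n (n (l 77) (l 10)) (n (l 33069) (l 0))) (n (n (l 1106) (l 0)) (n (l 33891) (l 0)))) (n (n (n (l 626) (l 11396)) (n (l 6816) (l 0))) (n (n
 (l 14624) (l 0)) (n (l 28944) (l 0)))))) (n (n (n (n (n (l 1345) (l 12316)) (n (l 8272) (l 0))) (n (n (l 1857) (l 2433)) (n (l 33945) (l 0)))) (n (n (n (l 1320) (l 3296)) (n (l 22528) (l 0))) (n (n (l 26688) (l 0)) (n (l 6664) (l 0))))) (n (n (n (n (l 1347) (l 17408)) (n (l 2528) (l 0))) (n (n (l 161) (l 0)) (n (l 33226) (l 0)))) (n (n (n (l 104) (l 13600)) (n (l 6480) (l 0))) (n (n (l 63496) (l 0)) (n (l 9289) (l 0))))))) (n (n (n (n (n (n (l 211) (l 25668)) (n (l 38) (l 0))) (n (n (l 321) (l 21584)) (n (l 2724) (l 0)))) (n (n (n (l 1226) (l 20481)) (n (l 34720) (l 0))) (n (n (l 26664) (l 0)) (n (l 20609) (l 0))))) (n (n (n (n (l 555) (l 33893)) (n (l 32935) (l 0))) (n (n (l 585) (l 0)) (n (l 33099) (l 0)))) (n (n (n (l 1315) (l 20872))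 (n (l 10592) (l 0))) (n (n (l 18438) (l 0)) (n (l 24864) (l 0)))))) (n (n (n (n (n (l 372) (l 17632)) (n (l 26624) (l 0))) (n (n (l 678) (l 0)) (n (l 33178) (l 0)))) (n (n (n (l 1353) (l 10241)) (n (l 144) (l 0))) (n (n (l 20486) (l 0)) (n (l 33948) (l 0))))) (n (n (n (n (l 707) (l 9537)) (n (l 22552) (l 0))) (n (n (l 10321) (l 0)) (n (l 33573) (l 0)))) (n (n (n (l 1202) (l 20616)) (n (l 32889) (l 0))) (n (n (l 2496) (l 0)) (n (l 34632) (l 0))))))))) (n (n (n (n (n (n (n (n (l 465) (l 18536)) (n (l 63490) (l 0))) (n (n (l 1324) (l 20738)) (n (l 2272) (l 0)))) (n (n (n (l 316) (l 15361)) (n (l 9304) (l 0))) (n (n (l 960) (l 0)) (n (l 4288) (l 0))))) (n (n (n (n (l 158) (l 9538)) (n (l 6532) (l 0))) (n (n (l 774) (l 0)) (n (l 32890) (l 0)))) (n (n (n (l 452) (l 6928)) (n (l 33822) (l 0))) (n (n (l 1682) (l 0)) (n (l 6657) (l 0)))))) (n (n (n (n (n (l 454) (l 16776)) (n (l 28678)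 (l 0))) (n (n (l 549) (l 21569)) (n (l 6338) (l 0)))) (n (n (n (l 744) (l 10252)) (n (l 10282) (l 0))) (n (n (l 14337) (l 0)) (n (l 3488) (l 0))))) (n (n (n (n (l 331) (l 2078)) (n (l 18516) (l 0))) (n (n (l 1302) (l 0)) (n (l 33208) (l 0)))) (n (n (n (l 553) (l
 34385)) (n (l 1585) (l 0))) (n (n (l 18500) (l 0)) (n (l 19536) (l 0))))))) (n (n (n (n (n (n (l 689) (l 33421)) (n (l 18501) (l 0))) (n (n (l 1192) (l 24704)) (n (l 2832) (l 0)))) (n (n (n (l 708) (l 10257)) (n (l 28684) (l 0))) (n (n (l 652) (l 0)) (n (l 33144) (l 0))))) (n (n (n (n (l 929) (l 33126)) (n (l 18784) (l 0))) (n (n (l 1736) (l 0)) (n (l 33137) (l 0)))) (n (n (n (l 961) (l 25696)) (n (l 33670) (l 0))) (n (n (l 28673) (l 0)) (n (l 18944) (l 0)))))) (n (n (n (n (n (l 856) (l 10568)) (n (l 26) (l 0))) (n (n (l 97) (l 0)) (n (l 33592) (l 0)))) (n (n (n (l 408) (l 8464)) (n (l 33927) (l 0))) (n (n (l 546) (l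 0)) (n (l 3332) (l 0))))) (n (n (n (n (l 214) (l 11040)) (n (l 34640) (l 0))) (n (n (l 280) (l 0)) (n (l 32956) (l 0)))) (n (n (n (l 194) (l 4816)) (n (l 33095) (l 0))) (n (n (l 1408) (l 0)) (n (l 33394) (l 0)))))))) (n (n (n (n (n (n (n (l 241) (l 20680)) (n (l 1696) (l 0))) (n (n (l 566) (l 11528)) (n (l 33396) (l 0)))) (n (n (n (l 1348) (l 10824)) (n (l 29056) (l 0))) (n (n (l 1232) (l 0)) (n (l 34089) (l 0))))) (n (n (n (n (l 1416) (l 33190)) (n (l 2216) (l 0))) (n (n (l 296) (l 0)) (n (l 18760) (l 0)))) (n (n (n (l 101) (l 3152)) (n (l 34194) (l 0))) (n (n (l 514) (l 0)) (n (l 33165) (l 0)))))) (n (n (n (n (n (l 434) (l 2308)) (n (l 6184) (l 0))) (n (n (l 681) (l 3153)) (n (l 32885) (l 0)))) (n (n (n (l 1159) (l 8336)) (n (l 4111) (l 0))) (n (n (l 1160) (l 0)) (n (l 34004) (l 0))))) (n (n (n (n (l 306) (l 16388)) (n (l 2312) (l 0))) (n (n (l 1170) (l 0)) (n (l 33496) (l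 0)))) (n (n (n (l 787) (l 17025)) (n (l 3424) (l 0))) (n (n (l 14600) (l 0)) (n (l 24897) (l 0))))))) (n (n (n (n (n (n (l 370) (l 29184)) (n (l 6240) (l 0))) (n (n (l 98) (l 7040)) (n (l 33075) (l 0)))) (n (n (n (l 690) (l 24848)) (n (l 33732) (l 0))) (n (n (l 16448) (l 0)) (n (l 34) (l 0))))) (n (n (n (n (l 310) (l 6244)) (n (l 3360) (l 0))) (n (n (l 1281) (l 0)) (n (l 34626) (l
 0)))) (n (n (n (l 1322) (l 5472)) (n (l 33482) (l 0))) (n (n (l 22596) (l 0)) (n (l 1601) (l 0)))))) (n (n (n (n (n (l 171) (l 34452)) (n (l 2176) (l 0))) (n (n (l 1308) (l 0)) (n (l 33682) (l 0)))) (n (n (n (l 198) (l 20502)) (n (l 33831) (l 0))) (n (n (l 14528) (l 0)) (n (l 6544) (l 0))))) (n (n (n (n (l 1448) (l 6154)) (n (l 9230) (l 0))) (n (n (l 1952) (l 0)) (n (l 33187) (l 0)))) (n (n (n (l 676) (l 16902)) (n (l 33933) (l 0))) (n (n (l 2240) (l 0)) (n (l 33129) (l 0)))))))))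

def vx3 : Tree :=
 n (n (n (n (n (n (n (n (n (l 30848) (l 8520)) (n (l 14372) (l 0))) (n (n (l 1123) (l 4290)) (n (l 33077) (l 0)))) (n (n (n (l 406) (l 24644)) (n (l 10368) (l 0))) (n (n (l 1076) (l 0)) (n (l 33994) (l 0))))) (n (n (n (n (l 849) (l 34146)) (n (l 24648) (l 0))) (n (n (l 30) (l 0)) (n (l 33688) (l 0)))) (n (n (n (l 1236) (l 7174)) (n (l 33700) (l 0))) (n (n (l 129) (l 0)) (n (l 16642) (l 0)))))) (n (n (n (n (n (l 248) (l 13504)) (n (l 352) (l 0))) (n (n (l 146) (l 2768)) (n (l 2692) (l 0)))) (n (n (n (l 85) (l 4240)) (n (l 10245) (l 0))) (n (n (l 22688) (l 0)) (n (l 33881) (l 0))))) (n (n (n (n (l 1067) (l 9608)) (n (l 25360) (l 0))) (n (n (l 290) (l 0)) (n (l 33228) (l 0)))) (n (n (n (l 902) (l 8512)) (n (l 10464) (l 0))) (n (n (l 1488) (l 0)) (n (l 18468) (l 0))))))) (n (n (n (n (n (n (l 592) (l 19776)) (n (l 4160) (l 0))) (n (n (l 281) (l 4161)) (n (l 12482)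 (l 0)))) (n (n (n (l 541) (l 25648)) (n (l 33730) (l 0))) (n (n (l 6692) (l 0)) (n (l 33458) (l 0))))) (n (n (n (n (l 205) (l 1024)) (n (l 6228) (l 0))) (n (n (l 1290) (l 0)) (n (l 18947) (l 0)))) (n (n (n (l 792) (l 6662)) (n (l 34497) (l 0))) (n (n (l 2052) (l 0)) (n (l 34354) (l 0)))))) (n (n (n (n (n (l 203) (l 19104)) (n (l 11328) (l 0))) (n (n (l 537) (l 0)) (n (l 2192) (l 0)))) (n (n (n (l 834) (l 16592)) (n (l 22561) (l 0))) (n (n (l 778) (l 0)) (n (l 33477) (l 0))))) (n (n (n (n (l 31232) (l 18432)) (n (l 2565) (l 0))) (n (n (l 1174) (l 0)) (n (l 33116) (l 0)))) (n (n (n (l 284) (l 7488)) (n (l 3393) (l 0))) (n (n (l 2152) (l 0)) (n (l 34628) (l 0)))))))) (n (n (n (n (n (n (n (l 468) (l 18656)) (n (l 41) (l 0))) (n (n (l 1074) (l 8224)) (n (l 2601) (l 0)))) (n (n (n (l 135) (l 19552)) (n (l 5280) (l 0))) (n (n (l 28688) (l 0)) (n (l 62480) (l 0))))) (n (n (n (n (l 1063)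 (l 24712)) (n (l 10408) (l 0))) (n (n (l 1760) (l 0)) (n (l 2660) (l 0)))) (n (n (n (l 1291) (l 1795)) (n (l 10313) (l 0))) (n (n (l
 518) (l 0)) (n (l 32855) (l 0)))))) (n (n (n (n (n (l 122) (l 23616)) (n (l 22593) (l 0))) (n (n (l 844) (l 10273)) (n (l 2604) (l 0)))) (n (n (n (l 662) (l 6690)) (n (l 3330) (l 0))) (n (n (l 1033) (l 0)) (n (l 33543) (l 0))))) (n (n (n (n (l 182) (l 34353)) (n (l 14592) (l 0))) (n (n (l 12368) (l 0)) (n (l 320) (l 0)))) (n (n (n (l 1099) (l 19232)) (n (l 2048) (l 0))) (n (n (l 3202) (l 0)) (n (l 19713) (l 0))))))) (n (n (n (n (n (n (l 107) (l 2050)) (n (l 37) (l 0))) (n (n (l 1093) (l 25618)) (n (l 640) (l 0)))) (n (n (n (l 654) (l 8207)) (n (l 2182) (l 0))) (n (n (l 532) (l 0)) (n (l 33633) (l 0))))) (n (n (n (n (l 155) (l 6661)) (n (l 16452) (l 0))) (n (n (l 644) (l 0)) (n (l 2313) (l 0)))) (n (n (n (l 641) (l 34356)) (n (l 4418) (l 0))) (n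 (n (l 17728) (l 0)) (n (l 16705) (l 0)))))) (n (n (n (n (n (l 460) (l 34212)) (n (l 16385) (l 0))) (n (n (l 1189) (l 0)) (n (l 2569) (l 0)))) (n (n (n (l 1225) (l 11136)) (n (l 33835) (l 0))) (n (n (l 648) (l 0)) (n (l 33379) (l 0))))) (n (n (n (n (l 456) (l 19462)) (n (l 22608) (l 0))) (n (n (l 1285) (l 0)) (n (l 33140) (l 0)))) (n (n (n (l 322) (l 8480)) (n (l 576) (l 0))) (n (n (l 18824) (l 0)) (n (l 8) (l 0))))))))) (n (n (n (n (n (n (n (n (l 30784) (l 20482)) (n (l 26944) (l 0))) (n (n (l 396) (l 6401)) (n (l 8656) (l 0)))) (n (n (n (l 1037) (l 1557)) (n (l 34129) (l 0))) (n (n (l 12369) (l 0)) (n (l 6536) (l 0))))) (n (n (n (n (l 270) (l 25216)) (n (l 112) (l 0))) (n (n (l 547) (l 0)) (n (l 18768) (l 0)))) (n (n (n (l 789) (l 12944)) (n (l 28936) (l 0))) (n (n (l 2056) (l 0)) (n (l 34085) (l 0)))))) (n (n (n (n (n (l 417) (l 34449)) (n (l 10278) (l 0))) (n (n (l 1061) (l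 9632)) (n (l 12290) (l 0)))) (n (n (n (l 202) (l 14852)) (n (l 20545) (l 0))) (n (n (l 1092) (l 0)) (n (l 33669) (l 0))))) (n (n (n (n (l 658) (l 24720)) (n (l 32877) (l 0))) (n (n (l 148) (l 0)) (n (l 24) (l 0)))) (n (n (n (l 1129) (l 17736)) (n (l 6156)
 (l 0))) (n (n (l 28744) (l 0)) (n (l 24769) (l 0))))))) (n (n (n (n (n (n (l 54) (l 33555)) (n (l 6182) (l 0))) (n (n (l 563) (l 21576)) (n (l 34498) (l 0)))) (n (n (n (l 1035) (l 6788)) (n (l 6216) (l 0))) (n (n (l 2464) (l 0)) (n (l 33114) (l 0))))) (n (n (n (n (l 526) (l 13696)) (n (l 22658) (l 0))) (n (n (l 620) (l 0)) (n (l 33939) (l 0)))) (n (n (n (l 930) (l 6688)) (n (l 16453) (l 0))) (n (n (l 18440) (l 0)) (n (l 33578) (l 0)))))) (n (n (n (n (n (l 450) (l 6696)) (n (l 10281) (l 0))) (n (n (l 590) (l 0)) (n (l 2370) (l 0)))) (n (n (n (l 841) (l 19456)) (n (l 32892) (l 0))) (n (n (l 1029) (l 0)) (n (l 33849) (l 0)))))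 (n (n (n (n (l 348) (l 14880)) (n (l 26642) (l 0))) (n (n (l 266) (l 0)) (n (l 33202) (l 0)))) (n (n (n (l 32830) (l 25792)) (n (l 2696) (l 0))) (n (n (l 1156) (l 0)) (n (l 8195) (l 0)))))))) (n (n (n (n (n (n (n (l 656) (l 33624)) (n (l 24657) (l 0))) (n (n (l 716) (l 25160)) (n (l 12291) (l 0)))) (n (n (n (l 90) (l 25605)) (n (l 1828) (l 0))) (n (n (l 578) (l 0)) (n (l 6368) (l 0))))) (n (n (n (n (l 345) (l 34086)) (n (l 20802) (l 0))) (n (n (l 1730) (l 0)) (n (l 1793) (l 0)))) (n (n (n (l 394) (l 19040)) (n (l 33618) (l 0))) (n (n (l 22912) (l 0)) (n (l 33351) (l 0)))))) (n (n (n (n (n (l 75) (l 16402)) (n (l 832) (l 0))) (n (n (l 1924) (l 0)) (n (l 10576) (l 0)))) (n (n (n (l 1329) (l 5138)) (n (l 96) (l 0))) (n (n (l 2084) (l 0)) (n (l 33609) (l 0))))) (n (n (n (n (l 659) (l 7264)) (n (l 12610) (l 0))) (n (n (l 63520) (l 0)) (n (l 33697) (l 0)))) (n (n (n (l 906) (l 13332))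 (n (l 34073) (l 0))) (n (n (l 26689) (l 0)) (n (l 33102) (l 0))))))) (n (n (n (n (n (n (l 784) (l 12680)) (n (l 35) (l 0))) (n (n (l 1208) (l 16520)) (n (l 2117) (l 0)))) (n (n (n (l 594) (l 4880)) (n (l 2848) (l 0))) (n (n (l 70) (l 0)) (n (l 2640) (l 0))))) (n (n (n (n (l 206) (l 10376)) (n (l 18640) (l 0))) (n (n (l 1283) (l 0)) (n (l 34130) (l 0)))) (n (n (n (l 1144) (l
 12361)) (n (l 34692) (l 0))) (n (n (l 16449) (l 0)) (n (l 17800) (l 0)))))) (n (n (n (n (n (l 334) (l 2561)) (n (l 2593) (l 0))) (n (n (l 1328) (l 0)) (n (l 1577) (l 0)))) (n (n (n (l 775) (l 13472)) (n (l 32939) (l 0))) (n (n (l 34704) (l 0)) (n (l 3265) (l 0))))) (n (n (n (n (l 116) (l 4752)) (n (l 10624) (l 0))) (n (n (l 1472) (l 0)) (n (l 33972) (l 0)))) (n (n (n (l 1081) (l 21792)) (n (l 34145) (l 0))) (n (n (l 2112) (l 0)) (n (l 4611) (l 0)))))))))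

def vx4 : Tree :=
 n (n (n (n (n (n (n (n (n (l 1440) (l 33233)) (n (l 1824) (l 0))) (n (n (l 2596) (l 24768)) (n (l 32861) (l 0)))) (n (n (n (l 420) (l 8641)) (n (l 34001) (l 0))) (n (n (l 1360) (l 0)) (n (l 33225) (l 0))))) (n (n (n (n (l 897) (l 10276)) (n (l 26753) (l 0))) (n (n (l 145) (l 0)) (n (l 34248) (l 0)))) (n (n (n (l 73) (l 6312)) (n (l 5312) (l 0))) (n (n (l 16708) (l 0)) (n (l 2944) (l 0)))))) (n (n (n (n (n (l 167) (l 25602)) (n (l 26658) (l 0))) (n (n (l 328) (l 7360)) (n (l 33163) (l 0)))) (n (n (n (l 904) (l 3145)) (n (l 16408) (l 0))) (n (n (l 49) (l 0)) (n (l 13313) (l 0))))) (n (n (n (n (l 313) (l 13184)) (n (l 32941) (l 0))) (n (n (l 265) (l 0)) (n (l 34002) (l 0)))) (n (n (n (l 647) (l 9472)) (n (l 16864) (l 0))) (n (n (l 27712) (l 0)) (n (l 10436) (l 0))))))) (n (n (n (n (n (n (l 30728) (l 2564)) (n (l 2400) (l 0))) (n (n (l 538) (l 2149)) (n (l 33586)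 (l 0)))) (n (n (n (l 542) (l 8246)) (n (l 28682) (l 0))) (n (n (l 642) (l 0)) (n (l 16736) (l 0))))) (n (n (n (n (l 151) (l 34152)) (n (l 32926) (l 0))) (n (n (l 624) (l 0)) (n (l 33331) (l 0)))) (n (n (n (l 908) (l 16465)) (n (l 2566) (l 0))) (n (n (l 18820) (l 0)) (n (l 25090) (l 0)))))) (n (n (n (n (n (l 327) (l 24770)) (n (l 28832) (l 0))) (n (n (l 550) (l 0)) (n (l 32950) (l 0)))) (n (n (n (l 785) (l 25860)) (n (l 1168) (l 0))) (n (n (l 24584) (l 0)) (n (l 34256) (l 0))))) (n (n (n (n (l 1038) (l 34404)) (n (l 8384) (l 0))) (n (n (l 168) (l 0)) (n (l 11329) (l 0)))) (n (n (n (l 790) (l 25168)) (n (l 24579) (l 0))) (n (n (l 1808) (l 0)) (n (l 1792) (l 0)))))))) (n (n (n (n (n (n (n (l 1376) (l 24596)) (n (l 33819) (l 0))) (n (n (l 1126) (l 7428)) (n (l 17668) (l 0)))) (n (n (n (l 601) (l 2912)) (n (l 18690) (l 0))) (n (n (l 152) (l 0)) (n (l 34186) (l 0))))) (n (n (n (n (l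 314) (l 21528)) (n (l 2656) (l 0))) (n (n (l 581) (l 0)) (n (l 1040) (l 0)))) (n (n (n (l 651) (l 6976)) (n (l 25984) (l 0))) (n (n (l
 772) (l 0)) (n (l 9) (l 0)))))) (n (n (n (n (n (l 94) (l 20674)) (n (l 1832) (l 0))) (n (n (l 14400) (l 4177)) (n (l 7232) (l 0)))) (n (n (n (l 1411) (l 9241)) (n (l 33358) (l 0))) (n (n (l 273) (l 0)) (n (l 27136) (l 0))))) (n (n (n (n (l 188) (l 11344)) (n (l 33333) (l 0))) (n (n (l 801) (l 0)) (n (l 8198) (l 0)))) (n (n (n (l 329) (l 12576)) (n (l 32971) (l 0))) (n (n (l 1704) (l 0)) (n (l 12880) (l 0))))))) (n (n (n (n (n (n (l 57) (l 8204)) (n (l 28692) (l 0))) (n (n (l 572) (l 17168)) (n (l 27648) (l 0)))) (n (n (n (l 837) (l 10306)) (n (l 2081) (l 0))) (n (n (l 770) (l 0)) (n (l 15488) (l 0))))) (n (n (n (n (l 724) (l 34210)) (n (l 608) (l 0))) (n (n (l 134) (l 0)) (n (l 13377) (l 0)))) (n (n (n (l 692) (l 11524)) (n (l 18880) (l 0)))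 (n (n (l 26912) (l 0)) (n (l 6656) (l 0)))))) (n (n (n (n (n (l 120) (l 4099)) (n (l 18504) (l 0))) (n (n (l 1171) (l 0)) (n (l 10243) (l 0)))) (n (n (n (l 866) (l 18465)) (n (l 26768) (l 0))) (n (n (l 1034) (l 0)) (n (l 2852) (l 0))))) (n (n (n (n (l 358) (l 16896)) (n (l 2256) (l 0))) (n (n (l 1176) (l 0)) (n (l 33010) (l 0)))) (n (n (n (l 818) (l 16397)) (n (l 33884) (l 0))) (n (n (l 10249) (l 0)) (n (l 34104) (l 0))))))))) (n (n (n (n (n (n (n (n (l 61) (l 10308)) (n (l 14472) (l 0))) (n (n (l 1332) (l 19461)) (n (l 34456) (l 0)))) (n (n (n (l 106) (l 20804)) (n (l 18472) (l 0))) (n (n (l 1860) (l 0)) (n (l 33370) (l 0))))) (n (n (n (n (l 1352) (l 2064)) (n (l 24604) (l 0))) (n (n (l 1049) (l 0)) (n (l 32974) (l 0)))) (n (n (n (l 1105) (l 1801)) (n (l 20548) (l 0))) (n (n (l 16412) (l 0)) (n (l 6186) (l 0)))))) (n (n (n (n (n (l 174) (l 33617)) (n (l 22600) (l 0))) (n (n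 (l 1922) (l 10370)) (n (l 768) (l 0)))) (n (n (n (l 535) (l 11552)) (n (l 2089) (l 0))) (n (n (l 516) (l 0)) (n (l 16584) (l 0))))) (n (n (n (n (l 285) (l 25920)) (n (l 22531) (l 0))) (n (n (l 1161) (l 0)) (n (l 34160) (l 0)))) (n (n (n (l 1138) (l 18978)) (n
 (l 25664) (l 0))) (n (n (l 1688) (l 0)) (n (l 24594) (l 0))))))) (n (n (n (n (n (n (l 30721) (l 34062)) (n (l 16398) (l 0))) (n (n (l 820) (l 25609)) (n (l 17504) (l 0)))) (n (n (n (l 558) (l 28689)) (n (l 6145) (l 0))) (n (n (l 769) (l 0)) (n (l 33381) (l 0))))) (n (n (n (n (l 157) (l 10785)) (n (l 33054) (l 0))) (n (n (l 540) (l 0)) (n (l 32986) (l 0)))) (n (n (n (l 840) (l 12640)) (n (l 14346) (l 0))) (n (n (l 6278) (l 0)) (n (l 6340) (l 0)))))) (n (n (n (n (n (l 362) (l 19592)) (n (l 33319) (l 0))) (n (n (l 561) (l 0)) (n (l 18457) (l 0)))) (n (n (n (l 900) (l 21600)) (n (l 33760) (l 0))) (n (n (l 16712) (l 0)) (n (l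 4256) (l 0))))) (n (n (n (n (l 232) (l 3345)) (n (l 18692) (l 0))) (n (n (l 1288) (l 0)) (n (l 32923) (l 0)))) (n (n (n (l 325) (l 1555)) (n (l 34193) (l 0))) (n (n (l 12294) (l 0)) (n (l 6210) (l 0)))))))) (n (n (n (n (n (n (n (l 484) (l 32883)) (n (l 14466) (l 0))) (n (n (l 1840) (l 16399)) (n (l 2728) (l 0)))) (n (n (n (l 425) (l 19524)) (n (l 304) (l 0))) (n (n (l 8214) (l 0)) (n (l 32995) (l 0))))) (n (n (n (n (l 267) (l 10265)) (n (l 18458) (l 0))) (n (n (l 1173) (l 0)) (n (l 3266) (l 0)))) (n (n (n (l 782) (l 4544)) (n (l 32925) (l 0))) (n (n (l 18505) (l 0)) (n (l 18950) (l 0)))))) (n (n (n (n (n (l 283) (l 23072)) (n (l 896) (l 0))) (n (n (l 568) (l 19588)) (n (l 2824) (l 0)))) (n (n (n (l 1046) (l 16656)) (n (l 34690) (l 0))) (n (n (l 588) (l 0)) (n (l 19616) (l 0))))) (n (n (n (n (l 105) (l 29698)) (n (l 28928) (l 0))) (n (n (l 777) (l 0)) (n (l 33574) (l 0)))) (n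 (n (n (l 172) (l 6665)) (n (l 1280) (l 0))) (n (n (l 20800) (l 0)) (n (l 18689) (l 0))))))) (n (n (n (n (n (n (l 51) (l 6226)) (n (l 1684) (l 0))) (n (n (l 1456) (l 11012)) (n (l 2148) (l 0)))) (n (n (n (l 81) (l 20504)) (n (l 6152) (l 0))) (n (n (l 26752) (l 0)) (n (l 6408) (l 0))))) (n (n (n (n (l 398) (l 4672)) (n (l 14404) (l 0))) (n (n (l 259) (l 0)) (n (l 12313) (l 0)))) (n
 (n (n (l 598) (l 9410)) (n (l 10248) (l 0))) (n (n (l 10246) (l 0)) (n (l 19584) (l 0)))))) (n (n (n (n (n (l 115) (l 5142)) (n (l 2305) (l 0))) (n (n (l 1059) (l 0)) (n (l 34083) (l 0)))) (n (n (n (l 932) (l 10786)) (n (l 33382) (l 0))) (n (n (l 268) (l 0)) (n (l 2960) (l 0))))) (n (n (n (n (l 89) (l 10512)) (n (l 33931) (l 0))) (n (n (l 1155) (l 0)) (n (l 33400) (l 0)))) (n (n (n (l 653) (l 6185)) (n (l 33867) (l 0))) (n (n (l 11) (l 0)) (n (l 34480) (l 0)))))))))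

def vx5 : Tree :=
 n (n (n (n (n (n (n (n (n (l 59) (l 9408)) (n (l 18697) (l 0))) (n (n (l 294) (l 11456)) (n (l 17432) (l 0)))) (n (n (n (l 426) (l 2260)) (n (l 176) (l 0))) (n (n (l 802) (l 0)) (n (l 34124) (l 0))))) (n (n (n (n (l 337) (l 10320)) (n (l 18696) (l 0))) (n (n (l 14464) (l 0)) (n (l 34472) (l 0)))) (n (n (n (l 1165) (l 2130)) (n (l 33063) (l 0))) (n (n (l 140) (l 0)) (n (l 12310) (l 0)))))) (n (n (n (n (n (l 914) (l 1664)) (n (l 224) (l 0))) (n (n (l 1073) (l 12305)) (n (l 6181) (l 0)))) (n (n (n (l 220) (l 33107)) (n (l 10250) (l 0))) (n (n (l 1164) (l 0)) (n (l 8608) (l 0))))) (n (n (n (n (l 397) (l 6308)) (n (l 32911) (l 0))) (n (n (l 292) (l 0)) (n (l 6659) (l 0)))) (n (n (n (l 589) (l 19648)) (n (l 28768) (l 0))) (n (n (l 26625) (l 0)) (n (l 17537) (l 0))))))) (n (n (n (n (n (n (l 369) (l 21824)) (n (l 21) (l 0))) (n (n (l 275) (l 19466)) (n (l 18688) (l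 0)))) (n (n (n (l 1102) (l 12360)) (n (l 2057) (l 0))) (n (n (l 586) (l 0)) (n (l 1604) (l 0))))) (n (n (n (n (l 234) (l 33908)) (n (l 18568) (l 0))) (n (n (l 531) (l 0)) (n (l 16384) (l 0)))) (n (n (n (l 817) (l 18949)) (n (l 2053) (l 0))) (n (n (l 26696) (l 0)) (n (l 24664) (l 0)))))) (n (n (n (n (n (l 87) (l 34024)) (n (l 26756) (l 0))) (n (n (l 1177) (l 0)) (n (l 2320) (l 0)))) (n (n (n (l 1166) (l 8704)) (n (l 10560) (l 0))) (n (n (l 34752) (l 0)) (n (l 21072) (l 0))))) (n (n (n (n (l 528) (l 2602)) (n (l 9297) (l 0))) (n (n (l 14416) (l 0)) (n (l 28816) (l 0)))) (n (n (n (l 154) (l 1804)) (n (l 1812) (l 0))) (n (n (l 9600) (l 0)) (n (l 10372) (l 0)))))))) (n (n (n (n (n (n (n (l 912) (l 33475)) (n (l 42) (l 0))) (n (n (l 1128) (l 2121)) (n (l 32859) (l 0)))) (n (n (n (l 124) (l 10305)) (n (l 1296) (l 0))) (n (n (l 1292) (l 0)) (n (l 16577) (l 0))))) (n (n (n (n (l 353)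 (l 16898)) (n (l 3168) (l 0))) (n (n (l 564) (l 0)) (n (l 33016) (l 0)))) (n (n (n (l 393) (l 25232)) (n (l 1088) (l 0))) (n (n (l 2720) (l
 0)) (n (l 33882) (l 0)))))) (n (n (n (n (n (l 1346) (l 6736)) (n (l 1920) (l 0))) (n (n (l 1872) (l 11424)) (n (l 33053) (l 0)))) (n (n (n (l 64000) (l 16706)) (n (l 34055) (l 0))) (n (n (l 2180) (l 0)) (n (l 33357) (l 0))))) (n (n (n (n (l 1234) (l 8792)) (n (l 16800) (l 0))) (n (n (l 771) (l 0)) (n (l 33969) (l 0)))) (n (n (n (l 1228) (l 21640)) (n (l 1580) (l 0))) (n (n (l 1856) (l 0)) (n (l 5) (l 0))))))) (n (n (n (n (n (n (l 110) (l 33894)) (n (l 44) (l 0))) (n (n (l 556) (l 25093)) (n (l 1634) (l 0)))) (n (n (n (l 1418) (l 10268)) (n (l 18720) (l 0))) (n (n (l 63504) (l 0)) (n (l 32954) (l 0))))) (n (n (n (n (l 1217) (l 6530)) (n (l 130) (l 0))) (n (n (l 162) (l 0)) (n (l 33001) (l 0)))) (n (n (n (l 1187) (l 2242)) (n (l 24592) (l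 0))) (n (n (l 1697) (l 0)) (n (l 33201) (l 0)))))) (n (n (n (n (n (l 1070) (l 34216)) (n (l 24832) (l 0))) (n (n (l 1305) (l 0)) (n (l 24784) (l 0)))) (n (n (n (l 102) (l 2060)) (n (l 6464) (l 0))) (n (n (l 520) (l 0)) (n (l 28808) (l 0))))) (n (n (n (n (l 357) (l 4101)) (n (l 10625) (l 0))) (n (n (l 684) (l 0)) (n (l 8576) (l 0)))) (n (n (n (l 613) (l 18497)) (n (l 25760) (l 0))) (n (n (l 992) (l 0)) (n (l 33934) (l 0))))))))) (n (n (n (n (n (n (n (n (l 30736) (l 25472)) (n (l 7248) (l 0))) (n (n (l 515) (l 19012)) (n (l 26690) (l 0)))) (n (n (n (l 323) (l 18532)) (n (l 14596) (l 0))) (n (n (l 22536) (l 0)) (n (l 33180) (l 0))))) (n (n (n (n (l 78) (l 9104)) (n (l 28) (l 0))) (n (n (l 1065) (l 0)) (n (l 1) (l 0)))) (n (n (n (l 1392) (l 8584)) (n (l 33564) (l 0))) (n (n (l 26634) (l 0)) (n (l 33171) (l 0)))))) (n (n (n (n (n (l 453) (l 17696)) (n (l 25) (l 0))) (n (n (l 1114)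 (l 25729)) (n (l 33620) (l 0)))) (n (n (n (l 421) (l 8196)) (n (l 3460) (l 0))) (n (n (l 32823) (l 0)) (n (l 2212) (l 0))))) (n (n (n (n (l 1378) (l 10656)) (n (l 6188) (l 0))) (n (n (l 1196) (l 0)) (n (l 33004) (l 0)))) (n (n (n (l 298) (l 1612)) (n (l 33729) (l
 0))) (n (n (l 28992) (l 0)) (n (l 33996) (l 0))))))) (n (n (n (n (n (n (l 53) (l 3457)) (n (l 24598) (l 0))) (n (n (l 1169) (l 19204)) (n (l 34504) (l 0)))) (n (n (n (l 228) (l 11016)) (n (l 33877) (l 0))) (n (n (l 26626) (l 0)) (n (l 32886) (l 0))))) (n (n (n (n (l 217) (l 13376)) (n (l 1026) (l 0))) (n (n (l 1888) (l 0)) (n (l 33897) (l 0)))) (n (n (n (l 901) (l 20997)) (n (l 28960) (l 0))) (n (n (l 1681) (l 0)) (n (l 34401) (l 0)))))) (n (n (n (n (n (l 1361) (l 6752)) (n (l 18513) (l 0))) (n (n (l 14344) (l 0)) (n (l 12308) (l 0)))) (n (n (n (l 868) (l 18473)) (n (l 33837) (l 0))) (n (n (l 22537) (l 0)) (n (l 33393)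 (l 0))))) (n (n (n (n (l 1163) (l 4097)) (n (l 24586) (l 0))) (n (n (l 22534) (l 0)) (n (l 17422) (l 0)))) (n (n (n (l 1201) (l 27138)) (n (l 33081) (l 0))) (n (n (l 400) (l 0)) (n (l 12353) (l 0)))))))) (n (n (n (n (n (n (n (l 63616) (l 7296)) (n (l 22816) (l 0))) (n (n (l 1125) (l 25672)) (n (l 24898) (l 0)))) (n (n (n (l 83) (l 16576)) (n (l 17568) (l 0))) (n (n (l 646) (l 0)) (n (l 33603) (l 0))))) (n (n (n (n (l 121) (l 34018)) (n (l 28677) (l 0))) (n (n (l 1157) (l 0)) (n (l 9040) (l 0)))) (n (n (n (l 668) (l 16672)) (n (l 28801) (l 0))) (n (n (l 1048) (l 0)) (n (l 6288) (l 0)))))) (n (n (n (n (n (l 721) (l 16400)) (n (l 1700) (l 0))) (n (n (l 614) (l 2177)) (n (l 33478) (l 0)))) (n (n (n (l 1082) (l 21506)) (n (l 33676) (l 0))) (n (n (l 584) (l 0)) (n (l 36) (l 0))))) (n (n (n (n (l 218) (l 19464)) (n (l 28675) (l 0))) (n (n (l 530) (l 0)) (n (l 14608) (l 0)))) (n (n (n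 (l 710) (l 18954)) (n (l 2063) (l 0))) (n (n (l 22540) (l 0)) (n (l 33946) (l 0))))))) (n (n (n (n (n (n (l 109) (l 11264)) (n (l 20544) (l 0))) (n (n (l 1306) (l 11273)) (n (l 33082) (l 0)))) (n (n (n (l 197) (l 4368)) (n (l 32878) (l 0))) (n (n (l 1984) (l 0)) (n (l 33009) (l 0))))) (n (n (n (n (l 186) (l 12288)) (n (l 6224) (l 0))) (n (n (l 1286) (l 0)) (n (l 33434) (l 0)))) (n
 (n (n (l 30720) (l 24800)) (n (l 14480) (l 0))) (n (n (l 29712) (l 0)) (n (l 59440) (l 0)))))) (n (n (n (n (n (l 920) (l 16438)) (n (l 1816) (l 0))) (n (n (l 1080) (l 0)) (n (l 2086) (l 0)))) (n (n (n (l 1190) (l 33365)) (n (l 1672) (l 0))) (n (n (l 17473) (l 0)) (n (l 9152) (l 0))))) (n (n (n (n (l 1414) (l 6689)) (n (l 8707) (l 0))) (n (n (l 650) (l 0)) (n (l 33464) (l 0)))) (n (n (n (l 604) (l 2184)) (n (l 33337) (l 0))) (n (n (l 22664) (l 0)) (n (l 12376) (l 0)))))))))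

def vx6 : Tree :=
 n (n (n (n (n (n (n (n (n (l 482) (l 33173)) (n (l 8257) (l 0))) (n (n (l 149) (l 9312)) (n (l 33508) (l 0)))) (n (n (n (l 118) (l 4102)) (n (l 34656) (l 0))) (n (n (l 131) (l 0)) (n (l 20640) (l 0))))) (n (n (n (n (l 229) (l 17040)) (n (l 17436) (l 0))) (n (n (l 28736) (l 0)) (n (l 33505) (l 0)))) (n (n (n (l 1287) (l 3232)) (n (l 16389) (l 0))) (n (n (l 66) (l 0)) (n (l 2976) (l 0)))))) (n (n (n (n (n (l 436) (l 34593)) (n (l 336) (l 0))) (n (n (l 1729) (l 2245)) (n (l 28676) (l 0)))) (n (n (n (l 1186) (l 33744)) (n (l 6177) (l 0))) (n (n (l 50) (l 0)) (n (l 5344) (l 0))))) (n (n (n (n (l 390) (l 8218)) (n (l 33815) (l 0))) (n (n (l 812) (l 0)) (n (l 6402) (l 0)))) (n (n (n (l 150) (l 34388)) (n (l 2128) (l 0))) (n (n (l 24577) (l 0)) (n (l 192) (l 0))))))) (n (n (n (n (n (n (l 346) (l 34386)) (n (l 22792) (l 0))) (n (n (l 88) (l 17104)) (n (l 2129) (l 0))))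 (n (n (n (l 424) (l 25606)) (n (l 33039) (l 0))) (n (n (l 674) (l 0)) (n (l 25632) (l 0))))) (n (n (n (n (l 1051) (l 20480)) (n (l 24581) (l 0))) (n (n (l 1299) (l 0)) (n (l 12496) (l 0)))) (n (n (n (l 1137) (l 19264)) (n (l 33520) (l 0))) (n (n (l 3520) (l 0)) (n (l 34196) (l 0)))))) (n (n (n (n (n (l 1250) (l 34348)) (n (l 6180) (l 0))) (n (n (l 1136) (l 0)) (n (l 33366) (l 0)))) (n (n (n (l 824) (l 2054)) (n (l 3201) (l 0))) (n (n (l 76) (l 0)) (n (l 34468) (l 0))))) (n (n (n (n (l 185) (l 8320)) (n (l 33821) (l 0))) (n (n (l 1100) (l 0)) (n (l 32947) (l 0)))) (n (n (n (l 740) (l 19465)) (n (l 34115) (l 0))) (n (n (l 264) (l 0)) (n (l 34032) (l 0)))))))) (n (n (n (n (n (n (n (l 271) (l 33990)) (n (l 18466) (l 0))) (n (n (l 680) (l 10757)) (n (l 9248) (l 0)))) (n (n (n (l 1384) (l 22544)) (n (l 26896) (l 0))) (n (n (l 24601) (l 0)) (n (l 1666) (l 0))))) (n (n (n (n (l 1441)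 (l 9216)) (n (l 132) (l 0))) (n (n (l 1864) (l 0)) (n (l 17488) (l 0)))) (n (n (n (l 108) (l 13392)) (n (l 12289) (l 0))) (n (n (l 26630)
 (l 0)) (n (l 25088) (l 0)))))) (n (n (n (n (n (l 1410) (l 8976)) (n (l 6209) (l 0))) (n (n (l 32827) (l 21509)) (n (l 32973) (l 0)))) (n (n (n (l 201) (l 7300)) (n (l 33850) (l 0))) (n (n (l 780) (l 0)) (n (l 15360) (l 0))))) (n (n (n (n (l 338) (l 6944)) (n (l 14656) (l 0))) (n (n (l 805) (l 0)) (n (l 33481) (l 0)))) (n (n (n (l 1289) (l 19208)) (n (l 4688) (l 0))) (n (n (l 1826) (l 0)) (n (l 33577) (l 0))))))) (n (n (n (n (n (n (l 30722) (l 24616)) (n (l 22560) (l 0))) (n (n (l 1108) (l 7236)) (n (l 2820) (l 0)))) (n (n (n (l 1053) (l 7425)) (n (l 5184) (l 0))) (n (n (l 1060) (l 0)) (n (l 33189) (l 0))))) (n (n (n (n (l 665) (l 34020)) (n (l 257) (l 0))) (n (n (l 529) (l 0)) (n (l 33634) (l 0)))) (n (n (n (l 964) (l 10758)) (n (l 34179)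 (l 0))) (n (n (l 1216) (l 0)) (n (l 10322) (l 0)))))) (n (n (n (n (n (l 722) (l 34608)) (n (l 416) (l 0))) (n (n (l 645) (l 0)) (n (l 33558) (l 0)))) (n (n (n (l 899) (l 5201)) (n (l 33846) (l 0))) (n (n (l 16392) (l 0)) (n (l 34074) (l 0))))) (n (n (n (n (l 706) (l 19712)) (n (l 18441) (l 0))) (n (n (l 1068) (l 0)) (n (l 33240) (l 0)))) (n (n (n (l 570) (l 25610)) (n (l 34200) (l 0))) (n (n (l 14348) (l 0)) (n (l 34416) (l 0))))))))) (n (n (n (n (n (n (n (n (l 481) (l 27200)) (n (l 47) (l 0))) (n (n (l 389) (l 8296)) (n (l 17426) (l 0)))) (n (n (n (l 308) (l 24836)) (n (l 6404) (l 0))) (n (n (l 1027) (l 0)) (n (l 33219) (l 0))))) (n (n (n (n (l 418) (l 33970)) (n (l 6466) (l 0))) (n (n (l 100) (l 0)) (n (l 1800) (l 0)))) (n (n (n (l 838) (l 11393)) (n (l 24736) (l 0))) (n (n (l 68) (l 0)) (n (l 34097) (l 0)))))) (n (n (n (n (n (l 449) (l 33452)) (n (l 6213) (l 0))) (n (n (l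 1116) (l 8672)) (n (l 34121) (l 0)))) (n (n (n (l 1256) (l 10764)) (n (l 18474) (l 0))) (n (n (l 1618) (l 0)) (n (l 10266) (l 0))))) (n (n (n (n (l 1249) (l 23040)) (n (l 9222) (l 0))) (n (n (l 1732) (l 0)) (n (l 10755) (l 0)))) (n (n (n (l 786) (l 2598)) (n (l
 33386) (l 0))) (n (n (l 26648) (l 0)) (n (l 25600) (l 0))))))) (n (n (n (n (n (n (l 58) (l 33419)) (n (l 16396) (l 0))) (n (n (l 796) (l 19088)) (n (l 33512) (l 0)))) (n (n (n (l 405) (l 20736)) (n (l 33648) (l 0))) (n (n (l 1094) (l 0)) (n (l 2704) (l 0))))) (n (n (n (n (l 1368) (l 17417)) (n (l 22786) (l 0))) (n (n (l 1072) (l 0)) (n (l 4192) (l 0)))) (n (n (n (l 794) (l 10820)) (n (l 6280) (l 0))) (n (n (l 521) (l 0)) (n (l 33585) (l 0)))))) (n (n (n (n (n (l 301) (l 23104)) (n (l 17792) (l 0))) (n (n (l 1316) (l 0)) (n (l 10832) (l 0)))) (n (n (n (l 1101) (l 18576)) (n (l 34689) (l 0))) (n (n (l 18496) (l 0)) (n (l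 15424) (l 0))))) (n (n (n (n (l 557) (l 24672)) (n (l 17480) (l 0))) (n (n (l 610) (l 0)) (n (l 34209) (l 0)))) (n (n (n (l 968) (l 25024)) (n (l 28929) (l 0))) (n (n (l 26881) (l 0)) (n (l 33976) (l 0)))))))) (n (n (n (n (n (n (n (l 1312) (l 33109)) (n (l 7) (l 0))) (n (n (l 64512) (l 2113)) (n (l 33070) (l 0)))) (n (n (n (l 1097) (l 18562)) (n (l 14465) (l 0))) (n (n (l 464) (l 0)) (n (l 33125) (l 0))))) (n (n (n (n (l 333) (l 22545)) (n (l 2133) (l 0))) (n (n (l 133) (l 0)) (n (l 8273) (l 0)))) (n (n (n (l 300) (l 8280)) (n (l 33989) (l 0))) (n (n (l 6304) (l 0)) (n (l 3872) (l 0)))))) (n (n (n (n (n (l 728) (l 19480)) (n (l 1728) (l 0))) (n (n (l 612) (l 3337)) (n (l 3081) (l 0)))) (n (n (n (l 387) (l 16528)) (n (l 2434) (l 0))) (n (n (l 432) (l 0)) (n (l 33446) (l 0))))) (n (n (n (n (l 1444) (l 16644)) (n (l 14339) (l 0))) (n (n (l 1154) (l 0)) (n (l 33875) (l 0)))) (n (n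 (n (l 842) (l 19328)) (n (l 10500) (l 0))) (n (n (l 26816) (l 0)) (n (l 18626) (l 0))))))) (n (n (n (n (n (n (l 433) (l 4)) (n (l 16457) (l 0))) (n (n (l 677) (l 34596)) (n (l 33610) (l 0)))) (n (n (n (l 1293) (l 20)) (n (l 672) (l 0))) (n (n (l 928) (l 0)) (n (l 10640) (l 0))))) (n (n (n (n (l 1362) (l 10761)) (n (l 6212) (l 0))) (n (n (l 45) (l 0)) (n (l 9238) (l 0)))) (n (n (n
 (l 880) (l 34600)) (n (l 22800) (l 0))) (n (n (l 22788) (l 0)) (n (l 12432) (l 0)))))) (n (n (n (n (n (l 1069) (l 14912)) (n (l 5200) (l 0))) (n (n (l 324) (l 0)) (n (l 18) (l 0)))) (n (n (n (l 1222) (l 8199)) (n (l 33580) (l 0))) (n (n (l 22530) (l 0)) (n (l 32949) (l 0))))) (n (n (n (n (l 1432) (l 6666)) (n (l 18561) (l 0))) (n (n (l 803) (l 0)) (n (l 34224) (l 0)))) (n (n (n (l 1084) (l 7177)) (n (l 24705) (l 0))) (n (n (l 22538) (l 0)) (n (l 10304) (l 0)))))))))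

def vx7 : Tree :=
 n (n (n (n (n (n (n (n (n (l 466) (l 33415)) (n (l 18752) (l 0))) (n (n (l 1474) (l 5314)) (n (l 32919) (l 0)))) (n (n (n (l 342) (l 19716)) (n (l 6496) (l 0))) (n (n (l 1282) (l 0)) (n (l 33084) (l 0))))) (n (n (n (n (l 916) (l 34360)) (n (l 33736) (l 0))) (n (n (l 8784) (l 0)) (n (l 33249) (l 0)))) (n (n (n (l 565) (l 16641)) (n (l 22785) (l 0))) (n (n (l 2088) (l 0)) (n (l 18625) (l 0)))))) (n (n (n (n (n (l 302) (l 34132)) (n (l 1620) (l 0))) (n (n (l 1936) (l 6800)) (n (l 2628) (l 0)))) (n (n (n (l 99) (l 20624)) (n (l 11392) (l 0))) (n (n (l 28674) (l 0)) (n (l 18514) (l 0))))) (n (n (n (n (l 269) (l 2624)) (n (l 24896) (l 0))) (n (n (l 1058) (l 0)) (n (l 34117) (l 0)))) (n (n (n (l 169) (l 19720)) (n (l 9376) (l 0))) (n (n (l 14352) (l 0)) (n (l 20673) (l 0))))))) (n (n (n (n (n (n (l 451) (l 18632)) (n (l 704) (l 0))) (n (n (l 26632) (l 21136)) (n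 (l 272) (l 0)))) (n (n (n (l 180) (l 17472)) (n (l 26657) (l 0))) (n (n (l 14401) (l 0)) (n (l 18704) (l 0))))) (n (n (n (n (l 850) (l 10328)) (n (l 16386) (l 0))) (n (n (l 804) (l 0)) (n (l 10496) (l 0)))) (n (n (n (l 600) (l 10896)) (n (l 3008) (l 0))) (n (n (l 10400) (l 0)) (n (l 33193) (l 0)))))) (n (n (n (n (n (l 91) (l 10240)) (n (l 19) (l 0))) (n (n (l 28737) (l 0)) (n (l 1609) (l 0)))) (n (n (n (l 184) (l 23048)) (n (l 6336) (l 0))) (n (n (l 6274) (l 0)) (n (l 16901) (l 0))))) (n (n (n (n (l 1056) (l 6151)) (n (l 32875) (l 0))) (n (n (l 74) (l 0)) (n (l 33562) (l 0)))) (n (n (n (l 1130) (l 11072)) (n (l 33550) (l 0))) (n (n (l 21572) (l 0)) (n (l 34584) (l 0)))))))) (n (n (n (n (n (n (n (l 488) (l 20553)) (n (l 14) (l 0))) (n (n (l 1078) (l 20737)) (n (l 2632) (l 0)))) (n (n (n (l 410) (l 32988)) (n (l 6528) (l 0))) (n (n (l 513) (l 0)) (n (l 33704) (l 0))))) (n (n (n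 (n (l 71) (l 24614)) (n (l 10504) (l 0))) (n (n (l 579) (l 0)) (n (l 33490) (l 0)))) (n (n (n (l 1476) (l 4416)) (n (l 1152) (l 0))) (n (n (l
 2344) (l 0)) (n (l 14848) (l 0)))))) (n (n (n (n (n (l 209) (l 33681)) (n (l 26884) (l 0))) (n (n (l 649) (l 1560)) (n (l 10792) (l 0)))) (n (n (n (l 666) (l 2440)) (n (l 2336) (l 0))) (n (n (l 65) (l 0)) (n (l 2880) (l 0))))) (n (n (n (n (l 597) (l 512)) (n (l 16899) (l 0))) (n (n (l 2080) (l 0)) (n (l 34017) (l 0)))) (n (n (n (l 1077) (l 3156)) (n (l 33430) (l 0))) (n (n (l 26656) (l 0)) (n (l 25608) (l 0))))))) (n (n (n (n (n (n (l 458) (l 2058)) (n (l 6217) (l 0))) (n (n (l 392) (l 5442)) (n (l 4320) (l 0)))) (n (n (n (l 195) (l 2752)) (n (l 16456) (l 0))) (n (n (l 16410) (l 0)) (n (l 33002) (l 0))))) (n (n (n (n (l 344) (l 6146)) (n (l 22532) (l 0))) (n (n (l 1180) (l 0)) (n (l 33445) (l 0)))) (n (n (n (l 326) (l 4576)) (n (l 33961)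 (l 0))) (n (n (l 1616) (l 0)) (n (l 17544) (l 0)))))) (n (n (n (n (n (l 339) (l 2)) (n (l 2304) (l 0))) (n (n (l 200) (l 0)) (n (l 8200) (l 0)))) (n (n (n (l 1480) (l 7432)) (n (l 2082) (l 0))) (n (n (l 1624) (l 0)) (n (l 23552) (l 0))))) (n (n (n (n (l 1426) (l 16464)) (n (l 2563) (l 0))) (n (n (l 480) (l 0)) (n (l 33640) (l 0)))) (n (n (n (l 293) (l 1605)) (n (l 25665) (l 0))) (n (n (l 17476) (l 0)) (n (l 33673) (l 0))))))))) (n (n (n (n (n (n (n (n (l 79) (l 8777)) (n (l 18528) (l 0))) (n (n (l 156) (l 19468)) (n (l 12292) (l 0)))) (n (n (n (l 1095) (l 17280)) (n (l 6148) (l 0))) (n (n (l 1504) (l 0)) (n (l 34098) (l 0))))) (n (n (n (n (l 299) (l 20576)) (n (l 24640) (l 0))) (n (n (l 1132) (l 0)) (n (l 2340) (l 0)))) (n (n (n (l 386) (l 25097)) (n (l 1592) (l 0))) (n (n (l 26692) (l 0)) (n (l 27904) (l 0)))))) (n (n (n (n (n (l 330) (l 3464)) (n (l 16394) (l 0))) (n (n (l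 1298) (l 1564)) (n (l 20688) (l 0)))) (n (n (n (l 412) (l 33667)) (n (l 18444) (l 0))) (n (n (l 1284) (l 0)) (n (l 8640) (l 0))))) (n (n (n (n (l 833) (l 13328)) (n (l 14408) (l 0))) (n (n (l 69) (l 0)) (n (l 3204) (l 0)))) (n (n (n (l 872) (l 8848)) (n (l 6157)
 (l 0))) (n (n (l 2512) (l 0)) (n (l 17413) (l 0))))))) (n (n (n (n (n (n (l 103) (l 1561)) (n (l 24649) (l 0))) (n (n (l 1052) (l 20768)) (n (l 544) (l 0)))) (n (n (n (l 141) (l 32)) (n (l 22657) (l 0))) (n (n (l 16414) (l 0)) (n (l 33612) (l 0))))) (n (n (n (n (l 419) (l 33557)) (n (l 14370) (l 0))) (n (n (l 1098) (l 0)) (n (l 20740) (l 0)))) (n (n (n (l 1413) (l 11265)) (n (l 18512) (l 0))) (n (n (l 22624) (l 0)) (n (l 2597) (l 0)))))) (n (n (n (n (n (l 523) (l 19744)) (n (l 6208) (l 0))) (n (n (l 533) (l 0)) (n (l 33012) (l 0)))) (n (n (n (l 1330) (l 29700)) (n (l 33323) (l 0))) (n (n (l 63492) (l 0)) (n (l 34408)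 (l 0))))) (n (n (n (n (l 1224) (l 33194)) (n (l 800) (l 0))) (n (n (l 809) (l 0)) (n (l 6529) (l 0)))) (n (n (n (l 204) (l 9440)) (n (l 2572) (l 0))) (n (n (l 25612) (l 0)) (n (l 1547) (l 0)))))))) (n (n (n (n (n (n (n (l 63552) (l 32998)) (n (l 34528) (l 0))) (n (n (l 1188) (l 20492)) (n (l 25091) (l 0)))) (n (n (n (l 1364) (l 28930)) (n (l 10688) (l 0))) (n (n (l 1042) (l 0)) (n (l 17477) (l 0))))) (n (n (n (n (l 341) (l 11394)) (n (l 20808) (l 0))) (n (n (l 8265) (l 0)) (n (l 2085) (l 0)))) (n (n (n (l 836) (l 3141)) (n (l 288) (l 0))) (n (n (l 10274) (l 0)) (n (l 2856) (l 0)))))) (n (n (n (n (n (l 376) (l 8197)) (n (l 14342) (l 0))) (n (n (l 24641) (l 0)) (n (l 26754) (l 0)))) (n (n (n (l 404) (l 5126)) (n (l 12384) (l 0))) (n (n (l 26704) (l 0)) (n (l 33941) (l 0))))) (n (n (n (n (l 401) (l 3218)) (n (l 18816) (l 0))) (n (n (l 1162) (l 0)) (n (l 32815) (l 0)))) (n (n (n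 (l 602) (l 18434)) (n (l 2570) (l 0))) (n (n (l 22720) (l 0)) (n (l 5185) (l 0))))))) (n (n (n (n (n (n (l 737) (l 33489)) (n (l 448) (l 0))) (n (n (l 1089) (l 6178)) (n (l 3458) (l 0)))) (n (n (n (l 1313) (l 12560)) (n (l 33422) (l 0))) (n (n (l 52) (l 0)) (n (l 24833) (l 0))))) (n (n (n (n (l 1233) (l 10888)) (n (l 28752) (l 0))) (n (n (l 1091) (l 0)) (n (l 6150) (l 0)))) (n (n (n
 (l 86) (l 21664)) (n (l 24585) (l 0))) (n (n (l 524) (l 0)) (n (l 34100) (l 0)))))) (n (n (n (n (n (l 227) (l 25104)) (n (l 14336) (l 0))) (n (n (l 388) (l 0)) (n (l 1602) (l 0)))) (n (n (n (l 1240) (l 8912)) (n (l 33325) (l 0))) (n (n (l 14496) (l 0)) (n (l 33204) (l 0))))) (n (n (n (n (l 1354) (l 6400)) (n (l 2244) (l 0))) (n (n (l 262) (l 0)) (n (l 33712) (l 0)))) (n (n (n (l 781) (l 6668)) (n (l 24576) (l 0))) (n (n (l 1041) (l 0)) (n (l 17433) (l 0)))))))))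

def v : Tree :=
 n (n (n vx0 vx1) (n vx2 vx3)) (n (n vx4 vx5) (n vx6 vx7))

end Pool.Agent.WS.C59
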