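import Mathlib.Data.Nat.Bitwise

/-!
# WS/Check: a small unit propagation checker for the kernel

A clause is stored as one number, a list of digits in base `2 ^ 15`; the digits of the literals `l`
and `l ^^^ 1` are `l + 64` and `(l ^^^ 1) + 64`. The digit `0` stands for `False`.
The definitions use the recursors directly.
-/

set_option autoImplicit false

namespace Pool.Agent.WS

/-- Evaluate `n` before it is passed on. -/
noncomputable def force {β : Type} (n : ℕ) (k : ℕ → β) : β :=
  Nat.rec (k 0) (fun m _ => k (Nat.succ m)) n

/-- Binary trees with numbers at the leaves. -/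
inductive Tree : Type
  | leaf (v : ℕ) : Tree
  | node (l r : Tree) : Tree

/-- The entry with a given index (lowest bit first). -/
noncomputable def Tree.get (t : Tree) : ℕ → ℕ :=
  Tree.rec (fun v _ => v)
    (fun _ _ fl fr i =>
      Bool.rec (fr (Nat.shiftRight i 1)) (fl (Nat.shiftRight i 1))
        (Nat.beq (Nat.land i 1) 0)) t

/-- The set of digits of a clause, as a number. -/
noncomputable def mask (n : ℕ) : ℕ → ℕ → ℕ :=
  Nat.rec (fun _ a => a)
    (fun _ ih c a =>
      Bool.rec (ih (Nat.shiftRight c 15) (Nat.lor a (Nat.shiftLeft 1 (Nat.land c 32767)))) a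
        (Nat.beq c 0)) n

/-- Run through the hints. A hint has 32 bits, the lower 17 are the number of the clause, the other
ones are the digit of the new true literal, or `0` at the end. -/
noncomputable def rup (t : Tree) (i : ℕ) (n : ℕ) : ℕ → ℕ → Bool :=
  Nat.rec (fun _ _ => false)
    (fun _ ih h F =>
      force (Nat.land h 131071) fun j =>
        (fun v c =>
          Bool.rec false
            (Bool.rec false
              (Bool.rec
                (ih (Nat.shiftRight h 32) (Nat.lor F (Nat.shiftLeft 1 (Nat.xor v 1))))
                true
                (Nat.beq v 0))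
              (Nat.beq (Nat.land c (Nat.lor F (Nat.shiftLeft 1 v))) c))
            (Nat.ble (Nat.succ j) i))
          (Nat.land (Nat.shiftRight h 17) 32767) (mask 64 (t.get j) 0)) n

/-- Check a list of learned clauses, numbered from `i` on. -/
noncomputable def checkAll (t : Tree) (hs : List ℕ) : ℕ → Bool :=
  List.rec (fun _ => true)
    (fun h _ ih i =>
      Bool.rec false (force (Nat.succ i) ih) (rup t i 4096 h (mask 64 (t.get i) 0))) hs

end Pool.Agent.WS
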