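import Pool.Agent.WS.Pattern
import Pool.Agent.WD.Core

/-!
# WS/Conn: connected partitions from refuted patterns
-/

set_option autoImplicit false

namespace Pool.Agent.WS

open Set Pool.Agent.WD

universe u

variable {β : Type u} {N : Matroid β} {S : Set β}

theorem share_symm {κ : Type*} {P Q : κ → Set β} (h : Share N S P Q) : Share N S Q P := by
  obtain ⟨h1, h2, i, j, h3⟩ := h
  exact ⟨h2, h1, j, i, h3.symm⟩

theorem rtg_symm {κ : Type*} {P Q : κ → Set β} (h : Relation.ReflTransGen (Share N S) P Q) :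
    Relation.ReflTransGen (Share N S) Q P := by
  induction h with
  | refl => exact Relation.ReflTransGen.refl
  | tail _ h2 ih => exact Relation.ReflTransGen.head (share_symm h2) ih

theorem partn_of_rtg {κ : Type*} {P Q : κ → Set β} (hP : IsPartn N S P)
    (h : Relation.ReflTransGen (Share N S) P Q) : IsPartn N S Q := by
  induction h with
  | refl => exact hP
  | tail _ h2 _ => exact h2.2.1

/-- `A` is a block of a partition which is connected to `Q`. -/
def Blk (N : Matroid β) (S : Set β) (Q : Fin 3 → Set β) (A : Set β) : Prop :=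
  ∃ R, Relation.ReflTransGen (Share N S) Q R ∧ ∃ k, R k = A

theorem ncard_three {A B C : Set β} (hA : A.Finite) (hB : B.Finite) (hC : C.Finite)
    (hAB : Disjoint A B) (hAC : Disjoint A C) (hBC : Disjoint B C) :
    (A ∪ B ∪ C).ncard = A.ncard + B.ncard + C.ncard := by
  rw [ncard_union_eq (disjoint_union_left.2 ⟨hAC, hBC⟩) (hA.union hB) hC,
    ncard_union_eq hAB hA hB]

theorem base_ncard {f : ℕ} (hf : N.eRank = f) {B : Set β} (hB : N.IsBase B) :
    B.Finite ∧ B.ncard = f := by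
  have h1 : B.encard = f := by rw [hB.encard_eq_eRank, hf]
  have h2 : B.Finite := by
    rw [← encard_lt_top_iff, h1]
    exact ENat.natCast_lt_top _
  refine ⟨h2, ?_⟩
  rw [← Set.Finite.cast_ncard_eq h2] at h1
  exact_mod_cast h1

theorem indep_ncard {f : ℕ} (hf : N.eRank = f) {B : Set β} (hB : N.Indep B) :
    B.Finite ∧ B.ncard ≤ f := by
  have h1 : B.encard ≤ f := by
    rw [← hf]
    exact hB.encard_le_eRank
  have h2 : B.Finite := by
    rw [← encard_lt_top_iff]
    exact lt_of_le_of_lt h1 (ENat.natCast_lt_top _)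
  refine ⟨h2, ?_⟩
  rw [← Set.Finite.cast_ncard_eq h2] at h1
  exact_mod_cast h1

theorem base_of_ncard {f : ℕ} (hf : N.eRank = f) {B : Set β} (hB : N.Indep B)
    (h : B.ncard = f) : N.IsBase B := by
  have h2 := (indep_ncard hf hB).1
  refine hB.isBase_of_eRk_ge h2 ?_
  rw [hf, hB.eRk_eq_encard, ← Set.Finite.cast_ncard_eq h2, h]

theorem partn_ncard {f : ℕ} (hf : N.eRank = f) {Q : Fin 3 → Set β} (hQ : IsPartn N S Q) :
    S.Finite ∧ S.ncard = 3 * f := by
  rw [← hQ.2, iUnion_three]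
  have h0 := base_ncard hf (hQ.1.1 0)
  have h1 := base_ncard hf (hQ.1.1 1)
  have h2 := base_ncard hf (hQ.1.1 2)
  refine ⟨(h0.1.union h1.1).union h2.1, ?_⟩
  rw [ncard_three h0.1 h1.1 h2.1 (hQ.1.2 (by decide)) (hQ.1.2 (by decide))
    (hQ.1.2 (by decide)), h0.2, h1.2, h2.2]
  ring

theorem part_of_partn {P : Fin 3 → Set β} (hP : IsPartn N S P) : Part N S P :=
  ⟨fun i => (hP.1.1 i).indep, hP.1.2, hP.2⟩

theorem partn_of_part {f : ℕ} (hf : N.eRank = f) (hS : S.ncard = 3 * f) {P : Fin 3 → Set β}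
    (hP : Part N S P) : IsPartn N S P := by
  have h0 := indep_ncard hf (hP.1 0)
  have h1 := indep_ncard hf (hP.1 1)
  have h2 := indep_ncard hf (hP.1 2)
  have h4 : (P 0).ncard + (P 1).ncard + (P 2).ncard = 3 * f := by
    rw [← ncard_three h0.1 h1.1 h2.1 (hP.2.1 (by decide)) (hP.2.1 (by decide))
      (hP.2.1 (by decide)), ← iUnion_three, hP.2.2, hS]
  have e0 : (P 0).ncard = f := by omega
  have e1 : (P 1).ncard = f := by omega
  have e2 : (P 2).ncard = f := by omega
  refine ⟨⟨?_, hP.2.1⟩, hP.2.2⟩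
  intro l
  fin_cases l
  · exact base_of_ncard hf (hP.1 0) e0
  · exact base_of_ncard hf (hP.1 1) e1
  · exact base_of_ncard hf (hP.1 2) e2

/-- All pairs of partitions whose intersections have the sizes `M` are connected. -/
def ConnPat (f : ℕ) (M : Fin 3 → Fin 3 → ℕ) : Prop :=
  ∀ (β : Type u) (N : Matroid β) (S : Set β) (P Q : Fin 3 → Set β), N.eRank = f →
    IsPartn N S P → IsPartn N S Q → (∀ i j, (P i ∩ Q j).ncard = M i j) →
      Relation.ReflTransGen (Share N S) P Q

/-- All pairs of partitions with an intersection of size at least `t` are connected. -/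
def ConnMax (f t : ℕ) : Prop :=
  ∀ (β : Type u) (N : Matroid β) (S : Set β) (P Q : Fin 3 → Set β), N.eRank = f →
    IsPartn N S P → IsPartn N S Q → (∃ i j, t ≤ (P i ∩ Q j).ncard) →
      Relation.ReflTransGen (Share N S) P Q

theorem connMax_self (f : ℕ) : ConnMax.{u} f f := by
  intro β N S P Q hf hP hQ h
  obtain ⟨i, j, h⟩ := h
  have h1 := base_ncard hf (hP.1.1 i)
  have h2 := base_ncard hf (hQ.1.1 j)
  have h3 : P i ∩ Q j = P i := eq_of_subset_of_ncard_le inter_subset_left (by omega) h1.1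
  have h4 : P i ∩ Q j = Q j := eq_of_subset_of_ncard_le inter_subset_right (by omega) h2.1
  exact Relation.ReflTransGen.single ⟨hP, hQ, i, j, h3.symm.trans h4⟩

theorem blk_iff {Q P R : Fin 3 → Set β} (hQ : IsPartn N S Q) (hP : IsPartn N S P)
    (hR : IsPartn N S R) (h : Relation.ReflTransGen (Share N S) P R) (i j : Fin 3)
    (hc : Blk N S Q (P i)) : Blk N S Q (R j) := by
  obtain ⟨T, hT, k, hk⟩ := hc
  exact ⟨R, (hT.tail ⟨partn_of_rtg hQ hT, hP, k, i, hk⟩).trans h, j, rfl⟩

theorem blk_hyp {f t : ℕ} {K : List (Fin 3 → Fin 3 → ℕ)} (hf : N.eRank = f)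
    (hK : ∀ M ∈ K, ConnPat.{u} f M) (ht : ConnMax.{u} f t) {Q : Fin 3 → Set β}
    (hQ : IsPartn N S Q) : Hyp N S (Blk N S Q) t K := by
  have hS := (partn_ncard hf hQ).2
  refine ⟨?_, ?_, ?_⟩
  · intro P hP i j hc
    have hP' := partn_of_part hf hS hP
    exact blk_iff hQ hP' hP' Relation.ReflTransGen.refl i j hc
  · intro P R hP hR h hc
    have hP' := partn_of_part hf hS hP
    have hR' := partn_of_part hf hS hR
    exact blk_iff hQ hP' hR' (ht β N S P R hf hP' hR' h) 0 0 hc
  · intro M hM P R hP hR h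
    have hP' := partn_of_part hf hS hP
    have hR' := partn_of_part hf hS hR
    have h1 := hK M hM β N S P R hf hP' hR' h
    exact ⟨fun hc => blk_iff hQ hP' hR' h1 0 0 hc, fun hc => blk_iff hQ hR' hP' (rtg_symm h1) 0 0 hc⟩

theorem exists_enum {n : ℕ} (cell : Fin n → Fin 3 × Fin 3) {P Q : Fin 3 → Set β}
    (hP : IsPartn N S P) (hQ : IsPartn N S Q) (hS : S.Finite)
    (hcard : ∀ i j, (P i ∩ Q j).ncard =
      (Finset.univ.filter (fun x => cell x = (i, j))).card) :
    ∃ e : Fin n → β, Function.Injective e ∧ range e = S ∧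
      ∀ x, e x ∈ P (cell x).1 ∧ e x ∈ Q (cell x).2 := by
  classical
  have hex : ∀ y : S, ∃ p : Fin 3 × Fin 3, (y : β) ∈ P p.1 ∧ (y : β) ∈ Q p.2 := by
    rintro ⟨y, hy⟩
    have h1 : y ∈ ⋃ k, P k := by rw [hP.2]; exact hy
    have h2 : y ∈ ⋃ k, Q k := by rw [hQ.2]; exact hy
    obtain ⟨i, hi⟩ := mem_iUnion.1 h1
    obtain ⟨j, hj⟩ := mem_iUnion.1 h2
    exact ⟨(i, j), hi, hj⟩
  choose g hg using hex
  have hgu : ∀ (y : S) (p : Fin 3 × Fin 3), g y = p ↔ (y : β) ∈ P p.1 ∩ Q p.2 := by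
    intro y p
    constructor
    · rintro rfl
      exact hg y
    · rintro ⟨h1, h2⟩
      have h3 : (g y).1 = p.1 := by
        by_contra hne
        exact Set.disjoint_left.1 (hP.1.2 hne) (hg y).1 h1
      have h4 : (g y).2 = p.2 := by
        by_contra hne
        exact Set.disjoint_left.1 (hQ.1.2 hne) (hg y).2 h2
      exact Prod.ext h3 h4
  have hfin : Finite S := hS
  have hfe : ∀ c : Fin 3 × Fin 3, Nonempty ({x : Fin n // cell x = c} ≃ {y : S // g y = c}) := by
    intro c
    have h1 : Nat.card {y : S // g y = c} = (P c.1 ∩ Q c.2).ncard := by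
      rw [← Nat.card_coe_set_eq]
      refine Nat.card_congr ⟨fun y => ⟨y.1.1, (hgu _ _).1 y.2⟩, fun y => ⟨⟨y.1, ?_⟩, ?_⟩, ?_, ?_⟩
      · rw [← hP.2]
        exact mem_iUnion.2 ⟨_, y.2.1⟩
      · exact (hgu _ _).2 y.2
      · intro y
        rfl
      · intro y
        rfl
    have h2 : Nat.card {x : Fin n // cell x = c} =
        (Finset.univ.filter (fun x => cell x = c)).card := by
      rw [Nat.card_eq_fintype_card, Fintype.card_subtype]
    have h3 : Nat.card {x : Fin n // cell x = c} = Nat.card {y : S // g y = c} := by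
      rw [h1, h2, hcard c.1 c.2]
    exact Finite.card_eq.1 h3
  obtain ⟨eq⟩ : Nonempty (∀ c : Fin 3 × Fin 3, {x : Fin n // cell x = c} ≃ {y : S // g y = c}) :=
    ⟨fun c => (hfe c).some⟩
  refine ⟨fun x => ((Equiv.ofFiberEquiv eq x : S) : β), ?_, ?_, ?_⟩
  · intro x x' h
    exact (Equiv.ofFiberEquiv eq).injective (Subtype.ext h)
  · ext y
    constructor
    · rintro ⟨x, rfl⟩
      exact (Equiv.ofFiberEquiv eq x).2
    · intro hy
      refine ⟨(Equiv.ofFiberEquiv eq).symm ⟨y, hy⟩, ?_⟩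
      change ((Equiv.ofFiberEquiv eq ((Equiv.ofFiberEquiv eq).symm ⟨y, hy⟩) : S) : β) = y
      rw [Equiv.apply_symm_apply]
  · intro x
    have h1 : g (Equiv.ofFiberEquiv eq x) = cell x := Equiv.ofFiberEquiv_map eq x
    exact (hgu _ _).1 h1

/-- The masks of the rows and columns belong to `cell`, and the matrix `M` has the sizes of the
cells. -/
def Fits (D : Data) (cell : Fin D.n → Fin 3 × Fin 3) (M : Fin 3 → Fin 3 → ℕ) : Prop :=
  (∀ i, ∀ x : Fin D.n, Nat.testBit (D.row i) x = decide ((cell x).1 = i)) ∧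
    (∀ i, ∀ x : Fin D.n, Nat.testBit (D.col i) x = decide ((cell x).2 = i)) ∧
      ∀ i j, (Finset.univ.filter (fun x => cell x = (i, j))).card = M i j

instance (D : Data) (cell : Fin D.n → Fin 3 × Fin 3) (M : Fin 3 → Fin 3 → ℕ) :
    Decidable (Fits D cell M) := by
  unfold Fits
  infer_instance

theorem connPat_of_refuted {f : ℕ} {D : Data} (hR : Refuted.{u} D)
    {cell : Fin D.n → Fin 3 × Fin 3} {M : Fin 3 → Fin 3 → ℕ} (hfit : Fits D cell M)
    (hK : ∀ M ∈ D.K, ConnPat.{u} f M) (ht : ConnMax.{u} f D.t) : ConnPat.{u} f M := by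
  intro β N S P Q hf hP hQ hcard
  by_contra hcon
  obtain ⟨hfit1, hfit2, hfit3⟩ := hfit
  obtain ⟨e, he, hrange, hmem⟩ := exists_enum cell hP hQ (partn_ncard hf hQ).1
    (fun i j => by rw [hcard, hfit3])
  have hdP : ∀ {i i' : Fin 3} {y : β}, y ∈ P i → y ∈ P i' → i = i' := by
    intro i i' y h1 h2
    by_contra hne
    exact Set.disjoint_left.1 (hP.1.2 hne) h1 h2
  have hdQ : ∀ {i i' : Fin 3} {y : β}, y ∈ Q i → y ∈ Q i' → i = i' := by
    intro i i' y h1 h2
    by_contra hne
    exact Set.disjoint_left.1 (hQ.1.2 hne) h1 h2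
  have hXP : ∀ i, X e (D.row i) = P i := by
    intro i
    ext y
    constructor
    · rintro ⟨x, hx, rfl⟩
      change Nat.testBit (D.row i) x = true at hx
      rw [hfit1 i x] at hx
      have h1 : (cell x).1 = i := by simpa using hx
      rw [← h1]
      exact (hmem x).1
    · intro hy
      have h1 : y ∈ range e := by
        rw [hrange, ← hP.2]
        exact mem_iUnion.2 ⟨_, hy⟩
      obtain ⟨x, rfl⟩ := h1
      refine ⟨x, ?_, rfl⟩
      change Nat.testBit (D.row i) x = true
      rw [hfit1 i x]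
      simpa using hdP (hmem x).1 hy
  have hXQ : ∀ j, X e (D.col j) = Q j := by
    intro j
    ext y
    constructor
    · rintro ⟨x, hx, rfl⟩
      change Nat.testBit (D.col j) x = true at hx
      rw [hfit2 j x] at hx
      have h1 : (cell x).2 = j := by simpa using hx
      rw [← h1]
      exact (hmem x).2
    · intro hy
      have h1 : y ∈ range e := by
        rw [hrange, ← hQ.2]
        exact mem_iUnion.2 ⟨_, hy⟩
      obtain ⟨x, rfl⟩ := h1
      refine ⟨x, ?_, rfl⟩
      change Nat.testBit (D.col j) x = true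
      rw [hfit2 j x]
      simpa using hdQ (hmem x).2 hy
  refine hR β N e (Blk N S Q) he ?_ ?_ ?_
  · rw [hrange]
    exact blk_hyp hf hK ht hQ
  · intro i
    rw [hXP i]
    refine ⟨(hP.1.1 _).indep, ?_⟩
    rintro ⟨R, h1, k, h2⟩
    apply hcon
    exact rtg_symm (h1.tail ⟨partn_of_rtg hQ h1, hP, k, _, h2⟩)
  · intro j
    rw [hXQ j]
    exact ⟨(hQ.1.1 _).indep, Q, Relation.ReflTransGen.refl, j, rfl⟩

end Pool.Agent.WS
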