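import Pool.Agent.WS.Conn

/-!
# WS/Enum: enumeration of the intersection matrices
-/

set_option autoImplicit false

namespace Pool.Agent.WS

open Set Pool.Agent.WD

universe u

/-- The matrix with all row sums and column sums `f` and given upper left corner. -/
def mat (f a b c d : ℕ) : Fin 3 → Fin 3 → ℕ :=
  ![![a, b, f - a - b], ![c, d, f - c - d], ![f - a - c, f - b - d, a + b + c + d - f]]

/-- Every matrix with row sums and column sums `f` and largest entry `t` is in the list `L`, up to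
permutations of the rows and columns and transposition. -/
def Complete (f t : ℕ) (L : List (Fin 3 → Fin 3 → ℕ)) : Prop :=
  ∀ a b c d : Fin (t + 1), a.val + b.val ≤ f → c.val + d.val ≤ f → a.val + c.val ≤ f →
    b.val + d.val ≤ f → f ≤ a.val + b.val + c.val + d.val →
    (∀ i j, mat f a b c d i j ≤ t) → (∃ i j, mat f a b c d i j = t) →
    ∃ M ∈ L, ∃ s ∈ perms, ∃ r ∈ perms,
      (∀ i j, mat f a b c d (s i) (r j) = M i j) ∨ (∀ i j, mat f a b c d (s i) (r j) = M j i)

instance (f t : ℕ) (L : List (Fin 3 → Fin 3 → ℕ)) : Decidable (Complete f t L) := by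
  unfold Complete
  infer_instance

variable {β : Type u} {N : Matroid β} {S : Set β}

theorem row_sum {f : ℕ} (hf : N.eRank = f) {P Q : Fin 3 → Set β} (hP : IsPartn N S P)
    (hQ : IsPartn N S Q) (i : Fin 3) :
    (P i ∩ Q 0).ncard + (P i ∩ Q 1).ncard + (P i ∩ Q 2).ncard = f := by
  have h1 := base_ncard hf (hP.1.1 i)
  have hfin : ∀ j, (P i ∩ Q j).Finite := fun j => h1.1.subset inter_subset_left
  have hdis : ∀ j k, j ≠ k → Disjoint (P i ∩ Q j) (P i ∩ Q k) := by
    intro j k hjk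
    exact (hQ.1.2 hjk).mono inter_subset_right inter_subset_right
  rw [← ncard_three (hfin 0) (hfin 1) (hfin 2) (hdis _ _ (by decide)) (hdis _ _ (by decide))
    (hdis _ _ (by decide))]
  have h2 : P i ∩ Q 0 ∪ P i ∩ Q 1 ∪ P i ∩ Q 2 = P i := by
    rw [← inter_union_distrib_left, ← inter_union_distrib_left, ← iUnion_three, hQ.2, ← hP.2]
    exact inter_eq_left.2 (subset_iUnion _ _)
  rw [h2]
  exact h1.2

theorem perm_partn {P : Fin 3 → Set β} (hP : IsPartn N S P) {s : Fin 3 → Fin 3}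
    (hs : Function.Bijective s) : IsPartn N S (fun i => P (s i)) := by
  refine ⟨⟨fun i => hP.1.1 _, fun i j hij => hP.1.2 (fun h => hij (hs.1 h))⟩, ?_⟩
  rw [← hP.2]
  exact hs.2.iUnion_comp P

theorem perm_share {P : Fin 3 → Set β} (hP : IsPartn N S P) {s : Fin 3 → Fin 3}
    (hs : Function.Bijective s) : Share N S P (fun i => P (s i)) :=
  ⟨hP, perm_partn hP hs, s 0, 0, rfl⟩

theorem connMax_step {f t : ℕ} (hmax : ConnMax.{u} f (t + 1)) {L : List (Fin 3 → Fin 3 → ℕ)}
    (hc : Complete f t L) (hL : ∀ M ∈ L, ConnPat.{u} f M) : ConnMax.{u} f t := by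
  intro β N S P Q hf hP hQ hex
  by_cases hbig : ∃ i j, t + 1 ≤ (P i ∩ Q j).ncard
  · exact hmax β N S P Q hf hP hQ hbig
  have hle : ∀ i j, (P i ∩ Q j).ncard ≤ t := by
    intro i j
    by_contra h
    exact hbig ⟨i, j, by omega⟩
  have heq : ∃ i j, (P i ∩ Q j).ncard = t := by
    obtain ⟨i, j, h⟩ := hex
    exact ⟨i, j, le_antisymm (hle i j) h⟩
  have hr := row_sum hf hP hQ
  have hcl := row_sum hf hQ hP
  have hcl' : ∀ j, (P 0 ∩ Q j).ncard + (P 1 ∩ Q j).ncard + (P 2 ∩ Q j).ncard = f := by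
    intro j
    have h1 := hcl j
    rw [inter_comm, inter_comm (Q j) (P 1), inter_comm (Q j) (P 2)] at h1
    exact h1
  obtain ⟨m, hm⟩ : ∃ m : Fin 3 → Fin 3 → ℕ, ∀ i j, m i j = (P i ∩ Q j).ncard :=
    ⟨fun i j => (P i ∩ Q j).ncard, fun _ _ => rfl⟩
  simp only [← hm] at hr hcl' hle heq
  have hmat : ∀ i j, m i j = mat f (m 0 0) (m 0 1) (m 1 0) (m 1 1) i j := by
    have r0 := hr 0
    have r1 := hr 1
    have r2 := hr 2
    have c0 := hcl' 0
    have c1 := hcl' 1
    have c2 := hcl' 2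
    intro i j
    fin_cases i <;> fin_cases j
    · rfl
    · rfl
    · change m 0 2 = f - m 0 0 - m 0 1
      omega
    · rfl
    · rfl
    · change m 1 2 = f - m 1 0 - m 1 1
      omega
    · change m 2 0 = f - m 0 0 - m 1 0
      omega
    · change m 2 1 = f - m 0 1 - m 1 1
      omega
    · change m 2 2 = m 0 0 + m 0 1 + m 1 0 + m 1 1 - f
      omega
  have r0 := hr 0
  have r1 := hr 1
  have r2 := hr 2
  have c0 := hcl' 0
  have c1 := hcl' 1
  have c2 := hcl' 2
  have hce := hc ⟨m 0 0, Nat.lt_succ_of_le (hle 0 0)⟩ ⟨m 0 1, Nat.lt_succ_of_le (hle 0 1)⟩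
    ⟨m 1 0, Nat.lt_succ_of_le (hle 1 0)⟩ ⟨m 1 1, Nat.lt_succ_of_le (hle 1 1)⟩
    (by change m 0 0 + m 0 1 ≤ f; omega) (by change m 1 0 + m 1 1 ≤ f; omega)
    (by change m 0 0 + m 1 0 ≤ f; omega) (by change m 0 1 + m 1 1 ≤ f; omega)
    (by change f ≤ m 0 0 + m 0 1 + m 1 0 + m 1 1; omega)
    (by
      intro i j
      change mat f (m 0 0) (m 0 1) (m 1 0) (m 1 1) i j ≤ t
      rw [← hmat]
      exact hle i j)
    (by
      obtain ⟨i, j, h⟩ := heq
      refine ⟨i, j, ?_⟩
      change mat f (m 0 0) (m 0 1) (m 1 0) (m 1 1) i j = t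
      rw [← hmat]
      exact h)
  obtain ⟨M, hM, s, hs, r, hr', h1⟩ := hce
  change (∀ i j, mat f (m 0 0) (m 0 1) (m 1 0) (m 1 1) (s i) (r j) = M i j) ∨
    (∀ i j, mat f (m 0 0) (m 0 1) (m 1 0) (m 1 1) (s i) (r j) = M j i) at h1
  simp only [← hmat] at h1
  have hsb := perms_bij s hs
  have hrb := perms_bij r hr'
  have hP' := perm_partn hP hsb
  have hQ' := perm_partn hQ hrb
  refine Relation.ReflTransGen.head (perm_share hP hsb)
    (Relation.ReflTransGen.tail ?_ (share_symm (perm_share hQ hrb)))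
  rcases h1 with h1 | h1
  · refine hL M hM β N S _ _ hf hP' hQ' ?_
    intro i j
    rw [← h1, hm]
  · refine rtg_symm (hL M hM β N S _ _ hf hQ' hP' ?_)
    intro i j
    rw [← h1, hm, inter_comm]

/-- If all pairs with an intersection of size at least `t` are connected, where `3 * (t - 1) < f`,
then all pairs are connected. -/
theorem conn_all {f t : ℕ} (h : ConnMax.{u} f (t + 1)) (ht : 3 * t < f) (hf : N.eRank = f)
    {P Q : Fin 3 → Set β} (hP : IsPartn N S P) (hQ : IsPartn N S Q) :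
    Relation.ReflTransGen (Share N S) P Q := by
  refine h β N S P Q hf hP hQ ?_
  by_contra hcon
  have h1 : ∀ i j, (P i ∩ Q j).ncard ≤ t := by
    intro i j
    by_contra h2
    exact hcon ⟨i, j, by omega⟩
  have h2 := row_sum hf hP hQ 0
  have h3 := h1 0 0
  have h4 := h1 0 1
  have h5 := h1 0 2
  omega

end Pool.Agent.WS
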