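import Pool.Agent.WS.Sem

/-!
# WS/Pattern: from certificates to statements on matroids
-/

set_option autoImplicit false

namespace Pool.Agent.WS

open Set

universe u

/-- Conditions on the data of a pattern. -/
def Data.OK (D : Data) : Prop :=
  (∀ i, D.row i < 32768) ∧ (∀ i, D.col i < 32768) ∧
    D.row 0 &&& D.row 1 = 0 ∧ D.full ^^^ (D.row 0 ||| D.row 1) = D.row 2 ∧
    D.col 0 &&& D.col 1 = 0 ∧ D.full ^^^ (D.col 0 ||| D.col 1) = D.col 2

instance (D : Data) : Decidable D.OK := by
  unfold Data.OK
  infer_instance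

/-- No admissible colouring has rows without the colour and columns with the colour. -/
def Refuted (D : Data) : Prop :=
  ∀ (β : Type u) (N : Matroid β) (e : Fin D.n → β) (Col : Set β → Prop), Function.Injective e →
    Hyp N (range e) Col D.t D.K → (∀ i, N.Indep (X e (D.row i)) ∧ ¬ Col (X e (D.row i))) →
      (∀ i, N.Indep (X e (D.col i)) ∧ Col (X e (D.col i))) → False

/-- All clauses of descriptors hold. -/
def Sound (D : Data) (V : ℕ → Prop) : Prop :=
  ∀ d c, clause D d = some c → ∃ l ∈ c, TT V l

/-- The input clauses with numbers from `j` to `k - 1` hold. -/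
def Inp (D : Data) (vt t : Tree) (j k : ℕ) : Prop :=
  ∀ V : ℕ → Prop, Sound D V → ∀ i, j ≤ i → i < k →
    Holds (Val (TT fun v => V (vt.get v))) 64 (t.get i)

/-- The clauses with numbers less than `k` follow from those with numbers less than `m`. -/
def Learn (t : Tree) (m k : ℕ) : Prop :=
  ∀ T : ℕ → Prop, (∀ l, T (l ^^^ 1) ↔ ¬ T l) → (∀ j < m, Holds (Val T) 64 (t.get j)) →
    ∀ j < k, Holds (Val T) 64 (t.get j)

theorem learn_of_check {t : Tree} {m l k : ℕ} {hs : List ℕ} (hc : checkAll t hs m = true)
    (hl : hs.length = l) (hk : m + l = k) : Learn t m k := by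
  intro T hT ht
  rw [← hk, ← hl]
  exact learned hT hc ht

theorem Learn.trans {t : Tree} {a b c : ℕ} (h1 : Learn t a b) (h2 : Learn t b c) :
    Learn t a c := fun T hT ht => h2 T hT (h1 T hT ht)

theorem Inp.trans {D : Data} {vt t : Tree} {a b c : ℕ} (h1 : Inp D vt t a b)
    (h2 : Inp D vt t b c) : Inp D vt t a c := by
  intro V hV i hi hi'
  rcases Nat.lt_or_ge i b with h | h
  · exact h1 V hV i hi h
  · exact h2 V hV i h hi'

theorem inp_of_check {D : Data} {vt t : Tree} {ds : List ℕ} {l : ℕ} :
    ∀ {j k : ℕ}, checkInp D vt t ds j = true → ds.length = l → j + l = k → Inp D vt t j k := by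
  intro j k h hl hk V hV
  rw [← hk, ← hl]
  clear hk hl
  induction ds generalizing j with
  | nil =>
    intro i h1 h2
    simp only [List.length_nil] at h2
    omega
  | cons d ds ih =>
    intro i h1 h2
    unfold checkInp at h
    rcases hc : clause D d with _ | c
    · rw [hc] at h
      exact absurd h (by simp)
    · rw [hc] at h
      rw [Bool.and_eq_true, Bool.and_eq_true] at h
      obtain ⟨h0, h3, h4⟩ := h
      rcases eq_or_lt_of_le h1 with h5 | h5
      · rw [← h5]
        exact matchC_sound 64 c _ (Nat.le_of_ble_eq_true h0) h3 (hV d c hc)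
      · refine ih h4 i (by omega) ?_
        rw [List.length_cons] at h2
        omega

variable {β : Type u} {N : Matroid β} {Col : Set β → Prop}

theorem cons_three {A : Fin 3 → ℕ} {n : ℕ} {e : Fin n → β} :
    ![X e (A 0), X e (A 1), X e (A 2)] = fun i => X e (A i) := by
  funext i
  fin_cases i <;> rfl

theorem sem_blocks {D : Data} {e : Fin D.n → β} (he : Function.Injective e) {B : Fin 3 → ℕ}
    (h0 : B 0 &&& B 1 = 0) (h1 : D.full ^^^ (B 0 ||| B 1) = B 2)
    (hI : ∀ i, N.Indep (X e (B i))) : Part N (range e) (fun i => X e (B i)) := by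
  have hfull : ∀ x, x < D.n → Nat.testBit D.full x = true := by
    intro x hx
    unfold Data.full
    rw [Nat.testBit_two_pow_sub_one]
    simpa using hx
  have h2 := part_mask he hfull h0 (hI 0) (hI 1) (by rw [h1]; exact hI 2)
  rw [h1, cons_three] at h2
  exact h2

theorem clause_sound {D : Data} (hD : D.OK) {e : Fin D.n → β} (he : Function.Injective e)
    (hH : Hyp N (range e) Col D.t D.K)
    (hrow : ∀ i, N.Indep (X e (D.row i)) ∧ ¬ Col (X e (D.row i)))
    (hcol : ∀ i, N.Indep (X e (D.col i)) ∧ Col (X e (D.col i))) :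
    Sound D (PV N (range e) e Col) := by
  intro d c h
  obtain ⟨o1, o2, o3, o4, o5, o6⟩ := hD
  have hfull : ∀ x, x < D.n → Nat.testBit D.full x = true := by
    intro x hx
    unfold Data.full
    rw [Nat.testBit_two_pow_sub_one]
    simpa using hx
  have hprow : Part N (range e) (fun i => X e (D.row i)) := sem_blocks he o3 o4 fun i => (hrow i).1
  have hpcol : Part N (range e) (fun i => X e (D.col i)) := sem_blocks he o5 o6 fun i => (hcol i).1
  unfold clause at h
  simp only at h
  split at h
  · split_ifs at h with h1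
    rw [Option.some.injEq] at h
    subst h
    by_cases h2 : N.Indep (X e (d / 8 / 16 ||| 1 <<< (d / 8 % 16)))
    · exact ⟨2 * (d / 8 / 16), by simp, (tt_pI h1.1).2 (h2.subset (X_mono_insert _ _))⟩
    · exact ⟨_, by simp, (tt_nI h1.2).2 h2⟩
  · split_ifs at h with h1
    rw [Option.some.injEq] at h
    subst h
    obtain ⟨g1, g2, g3, g4, g5, g6, g7, g10, g11, g12, g13⟩ := h1
    by_cases k1 : N.Indep (X e (d / 8 / 4096 ||| 1 <<< (d / 8 % 16)))
    · by_cases k2 : N.Indep (X e ((d / 8 / 4096 ||| 1 <<< (d / 8 / 16 % 16)) |||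
          1 <<< (d / 8 / 256 % 16)))
      · rcases sem_aug he g5 g6 g7 g10 g11 g12 g13 k1 k2 with k3 | k3
        · exact ⟨_, by simp, (tt_pI g3).2 k3⟩
        · exact ⟨2 * ((d / 8 / 4096 ||| 1 <<< (d / 8 % 16)) ||| 1 <<< (d / 8 / 256 % 16)),
            by simp, (tt_pI g4).2 k3⟩
      · exact ⟨2 * ((d / 8 / 4096 ||| 1 <<< (d / 8 / 16 % 16)) |||
          1 <<< (d / 8 / 256 % 16)) + 1, by simp, (tt_nI g2).2 k2⟩
    · exact ⟨2 * (d / 8 / 4096 ||| 1 <<< (d / 8 % 16)) + 1, by simp, (tt_nI g1).2 k1⟩
  · split_ifs at h with h1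
    rw [Option.some.injEq] at h
    subst h
    obtain ⟨g1, g3, g4⟩ := h1
    have g5 : d / 8 % 32768 < 32768 := by omega
    by_cases k1 : N.Indep (X e (d / 8 % 32768))
    · by_cases k2 : N.Indep (X e (d / 8 / 32768))
      · by_cases k3 : N.Indep (X e (D.full ^^^ (d / 8 % 32768 ||| d / 8 / 32768)))
        · by_cases k4 : Col (X e (d / 8 % 32768))
          · exact ⟨2 * (32768 + d / 8 / 32768), by simp,
              (tt_pC g3).2 (hH.col _ (part_mask he hfull g1 k1 k2 k3) 0 1 k4)⟩
          · exact ⟨2 * (32768 + d / 8 % 32768) + 1, by simp, (tt_nC g5).2 k4⟩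
        · exact ⟨2 * (D.full ^^^ (d / 8 % 32768 ||| d / 8 / 32768)) + 1, by simp,
            (tt_nI g4).2 k3⟩
      · exact ⟨2 * (d / 8 / 32768) + 1, by simp, (tt_nI g3).2 k2⟩
    · exact ⟨2 * (d / 8 % 32768) + 1, by simp, (tt_nI g5).2 k1⟩
  · split_ifs at h with h1
    rw [Option.some.injEq] at h
    subst h
    have h2 : d / 8 ∈ D.units := by simpa using h1
    refine ⟨d / 8, by simp, ?_⟩
    unfold Data.units at h2
    simp only [List.mem_cons, List.not_mem_nil, or_false] at h2
    rcases h2 with h2 | h2 | h2 | h2 | h2 | h2 | h2 | h2 | h2 | h2 | h2 | h2 <;> rw [h2]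
    · exact (tt_pI (o1 _)).2 (hrow _).1
    · exact (tt_pI (o1 _)).2 (hrow _).1
    · exact (tt_pI (o1 _)).2 (hrow _).1
    · exact (tt_pI (o2 _)).2 (hcol _).1
    · exact (tt_pI (o2 _)).2 (hcol _).1
    · exact (tt_pI (o2 _)).2 (hcol _).1
    · exact (tt_nC (o1 _)).2 (hrow _).2
    · exact (tt_nC (o1 _)).2 (hrow _).2
    · exact (tt_nC (o1 _)).2 (hrow _).2
    · exact (tt_pC (o2 _)).2 (hcol _).2
    · exact (tt_pC (o2 _)).2 (hcol _).2
    · exact (tt_pC (o2 _)).2 (hcol _).2
  · split_ifs at h with h1
    rw [Option.some.injEq] at h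
    subst h
    obtain ⟨g1, g2, g3⟩ := h1
    by_cases k1 : N.Indep (X e (d / 8 / 8))
    · have hb : N.Indep (X e (D.block (d / 8 % 8))) := by
        unfold Data.block
        have hk : d / 8 % 8 < 8 := Nat.mod_lt _ (by decide)
        generalize d / 8 % 8 = k at hk ⊢
        have h0 : X e 0 = ∅ := by
          ext y
          simp [X]
        have h0' : N.Indep (X e 0) := by
          rw [h0]
          exact N.empty_indep
        match k, hk with
        | 0, _ => exact (hrow 0).1
        | 1, _ => exact (hrow 1).1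
        | 2, _ => exact (hrow 2).1
        | 3, _ => exact (hcol 0).1
        | 4, _ => exact (hcol 1).1
        | 5, _ => exact (hcol 2).1
        | 6, _ => exact h0'
        | 7, _ => exact h0'
      generalize D.block (d / 8 % 8) = b at g1 hb
      have hcard : (X e (d / 8 / 8)).encard < (X e b).encard := by
        have f1 : (X e (d / 8 / 8)).Finite := (Set.toFinite _).image e
        have f2 : (X e b).Finite := (Set.toFinite _).image e
        rw [← f1.cast_ncard_eq, ← f2.cast_ncard_eq, X_ncard he, X_ncard he]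
        exact_mod_cast g1
      obtain ⟨y, ⟨⟨x, hx, rfl⟩, hy2⟩, hy3⟩ := k1.augment hb hcard
      have hx2 : Nat.testBit (d / 8 / 8) x = false := by
        rw [mem_X he] at hy2
        simpa using hy2
      have hlt : (d / 8 / 8 ||| 1 <<< (x : ℕ)) < 32768 := by
        have h3 : D.n ≤ 15 := by
          unfold Data.full at g3
          by_contra hcon
          have h4 : 2 ^ 16 ≤ 2 ^ D.n := Nat.pow_le_pow_right (by decide) (by omega)
          have h5 : (2 : ℕ) ^ 16 = 65536 := by decide
          omega
        have h4 : (1 <<< (x : ℕ)) < 2 ^ 15 := by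
          rw [Nat.one_shiftLeft]
          exact Nat.pow_lt_pow_right (by decide) (by omega)
        exact Nat.or_lt_two_pow g2 h4
      refine ⟨2 * (d / 8 / 8 ||| 1 <<< (x : ℕ)), ?_, ?_⟩
      · refine List.mem_cons_of_mem _ (List.mem_filterMap.2 ⟨x, ?_, ?_⟩)
        · exact List.mem_range.2 x.2
        · rw [if_pos ⟨hx, hx2⟩]
      · refine (tt_pI hlt).2 ?_
        rw [X_insert x.2]
        exact hy3
    · exact ⟨2 * (d / 8 / 8) + 1, by simp, (tt_nI g2).2 k1⟩
  · split at h
    · exact absurd h (by simp)
    · rename_i M hM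
      generalize hB : (if d / 8 / 1073741824 % 2 = 0 then D.row else D.col) = B at h
      split_ifs at h with h1
      rw [Option.some.injEq] at h
      subst h
      obtain ⟨g1, g2, g3, g4, g5⟩ := h1
      have hM' : M ∈ D.K := List.mem_of_getElem? hM
      have hs := perms_getD g1
      have ht := perms_getD g2
      have y1 : d / 8 % 32768 < 32768 := by omega
      have y2 : d / 8 / 32768 % 32768 < 32768 := by omega
      generalize d / 8 / 1073741824 = q at *
      generalize d / 8 % 32768 = x at *
      generalize d / 8 / 32768 % 32768 = y at *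
      generalize perms.getD (q / 2 % 8) id = s at *
      generalize perms.getD (q / 16 % 8) id = t at *
      by_cases k1 : N.Indep (X e x)
      · by_cases k2 : N.Indep (X e y)
        · by_cases k3 : N.Indep (X e (D.full ^^^ (x ||| y)))
          · have hA : Part N (range e)
                (fun i => X e ((![x, y, D.full ^^^ (x ||| y)] : Fin 3 → ℕ) i)) := by
              rw [← cons_three]
              exact part_mask he hfull g3 k1 k2 k3
            have hAs := part_perm hA hs
            by_cases h2 : q % 2 = 0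
            · rw [if_pos h2] at hB
              rw [← hB] at g5
              have hBt := part_perm hprow ht
              have h3 := hH.known M hM' _ _ hAs hBt (by
                intro i j
                rw [← X_inter he, X_ncard he]
                exact g5 i j)
              refine ⟨2 * (32768 + x) + 1 - q % 2, by simp, ?_⟩
              rw [h2, Nat.sub_zero, tt_nC y1]
              intro h4
              exact (hrow (t 0)).2 (h3.1 (hH.col _ hA 0 (s 0) h4))
            · rw [if_neg h2] at hB
              rw [← hB] at g5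
              have h2' : q % 2 = 1 := by omega
              have hBt := part_perm hpcol ht
              have h3 := hH.known M hM' _ _ hAs hBt (by
                intro i j
                rw [← X_inter he, X_ncard he]
                exact g5 i j)
              refine ⟨2 * (32768 + x) + 1 - q % 2, by simp, ?_⟩
              rw [h2', Nat.add_sub_cancel, tt_pC y1]
              exact hH.col _ hA (s 0) 0 (h3.2 (hcol (t 0)).2)
          · exact ⟨2 * (D.full ^^^ (x ||| y)) + 1, by simp, (tt_nI g4).2 k3⟩
        · exact ⟨2 * y + 1, by simp, (tt_nI y2).2 k2⟩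
      · exact ⟨2 * x + 1, by simp, (tt_nI y1).2 k1⟩
  · split_ifs at h with h1
    rw [Option.some.injEq] at h
    subst h
    obtain ⟨g1, g3, g4⟩ := h1
    have g5 : d / 8 % 32768 < 32768 := by omega
    by_cases k1 : N.Indep (X e (d / 8 % 32768))
    · by_cases k2 : N.Indep (X e (d / 8 / 32768))
      · by_cases k3 : N.Indep (X e (D.full ^^^ (d / 8 % 32768 ||| d / 8 / 32768)))
        · exact ⟨2 * (65536 + d / 8 % 32768), by simp,
            (tt_pG _).2 ⟨_, part_mask he hfull g1 k1 k2 k3, 0, rfl⟩⟩
        · exact ⟨2 * (D.full ^^^ (d / 8 % 32768 ||| d / 8 / 32768)) + 1, by simp,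
            (tt_nI g4).2 k3⟩
      · exact ⟨2 * (d / 8 / 32768) + 1, by simp, (tt_nI g3).2 k2⟩
    · exact ⟨2 * (d / 8 % 32768) + 1, by simp, (tt_nI g5).2 k1⟩
  · split_ifs at h with h1
    rw [Option.some.injEq] at h
    subst h
    obtain ⟨g1, g2⟩ := h1
    have g5 : d / 8 % 32768 < 32768 := by omega
    by_cases k1 : Good N (range e) (X e (d / 8 % 32768))
    · by_cases k2 : Good N (range e) (X e (d / 8 / 32768))
      · by_cases k4 : Col (X e (d / 8 % 32768))
        · refine ⟨2 * (32768 + d / 8 / 32768), by simp, (tt_pC g2).2 ?_⟩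
          obtain ⟨P, hP, i, hi⟩ := k1
          obtain ⟨Q, hQ, j, hj⟩ := k2
          rw [← hi] at k4
          rw [← hj]
          refine hH.col Q hQ 0 j (hH.large P Q hP hQ ⟨i, j, ?_⟩ (hH.col P hP i 0 k4))
          rw [hi, hj, ← X_inter he, X_ncard he]
          exact g1
        · exact ⟨2 * (32768 + d / 8 % 32768) + 1, by simp, (tt_nC g5).2 k4⟩
      · exact ⟨2 * (65536 + d / 8 / 32768) + 1, by simp, (tt_nG _).2 k2⟩
    · exact ⟨2 * (65536 + d / 8 % 32768) + 1, by simp, (tt_nG _).2 k1⟩

theorem refuted_of_learn {D : Data} (hD : D.OK) {vt t : Tree} {m k : ℕ} (h1 : Inp D vt t 0 m)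
    (h2 : Learn t m (k + 1)) (h3 : t.get k = 0) : Refuted.{u} D := by
  intro β N e Col he hH hrow hcol
  have h4 := h2 _ (fun l => tt_xor l)
    (fun j hj => h1 _ (clause_sound hD he hH hrow hcol) j (Nat.zero_le _) hj) k (Nat.lt_succ_self _)
  rw [h3] at h4
  exact not_holds_zero h4

end Pool.Agent.WS
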