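import Pool.Agent.WS.Enum
import Pool.Agent.WS.C32
import Pool.Agent.WS.C31
import Pool.Agent.WS.C30

/-!
# WS/Rank3: three bases in rank 3
-/

set_option autoImplicit false
set_option maxRecDepth 100000

namespace Pool.Agent.WS.Rank3

open Set Pool.Agent.WD

universe u

abbrev M0 : Fin 3 → Fin 3 → ℕ := ![![1, 1, 1], ![1, 1, 1], ![1, 1, 1]]

abbrev M1 : Fin 3 → Fin 3 → ℕ := ![![2, 1, 0], ![1, 0, 2], ![0, 2, 1]]

abbrev M2 : Fin 3 → Fin 3 → ℕ := ![![2, 1, 0], ![1, 1, 1], ![0, 1, 2]]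

def cell2 : Fin 9 → Fin 3 × Fin 3 :=
  ![(0, 0), (0, 0), (0, 1), (1, 0), (1, 1), (1, 2), (2, 1), (2, 2), (2, 2)]

theorem cp2 : ConnPat.{u} 3 M2 :=
  connPat_of_refuted (D := C32.D) C32.refuted (cell := cell2) (by decide +kernel)
    (List.forall_mem_nil _)
    (connMax_self 3)

def cell1 : Fin 9 → Fin 3 × Fin 3 :=
  ![(0, 0), (0, 0), (0, 1), (1, 0), (1, 2), (1, 2), (2, 1), (2, 1), (2, 2)]

theorem cp1 : ConnPat.{u} 3 M1 :=
  connPat_of_refuted (D := C31.D) C31.refuted (cell := cell1) (by decide +kernel)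
    (List.forall_mem_cons.2 ⟨cp2, List.forall_mem_nil _⟩)
    (connMax_self 3)

theorem complete2 : Complete 3 2 [M1, M2] := by decide +kernel

theorem cm2 : ConnMax.{u} 3 2 :=
  connMax_step (connMax_self 3) complete2
    (List.forall_mem_cons.2 ⟨cp1, List.forall_mem_cons.2 ⟨cp2, List.forall_mem_nil _⟩⟩)

def cell0 : Fin 9 → Fin 3 × Fin 3 :=
  ![(0, 0), (0, 1), (0, 2), (1, 0), (1, 1), (1, 2), (2, 0), (2, 1), (2, 2)]

theorem cp0 : ConnPat.{u} 3 M0 :=
  connPat_of_refuted (D := C30.D) C30.refuted (cell := cell0) (by decide +kernel)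
    (List.forall_mem_nil _)
    cm2

theorem complete1 : Complete 3 1 [M0] := by decide +kernel

theorem cm1 : ConnMax.{u} 3 1 :=
  connMax_step cm2 complete1
    (List.forall_mem_cons.2 ⟨cp0, List.forall_mem_nil _⟩)

theorem conn {β : Type u} {N : Matroid β} {S : Set β} (hf : N.eRank = (3 : ℕ))
    {P Q : Fin 3 → Set β} (hP : IsPartn N S P) (hQ : IsPartn N S Q) :
    Relation.ReflTransGen (Share N S) P Q :=
  conn_all (t := 0) cm1 (by decide) hf hP hQ

end Pool.Agent.WS.Rank3
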