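import Pool.Agent.WS.Input
import Mathlib.Combinatorics.Matroid.Rank.ENat
import Mathlib.Data.Set.Card
import Mathlib.Tactic.FinCases

/-!
# WS/Sem: the input clauses hold
-/

set_option autoImplicit false

namespace Pool.Agent.WS

open Set

variable {β : Type*}

/-- The elements of a mask. -/
def X {n : ℕ} (e : Fin n → β) (m : ℕ) : Set β := e '' {x | Nat.testBit m x = true}

/-- Partitions into three independent sets. -/
def Part (N : Matroid β) (S : Set β) (P : Fin 3 → Set β) : Prop :=
  (∀ i, N.Indep (P i)) ∧ Pairwise (Function.onFun Disjoint P) ∧ (⋃ i, P i) = S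

/-- `A` is a block of a partition. -/
def Good (N : Matroid β) (S : Set β) (A : Set β) : Prop := ∃ P, Part N S P ∧ ∃ i, P i = A

/-- The meaning of the variables. -/
def PV (N : Matroid β) (S : Set β) {n : ℕ} (e : Fin n → β) (Col : Set β → Prop) (v : ℕ) : Prop :=
  if v < 32768 then N.Indep (X e v) else
    if v < 65536 then Col (X e (v - 32768)) else Good N S (X e (v - 65536))

/-- The hypotheses on the colours. -/
structure Hyp (N : Matroid β) (S : Set β) (Col : Set β → Prop) (t : ℕ)
    (K : List (Fin 3 → Fin 3 → ℕ)) : Prop where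
  /-- the colour of the blocks of a partition -/
  col : ∀ P, Part N S P → ∀ i j, Col (P i) → Col (P j)
  /-- partitions with a large intersection of blocks -/
  large : ∀ P Q, Part N S P → Part N S Q → (∃ i j, t ≤ (P i ∩ Q j).ncard) → Col (P 0) → Col (Q 0)
  /-- partitions with a known position -/
  known : ∀ M ∈ K, ∀ P Q, Part N S P → Part N S Q → (∀ i j, (P i ∩ Q j).ncard = M i j) →
    (Col (P 0) ↔ Col (Q 0))

variable {N : Matroid β} {n : ℕ} {e : Fin n → β} {Col : Set β → Prop} {S : Set β}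

theorem tt_pI {m : ℕ} (hm : m < 32768) : TT (PV N S e Col) (2 * m) ↔ N.Indep (X e m) := by
  unfold TT PV
  have h1 : 2 * m % 2 = 0 := by omega
  have h2 : 2 * m / 2 = m := by omega
  rw [if_pos h1, h2, if_pos hm]

theorem tt_nI {m : ℕ} (hm : m < 32768) : TT (PV N S e Col) (2 * m + 1) ↔ ¬ N.Indep (X e m) := by
  unfold TT PV
  have h1 : ¬ (2 * m + 1) % 2 = 0 := by omega
  have h2 : (2 * m + 1) / 2 = m := by omega
  rw [if_neg h1, h2, if_pos hm]

theorem tt_pC {m : ℕ} (hm : m < 32768) : TT (PV N S e Col) (2 * (32768 + m)) ↔ Col (X e m) := by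
  unfold TT PV
  have h1 : (2 * (32768 + m)) % 2 = 0 := by omega
  have h2 : (2 * (32768 + m)) / 2 = 32768 + m := by omega
  have h3 : ¬ 32768 + m < 32768 := by omega
  have h4 : 32768 + m < 65536 := by omega
  rw [if_pos h1, h2, if_neg h3, if_pos h4, Nat.add_sub_cancel_left]

theorem tt_nC {m : ℕ} (hm : m < 32768) :
    TT (PV N S e Col) (2 * (32768 + m) + 1) ↔ ¬ Col (X e m) := by
  unfold TT PV
  have h1 : ¬ (2 * (32768 + m) + 1) % 2 = 0 := by omega
  have h2 : (2 * (32768 + m) + 1) / 2 = 32768 + m := by omega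
  have h3 : ¬ 32768 + m < 32768 := by omega
  have h4 : 32768 + m < 65536 := by omega
  rw [if_neg h1, h2, if_neg h3, if_pos h4, Nat.add_sub_cancel_left]

theorem tt_pG (m : ℕ) : TT (PV N S e Col) (2 * (65536 + m)) ↔ Good N S (X e m) := by
  unfold TT PV
  have h1 : (2 * (65536 + m)) % 2 = 0 := by omega
  have h2 : (2 * (65536 + m)) / 2 = 65536 + m := by omega
  have h3 : ¬ 65536 + m < 32768 := by omega
  have h4 : ¬ 65536 + m < 65536 := by omega
  rw [if_pos h1, h2, if_neg h3, if_neg h4, Nat.add_sub_cancel_left]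

theorem tt_nG (m : ℕ) : TT (PV N S e Col) (2 * (65536 + m) + 1) ↔ ¬ Good N S (X e m) := by
  unfold TT PV
  have h1 : ¬ (2 * (65536 + m) + 1) % 2 = 0 := by omega
  have h2 : (2 * (65536 + m) + 1) / 2 = 65536 + m := by omega
  have h3 : ¬ 65536 + m < 32768 := by omega
  have h4 : ¬ 65536 + m < 65536 := by omega
  rw [if_neg h1, h2, if_neg h3, if_neg h4, Nat.add_sub_cancel_left]

theorem testBit_insert (m a x : ℕ) :
    Nat.testBit (m ||| (1 <<< a)) x = true ↔ Nat.testBit m x = true ∨ x = a := by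
  rw [Nat.testBit_or, Bool.or_eq_true, Nat.testBit_shiftLeft, Bool.and_eq_true,
    decide_eq_true_eq]
  constructor
  · rintro (h | ⟨h1, h2⟩)
    · exact Or.inl h
    · rw [Nat.testBit_one_eq_true_iff_self_eq_zero] at h2
      exact Or.inr (by omega)
  · rintro (h | rfl)
    · exact Or.inl h
    · exact Or.inr ⟨le_refl _, by simp⟩

theorem X_insert {m a : ℕ} (ha : a < n) : X e (m ||| (1 <<< a)) = insert (e ⟨a, ha⟩) (X e m) := by
  ext y
  simp only [X, mem_image, mem_ofPred_eq, mem_insert_iff]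
  constructor
  · rintro ⟨x, hx, rfl⟩
    rcases (testBit_insert _ _ _).1 hx with h | h
    · exact Or.inr ⟨x, h, rfl⟩
    · left
      congr 1
      exact Fin.ext h
  · rintro (rfl | ⟨x, hx, rfl⟩)
    · exact ⟨⟨a, ha⟩, (testBit_insert _ _ _).2 (Or.inr rfl), rfl⟩
    · exact ⟨x, (testBit_insert _ _ _).2 (Or.inl hx), rfl⟩

theorem X_mono_insert (m a : ℕ) : X e m ⊆ X e (m ||| (1 <<< a)) := by
  rintro y ⟨x, hx, rfl⟩
  exact ⟨x, (testBit_insert _ _ _).2 (Or.inl hx), rfl⟩

theorem mem_X (he : Function.Injective e) {m : ℕ} {x : Fin n} :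
    e x ∈ X e m ↔ Nat.testBit m x = true := by
  constructor
  · rintro ⟨y, hy, hye⟩
    rw [← he hye]
    exact hy
  · intro h
    exact ⟨x, h, rfl⟩

theorem notMem_X (he : Function.Injective e) {m a : ℕ} (ha : a < n)
    (hm : Nat.testBit m a = false) : e ⟨a, ha⟩ ∉ X e m := by
  rw [mem_X he]
  change ¬ Nat.testBit m a = true
  rw [hm]
  simp

theorem X_inter (he : Function.Injective e) (a b : ℕ) : X e (a &&& b) = X e a ∩ X e b := by
  ext y
  constructor
  · rintro ⟨x, hx, rfl⟩
    change Nat.testBit (a &&& b) x = true at hx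
    rw [Nat.testBit_and, Bool.and_eq_true] at hx
    exact ⟨⟨x, hx.1, rfl⟩, ⟨x, hx.2, rfl⟩⟩
  · rintro ⟨⟨x, hx, rfl⟩, h2⟩
    rw [mem_X he] at h2
    refine ⟨x, ?_, rfl⟩
    change Nat.testBit (a &&& b) x = true
    rw [Nat.testBit_and, Bool.and_eq_true]
    exact ⟨hx, h2⟩

theorem sem_aug (he : Function.Injective e) {m a b c : ℕ} (ha : a < n) (hb : b < n) (hc : c < n)
    (hbc : b ≠ c) (hma : Nat.testBit m a = false)
    (hmb : Nat.testBit m b = false) (hmc : Nat.testBit m c = false)
    (h1 : N.Indep (X e (m ||| (1 <<< a))))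
    (h2 : N.Indep (X e ((m ||| (1 <<< b)) ||| (1 <<< c)))) :
    N.Indep (X e ((m ||| (1 <<< a)) ||| (1 <<< b))) ∨
      N.Indep (X e ((m ||| (1 <<< a)) ||| (1 <<< c))) := by
  rw [X_insert hb, X_insert hc]
  rw [X_insert ha] at h1 ⊢
  rw [X_insert hc, X_insert hb] at h2
  have hfin : (X e m).Finite := (Set.toFinite _).image e
  have hna : e ⟨a, ha⟩ ∉ X e m := notMem_X he ha hma
  have hnb : e ⟨b, hb⟩ ∉ X e m := notMem_X he hb hmb
  have hnc : e ⟨c, hc⟩ ∉ insert (e ⟨b, hb⟩) (X e m) := by
    rintro (h | h)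
    · exact hbc (Fin.mk.inj_iff.1 (he h)).symm
    · exact notMem_X he hc hmc h
  have hcard : (insert (e ⟨a, ha⟩) (X e m)).encard <
      (insert (e ⟨c, hc⟩) (insert (e ⟨b, hb⟩) (X e m))).encard := by
    rw [encard_insert_of_notMem hna, encard_insert_of_notMem hnc, encard_insert_of_notMem hnb]
    have h3 : (X e m).encard ≠ ⊤ := hfin.encard_lt_top.ne
    obtain ⟨k, hk⟩ := ENat.ne_top_iff_exists.1 h3
    rw [← hk]
    norm_cast
    omega
  obtain ⟨y, ⟨hy1, hy2⟩, hy3⟩ := h1.augment h2 hcard
  rcases hy1 with rfl | rfl | hy1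
  · exact Or.inr hy3
  · exact Or.inl hy3
  · exact absurd (Or.inr hy1) hy2

theorem pc_succ (n m : ℕ) : pc (n + 1) m = pc n m + (if Nat.testBit m n = true then 1 else 0) := by
  change pc n m + ((m >>> n) &&& 1) = _
  congr 1
  rw [Nat.and_one_is_mod, Nat.testBit_eq_decide_div_mod_eq, Nat.shiftRight_eq_div_pow]
  have h := Nat.mod_two_eq_zero_or_one (m / 2 ^ n)
  rcases h with h | h <;> simp [h]

theorem pc_card (n m : ℕ) :
    pc n m = ((Finset.range n).filter (fun x => Nat.testBit m x = true)).card := by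
  induction n with
  | zero => rfl
  | succ n ih =>
    rw [pc_succ, ih, Finset.range_add_one, Finset.filter_insert]
    split_ifs with h
    · rw [Finset.card_insert_of_notMem]
      simp
    · rfl

theorem X_ncard (he : Function.Injective e) (m : ℕ) : (X e m).ncard = pc n m := by
  classical
  rw [X, ncard_image_of_injective _ he, pc_card]
  have h1 : {x : Fin n | Nat.testBit m x = true} =
      ((Finset.univ.filter (fun x : Fin n => Nat.testBit m x = true) : Finset (Fin n)) :
        Set (Fin n)) := by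
    ext x
    simp
  rw [h1, ncard_coe_finset]
  refine Finset.card_bij (fun x _ => (x : ℕ)) ?_ ?_ ?_
  · intro x hx
    simp only [Finset.mem_filter, Finset.mem_univ, true_and, Finset.mem_range] at hx ⊢
    exact ⟨x.2, hx⟩
  · intro x _ y _ h
    exact Fin.ext h
  · intro x hx
    simp only [Finset.mem_filter, Finset.mem_range] at hx
    exact ⟨⟨x, hx.1⟩, by simpa using hx.2, rfl⟩

theorem X_disjoint (he : Function.Injective e) {a b : ℕ}
    (h : ∀ x, x < n → Nat.testBit a x = true → Nat.testBit b x = true → False) :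
    Disjoint (X e a) (X e b) := by
  rw [Set.disjoint_left]
  rintro y ⟨x, hx, rfl⟩ hy
  rw [mem_X he] at hy
  exact h _ x.2 hx hy

theorem iUnion_three (Q : Fin 3 → Set β) : (⋃ k, Q k) = Q 0 ∪ Q 1 ∪ Q 2 := by
  ext x
  simp only [mem_iUnion, mem_union]
  constructor
  · rintro ⟨k, hk⟩
    fin_cases k
    · exact Or.inl (Or.inl hk)
    · exact Or.inl (Or.inr hk)
    · exact Or.inr hk
  · rintro ((h | h) | h)
    · exact ⟨_, h⟩
    · exact ⟨_, h⟩
    · exact ⟨_, h⟩

theorem part_three {A B C : Set β} (hA : N.Indep A) (hB : N.Indep B) (hC : N.Indep C)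
    (hAB : Disjoint A B) (hAC : Disjoint A C) (hBC : Disjoint B C) (hU : A ∪ B ∪ C = S) :
    Part N S ![A, B, C] := by
  refine ⟨?_, ?_, ?_⟩
  · intro l
    fin_cases l
    · exact hA
    · exact hB
    · exact hC
  · intro i j hij
    fin_cases i <;> fin_cases j
    · exact absurd rfl hij
    · exact hAB
    · exact hAC
    · exact hAB.symm
    · exact absurd rfl hij
    · exact hBC
    · exact hAC.symm
    · exact hBC.symm
    · exact absurd rfl hij
  · rw [iUnion_three]
    exact hU

theorem part_perm {P : Fin 3 → Set β} (hP : Part N S P) {s : Fin 3 → Fin 3}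
    (hs : Function.Bijective s) : Part N S (fun i => P (s i)) := by
  refine ⟨fun i => hP.1 _, fun i j hij => hP.2.1 (fun h => hij (hs.1 h)), ?_⟩
  rw [← hP.2.2]
  exact hs.2.iUnion_comp P

theorem part_mask (he : Function.Injective e) {full a b : ℕ}
    (hfull : ∀ x, x < n → Nat.testBit full x = true) (hab : a &&& b = 0)
    (h1 : N.Indep (X e a)) (h2 : N.Indep (X e b)) (h3 : N.Indep (X e (full ^^^ (a ||| b)))) :
    Part N (range e) ![X e a, X e b, X e (full ^^^ (a ||| b))] := by
  have hbit : ∀ x, Nat.testBit a x = true → Nat.testBit b x = true → False := by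
    intro x hx1 hx2
    have h5 : Nat.testBit (a &&& b) x = true := by
      rw [Nat.testBit_and, hx1, hx2]
      rfl
    rw [hab, Nat.zero_testBit] at h5
    exact absurd h5 (by simp)
  refine part_three h1 h2 h3 ?_ ?_ ?_ ?_
  · exact X_disjoint he fun x _ hx1 hx2 => hbit x hx1 hx2
  · refine X_disjoint he fun x hx hx1 hx2 => ?_
    rw [Nat.testBit_xor, Nat.testBit_or, hfull x hx, hx1] at hx2
    simp at hx2
  · refine X_disjoint he fun x hx hx1 hx2 => ?_
    rw [Nat.testBit_xor, Nat.testBit_or, hfull x hx, hx1] at hx2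
    simp at hx2
  · ext y
    constructor
    · rintro ((⟨x, _, rfl⟩ | ⟨x, _, rfl⟩) | ⟨x, _, rfl⟩) <;> exact mem_range_self _
    · rintro ⟨x, rfl⟩
      by_cases hx1 : Nat.testBit a x = true
      · exact Or.inl (Or.inl ⟨x, hx1, rfl⟩)
      · by_cases hx2 : Nat.testBit b x = true
        · exact Or.inl (Or.inr ⟨x, hx2, rfl⟩)
        · refine Or.inr ⟨x, ?_, rfl⟩
          change Nat.testBit (full ^^^ (a ||| b)) x = true
          rw [Nat.testBit_xor, Nat.testBit_or, hfull x x.2]
          simp only [Bool.not_eq_true] at hx1 hx2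
          rw [hx1, hx2]
          rfl

theorem perms_bij : ∀ s ∈ perms, Function.Bijective s := by
  intro s hs
  rw [← Finite.injective_iff_bijective]
  revert s
  have h : ∀ s ∈ perms, ∀ i j : Fin 3, s i = s j → i = j := by decide
  intro s hs i j hij
  exact h s hs i j hij

theorem perms_getD {k : ℕ} (hk : k < 6) : Function.Bijective (perms.getD k id) := by
  have h1 : k < perms.length := hk
  rw [List.getD_eq_getElem _ _ h1]
  exact perms_bij _ (List.getElem_mem h1)

end Pool.Agent.WS
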