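import Pool.Agent.WS.Check

/-!
# WS/Sound: soundness of the checker
-/

set_option autoImplicit false

namespace Pool.Agent.WS

theorem force_eq {β : Type} (n : ℕ) (k : ℕ → β) : force n k = k n := by
  unfold force
  cases n <;> rfl

theorem beq_false {a b : ℕ} (h : a ≠ b) : Nat.beq a b = false := by
  rcases h' : Nat.beq a b with _ | _
  · rfl
  · exact absurd (Nat.eq_of_beq_eq_true h') h

/-- The clause with code `c` (at most `n` digits) holds, where `V d` says that the literal with
digit `d` is true. -/
def Holds (V : ℕ → Prop) : ℕ → ℕ → Prop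
  | 0, _ => False
  | n + 1, c => c ≠ 0 ∧ (V (Nat.land c 32767) ∨ Holds V n (Nat.shiftRight c 15))

/-- The truth values of digits. -/
def Val (T : ℕ → Prop) (d : ℕ) : Prop := 64 ≤ d ∧ T (d - 64)

/-- All literals of `F` are false. -/
def AllFalse (V : ℕ → Prop) (F : ℕ) : Prop := ∀ d, Nat.testBit F d = true → ¬ V d

variable {V : ℕ → Prop}

theorem allFalse_insert {F v : ℕ} (hF : AllFalse V F) (hv : ¬ V v) :
    AllFalse V (Nat.lor F (Nat.shiftLeft 1 v)) := by
  intro d hd
  have h1 : Nat.testBit (F ||| (1 <<< v)) d = true := hd
  rw [Nat.testBit_or, Nat.testBit_shiftLeft, Bool.or_eq_true] at h1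
  rcases h1 with h1 | h1
  · exact hF d h1
  · have h2 : d = v := by
      rw [Bool.and_eq_true, decide_eq_true_eq] at h1
      obtain ⟨h2, h3⟩ := h1
      rw [Nat.testBit_one_eq_true_iff_self_eq_zero] at h3
      omega
    rw [h2]
    exact hv

theorem mask_succ (n c a : ℕ) :
    mask (n + 1) c a = if c = 0 then a else
      mask n (Nat.shiftRight c 15) (Nat.lor a (Nat.shiftLeft 1 (Nat.land c 32767))) := by
  have h0 : mask (n + 1) c a =
      @Bool.rec (fun _ => ℕ)
        (mask n (Nat.shiftRight c 15) (Nat.lor a (Nat.shiftLeft 1 (Nat.land c 32767)))) a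
        (Nat.beq c 0) := rfl
  rw [h0]
  by_cases hc : c = 0
  · subst hc
    rfl
  · rw [beq_false hc, if_neg hc]

/-- If all digits of `mask c` are false then the clause `c` does not hold. -/
theorem mask_holds : ∀ (n c a : ℕ), Holds V n c ∨ ¬ AllFalse V a → ¬ AllFalse V (mask n c a) := by
  intro n
  induction n with
  | zero =>
    intro c a h
    rcases h with h | h
    · exact absurd h (by change ¬ False; simp)
    · exact h
  | succ n ih =>
    intro c a h
    rw [mask_succ]
    by_cases hc : c = 0
    · rw [if_pos hc]
      rcases h with h | h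
      · exact absurd hc h.1
      · exact h
    · rw [if_neg hc]
      apply ih
      rcases h with h | h
      · rcases h.2 with h1 | h1
        · right
          intro h2
          refine h2 (Nat.land c 32767) ?_ h1
          change Nat.testBit (a ||| (1 <<< (Nat.land c 32767))) (Nat.land c 32767) = true
          rw [Nat.testBit_or, Nat.testBit_shiftLeft]
          simp
        · exact Or.inl h1
      · right
        intro h2
        apply h
        intro d hd
        apply h2
        change Nat.testBit (a ||| (1 <<< (Nat.land c 32767))) d = true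
        rw [Nat.testBit_or, hd]
        rfl

/-- The digits of a clause which does not hold are false (if all its digits are read). -/
theorem mask_false : ∀ (n c a : ℕ), ¬ Holds V n c → AllFalse V a → AllFalse V (mask n c a) := by
  intro n
  induction n with
  | zero =>
    intro c a _ h
    exact h
  | succ n ih =>
    intro c a hh h
    rw [mask_succ]
    by_cases hc : c = 0
    · rw [if_pos hc]
      exact h
    · rw [if_neg hc]
      have h1 : ¬ V (Nat.land c 32767) ∧ ¬ Holds V n (Nat.shiftRight c 15) := by
        constructor
        · exact fun h2 => hh ⟨hc, Or.inl h2⟩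
        · exact fun h2 => hh ⟨hc, Or.inr h2⟩
      exact ih _ _ h1.2 (allFalse_insert h h1.1)

theorem rup_succ (t : Tree) (i n h F : ℕ) :
    rup t i (n + 1) h F =
      if Nat.land h 131071 < i then
        if Nat.land (mask 64 (t.get (Nat.land h 131071)) 0)
            (Nat.lor F (Nat.shiftLeft 1 (Nat.land (Nat.shiftRight h 17) 32767))) =
              mask 64 (t.get (Nat.land h 131071)) 0 then
          if Nat.land (Nat.shiftRight h 17) 32767 = 0 then true else
            rup t i n (Nat.shiftRight h 32) (Nat.lor F
              (Nat.shiftLeft 1 (Nat.xor (Nat.land (Nat.shiftRight h 17) 32767) 1)))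
        else false
      else false := by
  have h0 : rup t i (n + 1) h F =
      force (Nat.land h 131071) fun j =>
        (fun v c =>
          @Bool.rec (fun _ => Bool) false
            (@Bool.rec (fun _ => Bool) false
              (@Bool.rec (fun _ => Bool)
                (rup t i n (Nat.shiftRight h 32) (Nat.lor F (Nat.shiftLeft 1 (Nat.xor v 1))))
                true
                (Nat.beq v 0))
              (Nat.beq (Nat.land c (Nat.lor F (Nat.shiftLeft 1 v))) c))
            (Nat.ble (Nat.succ j) i))
          (Nat.land (Nat.shiftRight h 17) 32767) (mask 64 (t.get j) 0) := rfl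
  rw [h0, force_eq]
  dsimp only
  generalize Nat.land (Nat.shiftRight h 17) 32767 = v
  generalize Nat.land h 131071 = j
  generalize mask 64 (t.get j) 0 = c
  by_cases hj : j < i
  · rw [if_pos hj, Nat.ble_eq_true_of_le hj]
    by_cases hb : Nat.land c (Nat.lor F (Nat.shiftLeft 1 v)) = c
    · rw [if_pos hb, hb, Nat.beq_refl c]
      by_cases hv : v = 0
      · subst hv
        rfl
      · rw [if_neg hv, beq_false hv]
    · rw [if_neg hb, beq_false hb]
  · rw [if_neg hj]
    rcases h' : Nat.ble (Nat.succ j) i with _ | _
    · rfl
    · exact absurd (Nat.le_of_ble_eq_true h') hj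

theorem rup_sound {t : Tree} {i : ℕ} (hV : ¬ V 0) (hn : ∀ d, V d → ¬ V (Nat.xor d 1))
    (ht : ∀ j < i, Holds V 64 (t.get j)) :
    ∀ (n h F : ℕ), rup t i n h F = true → AllFalse V F → False := by
  intro n
  induction n with
  | zero =>
    intro h F hr
    exact absurd hr (by change ¬ (false = true); simp)
  | succ n ih =>
    intro h F hr hF
    rw [rup_succ] at hr
    revert hr
    generalize Nat.land (Nat.shiftRight h 17) 32767 = v
    generalize Nat.land h 131071 = j
    intro hr
    by_cases hj : j < i
    · rw [if_pos hj] at hr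
      have h1 := mask_holds (V := V) 64 (t.get j) 0 (Or.inl (ht j hj))
      by_cases hb : Nat.land (mask 64 (t.get j) 0) (Nat.lor F (Nat.shiftLeft 1 v)) =
          mask 64 (t.get j) 0
      · rw [if_pos hb] at hr
        have hVv : V v := by
          by_contra hv
          apply h1
          intro d hd
          refine allFalse_insert hF hv d ?_
          rw [← hb] at hd
          have h2 : Nat.testBit (mask 64 (t.get j) 0 &&& (Nat.lor F (Nat.shiftLeft 1 v))) d =
            true := hd
          rw [Nat.testBit_and, Bool.and_eq_true] at h2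
          exact h2.2
        have hv0 : v ≠ 0 := fun e => hV (e ▸ hVv)
        rw [if_neg hv0] at hr
        exact ih _ _ hr (allFalse_insert hF (hn v hVv))
      · rw [if_neg hb] at hr
        exact absurd hr (by simp)
    · rw [if_neg hj] at hr
      exact absurd hr (by simp)

theorem checkAll_sound {t : Tree} (hV : ¬ V 0) (hn : ∀ d, V d → ¬ V (Nat.xor d 1)) :
    ∀ (hs : List ℕ) (i : ℕ), checkAll t hs i = true → (∀ j < i, Holds V 64 (t.get j)) →
      ∀ j < i + hs.length, Holds V 64 (t.get j) := by
  intro hs
  induction hs with
  | nil =>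
    intro i _ ht j hj
    exact ht j (by simpa using hj)
  | cons h hs ih =>
    intro i hc ht j hj
    have h0 : checkAll t (h :: hs) i =
      @Bool.rec (fun _ => Bool) false (force (Nat.succ i) (checkAll t hs))
        (rup t i 4096 h (mask 64 (t.get i) 0)) := rfl
    rw [h0, force_eq] at hc
    rcases h1 : rup t i 4096 h (mask 64 (t.get i) 0) with _ | _
    · rw [h1] at hc
      exact absurd hc (by change ¬ (false = true); simp)
    · rw [h1] at hc
      have h2 : Holds V 64 (t.get i) := by
        by_contra hh
        refine rup_sound hV hn ht _ _ _ h1 (mask_false _ _ _ hh ?_)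
        intro d hd
        rw [Nat.zero_testBit] at hd
        exact absurd hd (by simp)
      refine ih (Nat.succ i) hc ?_ j ?_
      · intro j' hj'
        rcases Nat.lt_or_ge j' i with h3 | h3
        · exact ht j' h3
        · have : j' = i := by omega
          rw [this]
          exact h2
      · rw [List.length_cons] at hj
        omega

theorem val_zero {T : ℕ → Prop} : ¬ Val T 0 := fun h => absurd h.1 (by decide)

theorem val_xor {T : ℕ → Prop} (hT : ∀ l, T (l ^^^ 1) ↔ ¬ T l) (d : ℕ) (hd : Val T d) :
    ¬ Val T (Nat.xor d 1) := by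
  rintro ⟨_, h2⟩
  have h3 : Nat.xor d 1 - 64 = (d - 64) ^^^ 1 := by
    have h4 : 64 ≤ d := hd.1
    change (d ^^^ 1) - 64 = (d - 64) ^^^ 1
    have e1 : (d ^^^ 1) / 2 = d / 2 := by
      rw [Nat.xor_div_two]
      simp
    have e2 : (d ^^^ 1) % 2 = (d + 1) % 2 := by rw [Nat.xor_mod_two_eq]
    have e3 : ((d - 64) ^^^ 1) / 2 = (d - 64) / 2 := by
      rw [Nat.xor_div_two]
      simp
    have e4 : ((d - 64) ^^^ 1) % 2 = (d - 64 + 1) % 2 := by rw [Nat.xor_mod_two_eq]
    omega
  rw [h3, hT] at h2
  exact h2 hd.2

/-- Learned clauses hold. -/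
theorem learned {t : Tree} {m : ℕ} {hs : List ℕ} {T : ℕ → Prop} (hT : ∀ l, T (l ^^^ 1) ↔ ¬ T l)
    (hc : checkAll t hs m = true) (ht : ∀ j < m, Holds (Val T) 64 (t.get j)) :
    ∀ j < m + hs.length, Holds (Val T) 64 (t.get j) :=
  checkAll_sound (V := Val T) val_zero (val_xor hT) hs m hc ht

/-- The empty clause does not hold. -/
theorem not_holds_zero {V : ℕ → Prop} {n : ℕ} : ¬ Holds V n 0 := by
  cases n with
  | zero => exact fun h => h
  | succ n => exact fun h => h.1 rfl

end Pool.Agent.WS
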